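import Mathlib

set_option autoImplicit false

open MeasureTheory Filter Topology Set

namespace Pool.Agent.Helper176.LacLLN

/-- If the square integrals of the partial sums of uniformly bounded functions grow at most
linearly, then the averages tend to `0` almost everywhere. -/
lemma ae_avg_tendsto_zero {Ω : Type*} [MeasurableSpace Ω] (μ : Measure Ω) [IsFiniteMeasure μ]
    (g : ℕ → Ω → ℝ) (hg : ∀ j, Measurable (g j)) (M : ℝ) (hM : ∀ j x, |g j x| ≤ M)
    (K : ℝ) (hK : ∀ N : ℕ, ∫ x, (∑ j ∈ Finset.range N, g j x) ^ 2 ∂μ ≤ K * N) :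
    ∀ᵐ x ∂μ, Tendsto (fun N : ℕ => (∑ j ∈ Finset.range N, g j x) / N) atTop (𝓝 0) := by
  set F : ℕ → Ω → ℝ := fun N x => ∑ j ∈ Finset.range N, g j x with hF
  have hFm : ∀ N, Measurable (F N) := fun N => Finset.measurable_fun_sum _ (fun j _ => hg j)
  have hFb : ∀ N x, |F N x| ≤ N * M := by
    intro N x
    calc |F N x| ≤ ∑ j ∈ Finset.range N, |g j x| := Finset.abs_sum_le_sum_abs _ _
      _ ≤ ∑ j ∈ Finset.range N, M := Finset.sum_le_sum (fun j _ => hM j x)
      _ = N * M := by simp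
  -- the subsequence of squares
  set h : ℕ → Ω → ℝ := fun n x => (F (n ^ 2) x / (n : ℝ) ^ 2) ^ 2 with hh
  have hhm : ∀ n, Measurable (h n) := fun n => ((hFm _).div_const _).pow_const 2
  have hint : ∀ n, Integrable (h n) μ := by
    intro n
    refine Integrable.of_bound (C := M ^ 2) (hhm n).aestronglyMeasurable (Eventually.of_forall ?_)
    intro x
    rcases Nat.eq_zero_or_pos n with hn | hn
    · subst hn
      simp [hh]
      positivity
    · have hn' : (0 : ℝ) < (n : ℝ) ^ 2 := by positivity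
      have h1 : |F (n ^ 2) x / (n : ℝ) ^ 2| ≤ M := by
        rw [abs_div, abs_of_pos hn', div_le_iff₀ hn']
        have := hFb (n ^ 2) x
        push_cast at this
        linarith
      rw [Real.norm_eq_abs, hh]
      simp only
      rw [abs_pow]
      exact pow_le_pow_left₀ (abs_nonneg _) h1 2
  have hle : ∀ n, ∫ x, h n x ∂μ ≤ |K| / (n : ℝ) ^ 2 := by
    intro n
    rcases Nat.eq_zero_or_pos n with hn | hn
    · subst hn
      simp [hh]
    · have hn' : (0 : ℝ) < (n : ℝ) ^ 2 := by positivity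
      have h1 : ∫ x, h n x ∂μ = (∫ x, (F (n ^ 2) x) ^ 2 ∂μ) / ((n : ℝ) ^ 2) ^ 2 := by
        rw [← integral_div]
        congr 1
        ext x
        simp only [hh]
        rw [div_pow]
      rw [h1]
      have h2 := hK (n ^ 2)
      push_cast at h2
      rw [div_le_div_iff₀ (by positivity) hn']
      have h3 : (∫ x, (F (n ^ 2) x) ^ 2 ∂μ) ≤ |K| * (n : ℝ) ^ 2 :=
        h2.trans (mul_le_mul_of_nonneg_right (le_abs_self K) hn'.le)
      calc (∫ x, (F (n ^ 2) x) ^ 2 ∂μ) * (n : ℝ) ^ 2 ≤ (|K| * (n : ℝ) ^ 2) * (n : ℝ) ^ 2 :=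
            mul_le_mul_of_nonneg_right h3 hn'.le
        _ = |K| * ((n : ℝ) ^ 2) ^ 2 := by ring
  have hsum : Summable (fun n : ℕ => |K| / (n : ℝ) ^ 2) := by
    have := (Real.summable_one_div_nat_pow (p := 2)).mpr (by norm_num)
    simpa [div_eq_mul_inv] using this.mul_left |K|
  have hnn : ∀ n x, 0 ≤ h n x := fun n x => sq_nonneg _
  have hsum2 : Summable (fun n => ∫ x, ‖h n x‖ ∂μ) := by
    refine Summable.of_nonneg_of_le (fun n => integral_nonneg (fun x => norm_nonneg _)) ?_ hsum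
    intro n
    have : (fun x => ‖h n x‖) = h n := by
      ext x
      rw [Real.norm_eq_abs, abs_of_nonneg (hnn n x)]
    rw [this]
    exact hle n
  have hae : ∀ᵐ x ∂μ, Summable (fun n => h n x) := by
    have h1 : ∫⁻ x, ∑' n, ENNReal.ofReal (h n x) ∂μ < ⊤ := by
      rw [lintegral_tsum (fun n => (hhm n).ennreal_ofReal.aemeasurable)]
      have h2 : ∀ n, ∫⁻ x, ENNReal.ofReal (h n x) ∂μ = ENNReal.ofReal (∫ x, ‖h n x‖ ∂μ) := by
        intro n
        rw [ofReal_integral_eq_lintegral_ofReal (hint n).norm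
          (Eventually.of_forall fun x => norm_nonneg _)]
        congr 1
        ext x
        rw [Real.norm_eq_abs, abs_of_nonneg (hnn n x)]
      simp_rw [h2]
      rw [← ENNReal.ofReal_tsum_of_nonneg (fun n => integral_nonneg (fun x => norm_nonneg _)) hsum2]
      exact ENNReal.ofReal_lt_top
    have h3 := ae_lt_top' (Measurable.aemeasurable
      (Measurable.ennreal_tsum (fun n => (hhm n).ennreal_ofReal))) h1.ne
    filter_upwards [h3] with x hx
    have h4 : Summable (fun n => (ENNReal.ofReal (h n x)).toReal) :=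
      ENNReal.summable_toReal hx.ne
    refine h4.congr ?_
    intro n
    exact ENNReal.toReal_ofReal (hnn n x)
  filter_upwards [hae] with x hx
  have hsq : Tendsto (fun n : ℕ => F (n ^ 2) x / (n : ℝ) ^ 2) atTop (𝓝 0) := by
    have h1 := hx.tendsto_atTop_zero
    have h2 : Tendsto (fun n => √(h n x)) atTop (𝓝 (√0)) :=
      (Real.continuous_sqrt.tendsto 0).comp h1
    rw [Real.sqrt_zero] at h2
    rw [tendsto_zero_iff_abs_tendsto_zero]
    refine h2.congr ?_
    intro n
    simp only [hh, Function.comp]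
    rw [Real.sqrt_sq_eq_abs]
  have hM0 : 0 ≤ M := (abs_nonneg _).trans (hM 0 x)
  -- interpolation
  have hsqrt : Tendsto (fun N : ℕ => Nat.sqrt N) atTop atTop := by
    refine tendsto_atTop_atTop.mpr (fun b => ⟨b ^ 2, fun a ha => ?_⟩)
    exact Nat.le_sqrt'.mpr ha
  have hb : Tendsto (fun N : ℕ => |F ((Nat.sqrt N) ^ 2) x / ((Nat.sqrt N : ℕ) : ℝ) ^ 2| +
      2 * M / ((Nat.sqrt N : ℕ) : ℝ)) atTop (𝓝 0) := by
    have h1 := (tendsto_zero_iff_abs_tendsto_zero _).mp (hsq.comp hsqrt)
    have h2 : Tendsto (fun N : ℕ => 2 * M / ((Nat.sqrt N : ℕ) : ℝ)) atTop (𝓝 0) :=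
      (tendsto_const_div_atTop_nhds_zero_nat (2 * M)).comp hsqrt
    simpa using h1.add h2
  refine squeeze_zero_norm' ?_ hb
  filter_upwards [eventually_ge_atTop 1] with N hN
  set n := Nat.sqrt N with hn
  have hn1 : 1 ≤ n := Nat.le_sqrt'.mpr (by simpa using hN)
  have hn2 : n ^ 2 ≤ N := Nat.sqrt_le' N
  have hn3 : N ≤ n ^ 2 + 2 * n := by
    have := Nat.sqrt_le_add N
    rw [← hn] at this
    nlinarith
  have hnR : (0 : ℝ) < n := by exact_mod_cast hn1
  have hNR : (0 : ℝ) < N := by exact_mod_cast hN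
  have hdiff : |F N x - F (n ^ 2) x| ≤ 2 * n * M := by
    have h1 : F N x - F (n ^ 2) x = ∑ j ∈ Finset.Ico (n ^ 2) N, g j x := by
      rw [Finset.sum_Ico_eq_sub _ hn2]
    rw [h1]
    calc |∑ j ∈ Finset.Ico (n ^ 2) N, g j x| ≤ ∑ j ∈ Finset.Ico (n ^ 2) N, |g j x| :=
          Finset.abs_sum_le_sum_abs _ _
      _ ≤ ∑ j ∈ Finset.Ico (n ^ 2) N, M := Finset.sum_le_sum (fun j _ => hM j x)
      _ = ((N - n ^ 2 : ℕ) : ℝ) * M := by simp
      _ ≤ 2 * n * M := by
        apply mul_le_mul_of_nonneg_right _ hM0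
        have : N - n ^ 2 ≤ 2 * n := by omega
        exact_mod_cast this
  have hFN : |F N x| ≤ |F (n ^ 2) x| + 2 * n * M := by
    have := abs_sub_abs_le_abs_sub (F N x) (F (n ^ 2) x)
    linarith
  rw [Real.norm_eq_abs, abs_div, abs_of_pos hNR]
  have hn2R : ((n : ℝ)) ^ 2 ≤ N := by exact_mod_cast hn2
  calc |F N x| / N ≤ (|F (n ^ 2) x| + 2 * n * M) / (n : ℝ) ^ 2 := by
        apply div_le_div₀ (by positivity) hFN (by positivity) hn2R
    _ = |F (n ^ 2) x / (n : ℝ) ^ 2| + 2 * M / n := by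
        rw [abs_div, abs_of_pos (show (0 : ℝ) < (n : ℝ) ^ 2 by positivity)]
        field_simp


/-- Correlation bound for two frequencies. -/
lemma corr_bound (G G' H : ℝ → ℝ) (M : ℝ) (hG : ∀ x, HasDerivAt G (G' x) x)
    (hH : ∀ x, HasDerivAt H (G x) x) (hG'c : Continuous G') (hGM : ∀ x, |G x| ≤ M)
    (hG'M : ∀ x, |G' x| ≤ M) (hHM : ∀ x, |H x| ≤ M) (R : ℝ) (hR : 0 ≤ R) (a b ω ν : ℝ)
    (hν : ν ≠ 0) :
    |∫ t in (-R)..R, G (a + ω * t) * G (b + ν * t)| ≤ (2 * M ^ 2 + 2 * R * M ^ 2 * |ω|) / |ν| := by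
  have hM0 : 0 ≤ M := (abs_nonneg _).trans (hGM 0)
  have hGc : Continuous G := continuous_iff_continuousAt.mpr (fun x => (hG x).continuousAt)
  have hHc : Continuous H := continuous_iff_continuousAt.mpr (fun x => (hH x).continuousAt)
  have hu : ∀ t ∈ Set.uIcc (-R) R, HasDerivAt (fun t => G (a + ω * t)) (G' (a + ω * t) * ω) t := by
    intro t _
    have h1 : HasDerivAt (fun t : ℝ => a + ω * t) ω t := by
      simpa using ((hasDerivAt_id t).const_mul ω).const_add a
    exact (hG (a + ω * t)).comp t h1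
  have hv : ∀ t ∈ Set.uIcc (-R) R, HasDerivAt (fun t => H (b + ν * t) / ν) (G (b + ν * t)) t := by
    intro t _
    have h1 : HasDerivAt (fun t : ℝ => b + ν * t) ν t := by
      simpa using ((hasDerivAt_id t).const_mul ν).const_add b
    have h2 := ((hH (b + ν * t)).comp t h1).div_const ν
    simpa [mul_div_assoc, div_self hν] using h2
  have hibp := intervalIntegral.integral_mul_deriv_eq_deriv_mul hu hv
    (Continuous.intervalIntegrable (by fun_prop) _ _)
    (Continuous.intervalIntegrable (by fun_prop) _ _)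
  rw [hibp]
  have hb1 : ∀ t, |G (a + ω * t) * (H (b + ν * t) / ν)| ≤ M ^ 2 / |ν| := by
    intro t
    rw [abs_mul, abs_div, ← mul_div_assoc]
    apply div_le_div_of_nonneg_right _ (abs_nonneg _)
    calc |G (a + ω * t)| * |H (b + ν * t)| ≤ M * M :=
          mul_le_mul (hGM _) (hHM _) (abs_nonneg _) hM0
      _ = M ^ 2 := by ring
  have hb2 : ‖∫ t in (-R)..R, G' (a + ω * t) * ω * (H (b + ν * t) / ν)‖ ≤
      (M ^ 2 * |ω| / |ν|) * |R - (-R)| := by
    apply intervalIntegral.norm_integral_le_of_norm_le_const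
    intro t _
    rw [Real.norm_eq_abs, abs_mul, abs_mul, abs_div, ← mul_div_assoc]
    apply div_le_div_of_nonneg_right _ (abs_nonneg _)
    calc |G' (a + ω * t)| * |ω| * |H (b + ν * t)| ≤ M * |ω| * M := by
          apply mul_le_mul _ (hHM _) (abs_nonneg _) (by positivity)
          exact mul_le_mul_of_nonneg_right (hG'M _) (abs_nonneg _)
      _ = M ^ 2 * |ω| := by ring
  rw [Real.norm_eq_abs] at hb2
  have hR2 : |R - (-R)| = 2 * R := by
    rw [abs_of_nonneg (by linarith)]; ring
  rw [hR2] at hb2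
  calc _ ≤ |G (a + ω * R) * (H (b + ν * R) / ν)| +
        |G (a + ω * (-R)) * (H (b + ν * (-R)) / ν)| +
        |∫ t in (-R)..R, G' (a + ω * t) * ω * (H (b + ν * t) / ν)| := by
        refine (abs_sub _ _).trans ?_
        exact add_le_add_left (abs_sub _ _) _
    _ ≤ M ^ 2 / |ν| + M ^ 2 / |ν| + (M ^ 2 * |ω| / |ν|) * (2 * R) := by
        gcongr
        · exact hb1 R
        · exact hb1 (-R)
    _ = (2 * M ^ 2 + 2 * R * M ^ 2 * |ω|) / |ν| := by ring

/-- Sum of geometrically decaying correlations. -/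
lemma sum_corr (c : ℕ → ℕ → ℝ) (K : ℝ) (hK : 0 ≤ K)
    (hc : ∀ i j, i ≤ j → |c i j| ≤ K * (1 / 4 : ℝ) ^ (j - i)) (hsymm : ∀ i j, c i j = c j i)
    (N : ℕ) : ∑ i ∈ Finset.range N, ∑ j ∈ Finset.range N, c i j ≤ (4 * K) * N := by
  have hgeo : ∀ n : ℕ, ∑ k ∈ Finset.range n, (1 / 4 : ℝ) ^ k ≤ 4 / 3 := by
    intro n
    have := Summable.sum_le_tsum (Finset.range n) (fun k _ => by positivity)
      (summable_geometric_of_lt_one (r := (1 / 4 : ℝ)) (by norm_num) (by norm_num))
    rw [tsum_geometric_of_lt_one (by norm_num) (by norm_num)] at this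
    norm_num at this ⊢
    linarith
  induction N with
  | zero => simp
  | succ N ih =>
    have h1 : ∀ i ∈ Finset.range N, |c i N| ≤ K * (1 / 4 : ℝ) ^ (N - i) := fun i hi =>
      hc i N (Finset.mem_range.mp hi).le
    have h2 : ∑ i ∈ Finset.range N, |c i N| ≤ K * (1 / 3) := by
      calc ∑ i ∈ Finset.range N, |c i N| ≤ ∑ i ∈ Finset.range N, K * (1 / 4 : ℝ) ^ (N - i) :=
            Finset.sum_le_sum h1
        _ = ∑ i ∈ Finset.range N, K * (1 / 4 : ℝ) ^ (i + 1) := by
            rw [← Finset.sum_range_reflect]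
            apply Finset.sum_congr rfl
            intro i hi
            have := Finset.mem_range.mp hi
            congr 2
            omega
        _ = K * (1 / 4) * ∑ i ∈ Finset.range N, (1 / 4 : ℝ) ^ i := by
            rw [Finset.mul_sum]
            apply Finset.sum_congr rfl
            intro i _
            ring
        _ ≤ K * (1 / 4) * (4 / 3) := by
            apply mul_le_mul_of_nonneg_left (hgeo N) (by positivity)
        _ = K * (1 / 3) := by ring
    have h3 : |c N N| ≤ K := by simpa using hc N N le_rfl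
    rw [Finset.sum_range_succ]
    have h4 : ∑ i ∈ Finset.range N, ∑ j ∈ Finset.range (N + 1), c i j =
        ∑ i ∈ Finset.range N, ∑ j ∈ Finset.range N, c i j + ∑ i ∈ Finset.range N, c i N := by
      rw [← Finset.sum_add_distrib]
      apply Finset.sum_congr rfl
      intro i _
      rw [Finset.sum_range_succ]
    have h5 : ∑ j ∈ Finset.range (N + 1), c N j = ∑ j ∈ Finset.range N, c j N + c N N := by
      rw [Finset.sum_range_succ]
      congr 1
      apply Finset.sum_congr rfl
      intro j _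
      exact hsymm _ _
    rw [h4, h5]
    have h6 : ∑ i ∈ Finset.range N, c i N ≤ K * (1 / 3) :=
      (Finset.sum_le_sum (fun i _ => le_abs_self _)).trans h2
    have h7 : c N N ≤ K := (le_abs_self _).trans h3
    push_cast
    linarith

/-- Law of large numbers for lacunary dilations of a function with bounded primitive. -/
lemma lln (G G' H : ℝ → ℝ) (M : ℝ) (hG : ∀ x, HasDerivAt G (G' x) x)
    (hH : ∀ x, HasDerivAt H (G x) x) (hG'c : Continuous G') (hGM : ∀ x, |G x| ≤ M)
    (hG'M : ∀ x, |G' x| ≤ M) (hHM : ∀ x, |H x| ≤ M) (α ω : ℕ → ℝ) (c C : ℝ) (hc : 0 < c)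
    (J : ℕ) (hω : ∀ j, J ≤ j → c * 4 ^ j ≤ |ω j|) (hω2 : ∀ j, |ω j| ≤ C * 4 ^ j) :
    ∀ᵐ t : ℝ, Tendsto (fun N : ℕ => (∑ j ∈ Finset.range N, G (α j + ω j * t)) / N) atTop (𝓝 0) := by
  have hM0 : 0 ≤ M := (abs_nonneg _).trans (hGM 0)
  have hC0 : 0 ≤ C := by
    have := (abs_nonneg _).trans (hω2 0)
    simpa using this
  have hGc : Continuous G := continuous_iff_continuousAt.mpr (fun x => (hG x).continuousAt)
  have key : ∀ n : ℕ, ∀ᵐ t ∂(volume.restrict (Set.Ioc (-(n : ℝ)) n)),
      Tendsto (fun N : ℕ => (∑ j ∈ Finset.range N, G (α j + ω j * t)) / N) atTop (𝓝 0) := by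
    intro n
    have hR : (0 : ℝ) ≤ (n : ℝ) := by positivity
    generalize (n : ℝ) = R at hR
    set g : ℕ → ℝ → ℝ := fun j t => G (α j + ω j * t) with hg
    have hgc : ∀ j, Continuous (g j) := fun j => by simp only [hg]; fun_prop
    set cc : ℕ → ℕ → ℝ := fun i j => ∫ t in (-R)..R, g i t * g j t with hcc
    set K : ℝ := max ((2 * M ^ 2 + 2 * R * M ^ 2 * C) / c) (2 * R * M ^ 2 * 4 ^ J) with hKdef
    have hK0 : 0 ≤ K := le_max_of_le_right (by positivity)
    have hcb : ∀ i j, i ≤ j → |cc i j| ≤ K * (1 / 4 : ℝ) ^ (j - i) := by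
      intro i j hij
      by_cases hj : J ≤ j
      · have hωj : 0 < |ω j| := lt_of_lt_of_le (by positivity) (hω j hj)
        have h1 := corr_bound G G' H M hG hH hG'c hGM hG'M hHM R hR (α i) (α j) (ω i) (ω j)
          (abs_pos.mp hωj)
        refine h1.trans ?_
        have h4 : (1 : ℝ) ≤ 4 ^ i := one_le_pow₀ (by norm_num)
        have h2 : 2 * M ^ 2 + 2 * R * M ^ 2 * |ω i| ≤ (2 * M ^ 2 + 2 * R * M ^ 2 * C) * 4 ^ i := by
          have h5 : 2 * R * M ^ 2 * |ω i| ≤ 2 * R * M ^ 2 * (C * 4 ^ i) :=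
            mul_le_mul_of_nonneg_left (hω2 i) (by positivity)
          have h6 : 2 * M ^ 2 * 1 ≤ 2 * M ^ 2 * 4 ^ i :=
            mul_le_mul_of_nonneg_left h4 (by positivity)
          nlinarith
        calc (2 * M ^ 2 + 2 * R * M ^ 2 * |ω i|) / |ω j|
            ≤ ((2 * M ^ 2 + 2 * R * M ^ 2 * C) * 4 ^ i) / (c * 4 ^ j) :=
              div_le_div₀ (by positivity) h2 (by positivity) (hω j hj)
          _ = ((2 * M ^ 2 + 2 * R * M ^ 2 * C) / c) * (1 / 4 : ℝ) ^ (j - i) := by
              obtain ⟨k, rfl⟩ := Nat.exists_eq_add_of_le hij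
              rw [Nat.add_sub_cancel_left, pow_add, one_div, inv_pow]
              field_simp
          _ ≤ K * (1 / 4 : ℝ) ^ (j - i) :=
              mul_le_mul_of_nonneg_right (le_max_left _ _) (by positivity)
      · push Not at hj
        have h1 : ‖∫ t in (-R)..R, g i t * g j t‖ ≤ M ^ 2 * |R - (-R)| := by
          apply intervalIntegral.norm_integral_le_of_norm_le_const
          intro t _
          rw [Real.norm_eq_abs, abs_mul, sq]
          exact mul_le_mul (hGM _) (hGM _) (abs_nonneg _) hM0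
        have hR2 : |R - (-R)| = 2 * R := by
          rw [abs_of_nonneg (by linarith)]; ring
        rw [hR2, Real.norm_eq_abs] at h1
        refine h1.trans ?_
        calc M ^ 2 * (2 * R) = (2 * R * M ^ 2 * 4 ^ J) * (1 / 4 : ℝ) ^ J := by
              rw [one_div, inv_pow]
              field_simp
          _ ≤ (2 * R * M ^ 2 * 4 ^ J) * (1 / 4 : ℝ) ^ (j - i) := by
              apply mul_le_mul_of_nonneg_left _ (by positivity)
              apply pow_le_pow_of_le_one (by norm_num) (by norm_num)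
              omega
          _ ≤ K * (1 / 4 : ℝ) ^ (j - i) :=
              mul_le_mul_of_nonneg_right (le_max_right _ _) (by positivity)
    refine ae_avg_tendsto_zero _ g (fun j => (hgc j).measurable) M (fun j x => hGM _) (4 * K) ?_
    intro N
    have h1 : ∫ t in Set.Ioc (-R) R, (∑ j ∈ Finset.range N, g j t) ^ 2 =
        ∑ i ∈ Finset.range N, ∑ j ∈ Finset.range N, cc i j := by
      rw [← intervalIntegral.integral_of_le (by linarith)]
      have h2 : ∀ t, (∑ j ∈ Finset.range N, g j t) ^ 2 =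
          ∑ i ∈ Finset.range N, ∑ j ∈ Finset.range N, g i t * g j t := by
        intro t
        rw [sq, Finset.sum_mul_sum]
      simp_rw [h2]
      rw [intervalIntegral.integral_finsetSum]
      · apply Finset.sum_congr rfl
        intro i _
        rw [intervalIntegral.integral_finsetSum]
        intro j _
        exact ((hgc i).mul (hgc j)).intervalIntegrable _ _
      · intro i _
        exact (continuous_finsetSum _ (fun j _ => (hgc i).mul (hgc j))).intervalIntegrable _ _
    rw [h1]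
    exact sum_corr cc K hK0 hcb (fun i j => by simp only [hcc]; congr 1; ext t; ring) N
  have hU : (⋃ n : ℕ, Set.Ioc (-(n : ℝ)) n) = Set.univ := by
    rw [Set.eq_univ_iff_forall]
    intro t
    obtain ⟨n, hn⟩ := exists_nat_gt |t|
    rw [Set.mem_iUnion]
    exact ⟨n, (abs_lt.mp hn).1, (abs_lt.mp hn).2.le⟩
  have := (ae_restrict_iUnion_iff (fun n : ℕ => Set.Ioc (-(n : ℝ)) n)
    (fun t => Tendsto (fun N : ℕ => (∑ j ∈ Finset.range N, G (α j + ω j * t)) / N) atTop
      (𝓝 0))).mpr key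
  rwa [hU, Measure.restrict_univ] at this

end Pool.Agent.Helper176.LacLLN
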