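import Mathlib
import Pool.Agent.Helper176.LacLLN

set_option autoImplicit false

open MeasureTheory Filter Topology Set

namespace Pool.Agent.Helper176.LacMean

open Pool.Agent.Helper176.LacLLN

/-- The distorted phase. -/
noncomputable def pp (x : ℝ) : ℝ := x - Real.sin x / 4

/-- Distorted cosine. -/
noncomputable def P (x : ℝ) : ℝ := Real.cos (pp x)

lemma P_cont : Continuous P := by unfold P pp; fun_prop

lemma P_periodic : Function.Periodic P (2 * Real.pi) := by
  intro x
  unfold P pp
  rw [Real.sin_add_two_pi]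
  rw [show x + 2 * Real.pi - Real.sin x / 4 = (x - Real.sin x / 4) + 2 * Real.pi by ring,
    Real.cos_add_two_pi]

lemma P_ge (x : ℝ) : Real.cos x + (3 / 32) * Real.sin x ^ 2 ≤ P x := by
  unfold P pp
  rw [Real.cos_sub]
  set s := Real.sin x with hs
  have hs1 : |s| ≤ 1 := Real.abs_sin_le_one x
  have hc1 : |Real.cos x| ≤ 1 := Real.abs_cos_le_one x
  -- first term
  have h1 : 1 - (s / 4) ^ 2 / 2 ≤ Real.cos (s / 4) := Real.one_sub_sq_div_two_le_cos
  have h2 : Real.cos (s / 4) ≤ 1 := Real.cos_le_one _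
  have h3 : Real.cos x - (s / 4) ^ 2 / 2 ≤ Real.cos x * Real.cos (s / 4) := by
    have h4 : |Real.cos x * (1 - Real.cos (s / 4))| ≤ (s / 4) ^ 2 / 2 := by
      rw [abs_mul, abs_of_nonneg (show 0 ≤ 1 - Real.cos (s / 4) by linarith)]
      calc |Real.cos x| * (1 - Real.cos (s / 4)) ≤ 1 * (1 - Real.cos (s / 4)) :=
            mul_le_mul_of_nonneg_right hc1 (by linarith)
        _ ≤ (s / 4) ^ 2 / 2 := by linarith
    have h5 := (abs_le.mp h4).2
    nlinarith
  -- second term
  have hpi : Real.pi ≤ 4 := Real.pi_le_four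
  have hpi0 : 0 < Real.pi := Real.pi_pos
  have h6 : s ^ 2 / 8 ≤ s * Real.sin (s / 4) := by
    have key : ∀ r : ℝ, 0 ≤ r → r ≤ 1 → r / 8 ≤ Real.sin (r / 4) := by
      intro r hr0 hr1
      have h7 := Real.mul_le_sin (x := r / 4) (by positivity) (by
        have := Real.pi_gt_three
        linarith)
      have h8 : (1 : ℝ) / 2 ≤ 2 / Real.pi := by
        rw [div_le_div_iff₀ (by norm_num) hpi0]
        linarith
      calc r / 8 = 1 / 2 * (r / 4) := by ring
        _ ≤ 2 / Real.pi * (r / 4) := mul_le_mul_of_nonneg_right h8 (by positivity)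
        _ ≤ _ := h7
    rcases le_total 0 s with h | h
    · have := key s h (le_of_abs_le hs1)
      nlinarith
    · have := key (-s) (by linarith) (by linarith [(abs_le.mp hs1).1])
      rw [neg_div, neg_div, Real.sin_neg] at this
      nlinarith
  nlinarith

/-- The mean of `P`. -/
noncomputable def m : ℝ := (∫ x in (0 : ℝ)..(2 * Real.pi), P x) / (2 * Real.pi)

lemma m_pos : 0 < m := by
  have h1 : ∫ x in (0 : ℝ)..(2 * Real.pi), (Real.cos x + (3 / 32) * Real.sin x ^ 2) ≤
      ∫ x in (0 : ℝ)..(2 * Real.pi), P x := by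
    apply intervalIntegral.integral_mono_on (by positivity)
    · exact Continuous.intervalIntegrable (by fun_prop) _ _
    · exact P_cont.intervalIntegrable _ _
    · intro x _
      exact P_ge x
  have h2 : ∫ x in (0 : ℝ)..(2 * Real.pi), (Real.cos x + (3 / 32) * Real.sin x ^ 2) =
      3 / 32 * Real.pi := by
    rw [intervalIntegral.integral_add (Continuous.intervalIntegrable (by fun_prop) _ _)
      (Continuous.intervalIntegrable (by fun_prop) _ _), integral_cos,
      intervalIntegral.integral_const_mul, integral_sin_sq]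
    simp
  unfold m
  rw [h2] at h1
  apply div_pos _ (by positivity)
  have : 0 < 3 / 32 * Real.pi := by positivity
  linarith

/-- The primitive of `P - m`. -/
noncomputable def Hp (x : ℝ) : ℝ := ∫ t in (0 : ℝ)..x, (P t - m)

lemma Pm_cont : Continuous (fun t => P t - m) := P_cont.sub continuous_const

lemma Hp_deriv (x : ℝ) : HasDerivAt Hp (P x - m) x :=
  intervalIntegral.integral_hasDerivAt_right (Pm_cont.intervalIntegrable _ _)
    (Pm_cont.stronglyMeasurableAtFilter _ _) Pm_cont.continuousAt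

lemma Hp_cont : Continuous Hp := continuous_iff_continuousAt.mpr (fun x => (Hp_deriv x).continuousAt)

lemma Hp_periodic : Function.Periodic Hp (2 * Real.pi) := by
  intro x
  unfold Hp
  have h1 : ∫ t in (0 : ℝ)..(x + 2 * Real.pi), (P t - m) =
      (∫ t in (0 : ℝ)..x, (P t - m)) + ∫ t in x..(x + 2 * Real.pi), (P t - m) :=
    (intervalIntegral.integral_add_adjacent_intervals (Pm_cont.intervalIntegrable _ _)
      (Pm_cont.intervalIntegrable _ _)).symm
  rw [h1]
  have hper : Function.Periodic (fun t => P t - m) (2 * Real.pi) := by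
    intro t
    simp only
    rw [P_periodic t]
  rw [hper.intervalIntegral_add_eq x 0, zero_add]
  have hpi := Real.pi_pos
  have h3 : ∫ x in (0 : ℝ)..(2 * Real.pi), (P x - m) = 0 := by
    rw [intervalIntegral.integral_sub (P_cont.intervalIntegrable _ _)
      (continuous_const.intervalIntegrable _ _)]
    have : ∫ x in (0 : ℝ)..(2 * Real.pi), P x = 2 * Real.pi * m := by
      unfold m
      field_simp
    rw [this, intervalIntegral.integral_const]
    simp
  rw [h3, add_zero]

lemma Hp_bdd : ∃ C, ∀ x, |Hp x| ≤ C := by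
  have h := Hp_periodic.isBounded_of_continuous (by positivity) Hp_cont
  obtain ⟨C, hC⟩ := h.exists_norm_le
  exact ⟨C, fun x => by simpa using hC (Hp x) (Set.mem_range_self x)⟩

/-- Averages of the distorted cosine along lacunary lines tend to `m`. -/
lemma ae_avg_P (α ω : ℕ → ℝ) (c C : ℝ) (hc : 0 < c)
    (J : ℕ) (hω : ∀ j, J ≤ j → c * 4 ^ j ≤ |ω j|) (hω2 : ∀ j, |ω j| ≤ C * 4 ^ j) :
    ∀ᵐ t : ℝ, Tendsto (fun N : ℕ => (∑ j ∈ Finset.range N, P (α j + ω j * t)) / N) atTop
      (𝓝 m) := by
  obtain ⟨B, hB⟩ := Hp_bdd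
  have hder : ∀ x, HasDerivAt (fun t => P t - m)
      (-Real.sin (pp x) * (1 - Real.cos x / 4)) x := by
    intro x
    have h1 : HasDerivAt pp (1 - Real.cos x / 4) x :=
      (hasDerivAt_id x).sub ((Real.hasDerivAt_sin x).div_const 4)
    exact (h1.cos).sub_const m
  have hm1 : |m| ≤ 1 := by
    unfold m
    rw [abs_div, div_le_one (by positivity)]
    have h1 : ‖∫ x in (0 : ℝ)..(2 * Real.pi), P x‖ ≤ 1 * |2 * Real.pi - 0| := by
      apply intervalIntegral.norm_integral_le_of_norm_le_const
      intro t _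
      exact Real.abs_cos_le_one _
    simpa using h1
  set M : ℝ := max 2 B with hM
  have hM2 : (2 : ℝ) ≤ M := le_max_left _ _
  have h := lln (fun t => P t - m) (fun x => -Real.sin (pp x) * (1 - Real.cos x / 4)) Hp M
    hder Hp_deriv (by unfold pp; fun_prop) ?_ ?_ ?_ α ω c C hc J hω hω2
  · filter_upwards [h] with t ht
    have h2 := ht.add_const m
    rw [zero_add] at h2
    refine h2.congr' ?_
    filter_upwards [eventually_ge_atTop 1] with N hN
    have hN' : (0 : ℝ) < N := by exact_mod_cast hN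
    rw [Finset.sum_sub_distrib, Finset.sum_const, Finset.card_range, nsmul_eq_mul, sub_div,
      mul_div_assoc, mul_comm (N : ℝ), div_mul_cancel₀ _ hN'.ne']
    ring
  · intro x
    have h1 : |P x| ≤ 1 := Real.abs_cos_le_one _
    calc |P x - m| ≤ |P x| + |m| := abs_sub _ _
      _ ≤ M := by linarith
  · intro x
    rw [abs_mul, abs_neg]
    have h1 := Real.abs_sin_le_one (pp x)
    have h2 := Real.abs_cos_le_one x
    have h3 : |1 - Real.cos x / 4| ≤ 2 := by
      rw [abs_le]
      have := abs_le.mp h2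
      constructor <;> linarith
    calc |Real.sin (pp x)| * |1 - Real.cos x / 4| ≤ 1 * 2 :=
          mul_le_mul h1 h3 (abs_nonneg _) (by norm_num)
      _ ≤ M := by linarith
  · intro x
    exact (hB x).trans (le_max_right _ _)

/-- Averages of the cosine along lacunary lines tend to `0`. -/
lemma ae_avg_cos (α ω : ℕ → ℝ) (c C : ℝ) (hc : 0 < c)
    (J : ℕ) (hω : ∀ j, J ≤ j → c * 4 ^ j ≤ |ω j|) (hω2 : ∀ j, |ω j| ≤ C * 4 ^ j) :
    ∀ᵐ t : ℝ, Tendsto (fun N : ℕ => (∑ j ∈ Finset.range N, Real.cos (α j + ω j * t)) / N) atTop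
      (𝓝 0) :=
  lln Real.cos (fun x => -Real.sin x) Real.sin 1 Real.hasDerivAt_cos Real.hasDerivAt_sin
    (by fun_prop) Real.abs_cos_le_one (fun x => by rw [abs_neg]; exact Real.abs_sin_le_one x)
    Real.abs_sin_le_one α ω c C hc J hω hω2

end Pool.Agent.Helper176.LacMean
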