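import Mathlib
import Pool.Agent.Helper176.LacMean

set_option autoImplicit false

open MeasureTheory Filter Topology Set

namespace Pool.Agent.Helper176.AronC0

open Pool.Agent.Helper176.LacMean

/-- The space `c₀`. -/
abbrev X := ZeroAtInftyContinuousMap ℕ ℝ

lemma abs_apply_le (y : X) (n : ℕ) : |y n| ≤ ‖y‖ := by
  rw [← ZeroAtInftyContinuousMap.norm_toBCF_eq_norm]
  exact BoundedContinuousFunction.norm_coe_le_norm y.toBCF n

lemma norm_le {y : X} {C : ℝ} (hC : 0 ≤ C) (h : ∀ n, |y n| ≤ C) : ‖y‖ ≤ C := by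
  rw [← ZeroAtInftyContinuousMap.norm_toBCF_eq_norm]
  exact (BoundedContinuousFunction.norm_le hC).mpr h

lemma tendsto_zero (y : X) : Tendsto (fun n => y n) atTop (𝓝 0) := by
  have := y.zero_at_infty'
  rwa [cocompact_eq_cofinite, Nat.cofinite_eq_atTop] at this

/-- Constructor of elements of `c₀`. -/
def mk (f : ℕ → ℝ) (hf : Tendsto f atTop (𝓝 0)) : X where
  toFun := f
  continuous_toFun := continuous_of_discreteTopology
  zero_at_infty' := by rwa [cocompact_eq_cofinite, Nat.cofinite_eq_atTop]

@[simp] lemma mk_apply (f : ℕ → ℝ) (hf : Tendsto f atTop (𝓝 0)) (n : ℕ) : mk f hf n = f n := rfl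

/-- Unit vectors. -/
noncomputable def e (n : ℕ) : X := mk (Pi.single n 1) (by
  apply tendsto_const_nhds.congr'
  filter_upwards [eventually_gt_atTop n] with k hk
  rw [Pi.single_eq_of_ne hk.ne'])

lemma e_apply (n k : ℕ) : e n k = if k = n then 1 else 0 := by
  simp [e, Pi.single_apply]

lemma sum_smul_e_apply (s : Finset ℕ) (c : ℕ → ℝ) (k : ℕ) :
    (∑ n ∈ s, c n • e n) k = if k ∈ s then c k else 0 := by
  induction s using Finset.induction_on with
  | empty => simp
  | insert a s ha ih =>
    rw [Finset.sum_insert ha, ZeroAtInftyContinuousMap.add_apply, ih,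
      ZeroAtInftyContinuousMap.smul_apply, e_apply]
    by_cases hk : k = a
    · subst hk
      simp [ha]
    · simp [hk]

lemma dense_span_e : Dense ((Submodule.span ℝ (Set.range e) : Set X)) := by
  rw [Metric.dense_iff]
  intro y r hr
  have h := tendsto_zero y
  rw [Metric.tendsto_atTop] at h
  obtain ⟨N, hN⟩ := h (r / 2) (by positivity)
  refine ⟨∑ n ∈ Finset.range N, y n • e n, ?_, ?_⟩
  · rw [Metric.mem_ball, dist_comm, dist_eq_norm]
    refine lt_of_le_of_lt (norm_le (C := r / 2) (by positivity) ?_) (by linarith)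
    intro k
    rw [ZeroAtInftyContinuousMap.sub_apply, sum_smul_e_apply]
    by_cases hk : k ∈ Finset.range N
    · simp only [hk, if_true, sub_self, abs_zero]
      positivity
    · simp only [hk, if_false, sub_zero]
      have := hN k (by simpa using hk)
      rw [Real.dist_eq, sub_zero] at this
      exact this.le
  · refine Submodule.sum_mem _ (fun n _ => Submodule.smul_mem _ _ ?_)
    exact Submodule.subset_span ⟨n, rfl⟩

instance : TopologicalSpace.SeparableSpace X := by
  have h1 : TopologicalSpace.IsSeparable ((Submodule.span ℝ (Set.range e) : Set X)) :=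
    TopologicalSpace.IsSeparable.span (Set.countable_range e).isSeparable
  have h2 := h1.closure
  rw [dense_span_e.closure_eq] at h2
  exact TopologicalSpace.isSeparable_univ_iff.mp h2

lemma linInd_e : LinearIndependent ℝ e := by
  rw [linearIndependent_iff']
  intro s c hc i hi
  have := congrArg (fun y : X => y i) hc
  rw [sum_smul_e_apply] at this
  simpa [hi] using this

lemma not_finiteDimensional : ¬ FiniteDimensional ℝ X := by
  intro h
  have := linInd_e.finite
  exact not_finite ℕ

/-- Evaluation at a coordinate is continuous. -/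
lemma continuous_eval (n : ℕ) : Continuous (fun y : X => y n) := by
  have : LipschitzWith 1 (fun y : X => y n) := by
    apply LipschitzWith.of_dist_le_mul
    intro y z
    rw [Real.dist_eq, NNReal.coe_one, one_mul, dist_eq_norm]
    exact abs_apply_le (y - z) n
  exact this.continuous

/-- The phases. -/
noncomputable def theta (j : ℕ) (y : X) : ℝ := 4 ^ j * (y 0 + y (j + 1))

lemma continuous_theta (j : ℕ) : Continuous (theta j) := by
  unfold theta
  exact continuous_const.mul ((continuous_eval 0).add (continuous_eval (j + 1)))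

/-- The sequence defining the perturbation. -/
noncomputable def pertFun (y : X) : ℕ → ℝ
  | 0 => 0
  | j + 1 => -(Real.sin (theta j y) / 4) / 4 ^ j

lemma pertFun_tendsto (y : X) : Tendsto (pertFun y) atTop (𝓝 0) := by
  rw [← tendsto_add_atTop_iff_nat 1]
  have h1 : Tendsto (fun j : ℕ => (1 / 4 : ℝ) ^ j) atTop (𝓝 0) :=
    tendsto_pow_atTop_nhds_zero_of_lt_one (by norm_num) (by norm_num)
  refine squeeze_zero_norm ?_ h1
  intro j
  simp only [pertFun]
  rw [Real.norm_eq_abs, abs_div, abs_neg, abs_div, abs_of_pos (show (0 : ℝ) < 4 ^ j by positivity),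
    one_div, inv_pow]
  have := Real.abs_sin_le_one (theta j y)
  rw [div_le_iff₀ (by positivity), inv_mul_cancel₀ (by positivity), abs_of_pos (by norm_num : (0:ℝ) < 4)]
  linarith

/-- The perturbation. -/
noncomputable def pert (y : X) : X := mk (pertFun y) (pertFun_tendsto y)

lemma pert_lip (y z : X) : ‖pert y - pert z‖ ≤ 1 / 2 * ‖y - z‖ := by
  apply norm_le (by positivity)
  intro n
  rw [ZeroAtInftyContinuousMap.sub_apply]
  cases n with
  | zero =>
    simp only [pert, mk_apply, pertFun, sub_self, abs_zero]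
    positivity
  | succ j =>
    simp only [pert, mk_apply, pertFun]
    have h4 : (0 : ℝ) < 4 ^ j := by positivity
    have h1 : |Real.sin (theta j y) - Real.sin (theta j z)| ≤ |theta j y - theta j z| := by
      have := Real.lipschitzWith_sin.dist_le_mul (theta j y) (theta j z)
      simpa [Real.dist_eq] using this
    have h2 : |theta j y - theta j z| ≤ 4 ^ j * (2 * ‖y - z‖) := by
      have h3 : theta j y - theta j z = 4 ^ j * ((y - z) 0 + (y - z) (j + 1)) := by
        simp only [theta, ZeroAtInftyContinuousMap.sub_apply]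
        ring
      rw [h3, abs_mul, abs_of_pos h4]
      apply mul_le_mul_of_nonneg_left _ h4.le
      calc |(y - z) 0 + (y - z) (j + 1)| ≤ |(y - z) 0| + |(y - z) (j + 1)| := abs_add_le _ _
        _ ≤ 2 * ‖y - z‖ := by
          have := abs_apply_le (y - z) 0
          have := abs_apply_le (y - z) (j + 1)
          linarith
    have h5 : -(Real.sin (theta j y) / 4) / 4 ^ j - -(Real.sin (theta j z) / 4) / 4 ^ j =
        -((Real.sin (theta j y) - Real.sin (theta j z)) / (4 * 4 ^ j)) := by
      field_simp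
      ring
    rw [h5, abs_neg, abs_div, abs_of_pos (show (0 : ℝ) < 4 * 4 ^ j by positivity),
      div_le_iff₀ (by positivity)]
    calc |Real.sin (theta j y) - Real.sin (theta j z)| ≤ 4 ^ j * (2 * ‖y - z‖) := h1.trans h2
      _ = 1 / 2 * ‖y - z‖ * (4 * 4 ^ j) := by ring

/-- The Lipschitz map. -/
noncomputable def S (y : X) : X := y + pert y

lemma S_zero (y : X) : S y 0 = y 0 := by
  simp [S, pert, pertFun]

lemma theta_S (j : ℕ) (y : X) : theta j (S y) = pp (theta j y) := by
  have h1 : S y (j + 1) = y (j + 1) + -(Real.sin (theta j y) / 4) / 4 ^ j := rfl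
  have h4 : (4 : ℝ) ^ j ≠ 0 := by positivity
  rw [theta, S_zero, h1]
  unfold pp
  rw [theta]
  field_simp
  ring

lemma approx : ApproximatesLinearOn S ((ContinuousLinearEquiv.refl ℝ X : X ≃L[ℝ] X) : X →L[ℝ] X)
    univ (1 / 2) := by
  intro y _ z _
  have h1 : S y - S z - ((ContinuousLinearEquiv.refl ℝ X : X ≃L[ℝ] X) : X →L[ℝ] X) (y - z) =
      pert y - pert z := by
    simp only [S, ContinuousLinearEquiv.coe_coe, ContinuousLinearEquiv.refl_apply]
    abel
  rw [h1]
  simpa using pert_lip y z

lemma hc : Subsingleton X ∨ (1 / 2 : NNReal) <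
    ‖(((ContinuousLinearEquiv.refl ℝ X).symm : X ≃L[ℝ] X) : X →L[ℝ] X)‖₊⁻¹ := by
  right
  have h1 : ‖(((ContinuousLinearEquiv.refl ℝ X).symm : X ≃L[ℝ] X) : X →L[ℝ] X)‖₊ ≤ 1 := by
    rw [← NNReal.coe_le_coe, coe_nnnorm]
    exact ContinuousLinearMap.norm_id_le
  have h0 : ‖(((ContinuousLinearEquiv.refl ℝ X).symm : X ≃L[ℝ] X) : X →L[ℝ] X)‖₊ ≠ 0 := by
    intro h'
    have h : ‖(((ContinuousLinearEquiv.refl ℝ X).symm : X ≃L[ℝ] X) : X →L[ℝ] X)‖ = 0 := by
      have := congrArg NNReal.toReal h'
      simpa using this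
    have h2 := (((ContinuousLinearEquiv.refl ℝ X).symm : X ≃L[ℝ] X) : X →L[ℝ] X).le_opNorm (e 0)
    rw [h, zero_mul] at h2
    have h3 := abs_apply_le (e 0) 0
    rw [e_apply] at h3
    simp only [if_true, abs_one] at h3
    have h4 : (1 : ℝ) ≤ 0 := h3.trans h2
    norm_num at h4
  rw [lt_inv_comm₀ (by norm_num) (pos_iff_ne_zero.mpr h0)]
  refine lt_of_le_of_lt h1 ?_
  norm_num

/-- The Lipschitz equivalence. -/
noncomputable def f : X ≃ₜ X := approx.toHomeomorph S hc

lemma f_apply (y : X) : f y = S y := rfl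

lemma f_lip : LipschitzWith (1 + 1 / 2) f := by
  apply LipschitzWith.of_dist_le_mul
  intro y z
  rw [f_apply, f_apply, dist_eq_norm, dist_eq_norm]
  have h1 : S y - S z = (y - z) + (pert y - pert z) := by
    simp only [S]; abel
  rw [h1]
  calc ‖(y - z) + (pert y - pert z)‖ ≤ ‖y - z‖ + ‖pert y - pert z‖ := norm_add_le _ _
    _ ≤ ‖y - z‖ + 1 / 2 * ‖y - z‖ := by gcongr; exact pert_lip y z
    _ = _ := by push_cast; ring

lemma f_anti (y z : X) : ‖y - z‖ ≤ 2 * ‖S y - S z‖ := by
  have h1 : y - z = (S y - S z) - (pert y - pert z) := by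
    simp only [S]; abel
  have h2 : ‖y - z‖ ≤ ‖S y - S z‖ + ‖pert y - pert z‖ := by
    calc ‖y - z‖ = ‖(S y - S z) - (pert y - pert z)‖ := by rw [← h1]
      _ ≤ _ := norm_sub_le _ _
  have h3 := pert_lip y z
  linarith

lemma f_symm_lip : LipschitzWith 2 f.symm := by
  apply LipschitzWith.of_dist_le_mul
  intro y z
  have h := f_anti (f.symm y) (f.symm z)
  rw [← f_apply, ← f_apply, f.apply_symm_apply, f.apply_symm_apply] at h
  simpa [dist_eq_norm] using h

/-- Averages of the cosines of the phases. -/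
noncomputable def avg (N : ℕ) (y : X) : ℝ := (∑ j ∈ Finset.range N, Real.cos (theta j y)) / N

lemma continuous_avg (N : ℕ) : Continuous (avg N) := by
  unfold avg
  exact (continuous_finsetSum _ (fun j _ => Real.continuous_cos.comp (continuous_theta j))).div_const _

/-- The set where the averages converge to zero. -/
def Z : Set X := {y | Tendsto (fun N => avg N y) atTop (𝓝 0)}

/-- The null set. -/
def A : Set X := {y | S y ∈ Z}

lemma image_A : (f.toEquiv '' A) = Z := by
  ext z
  constructor
  · rintro ⟨y, hy, rfl⟩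
    exact hy
  · intro hz
    refine ⟨f.symm z, ?_, f.apply_symm_apply z⟩
    change S (f.symm z) ∈ Z
    rw [← f_apply, f.apply_symm_apply]
    exact hz

lemma theta_line (j : ℕ) (y v : X) (t : ℝ) :
    theta j (y + t • v) = theta j y + theta j v * t := by
  simp only [theta, ZeroAtInftyContinuousMap.add_apply, ZeroAtInftyContinuousMap.smul_apply,
    smul_eq_mul]
  ring

lemma theta_bounds (v : X) (hv : v 0 ≠ 0) :
    ∃ c : ℝ, 0 < c ∧ ∃ C : ℝ, ∃ J : ℕ, (∀ j, J ≤ j → c * 4 ^ j ≤ |theta j v|) ∧
      (∀ j, |theta j v| ≤ C * 4 ^ j) := by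
  have hv' : 0 < |v 0| := abs_pos.mpr hv
  have h := tendsto_zero v
  rw [Metric.tendsto_atTop] at h
  obtain ⟨N, hN⟩ := h (|v 0| / 2) (by positivity)
  refine ⟨|v 0| / 2, by positivity, 2 * ‖v‖, N, ?_, ?_⟩
  · intro j hj
    have h1 := hN (j + 1) (by omega)
    rw [Real.dist_eq, sub_zero] at h1
    have h2 : |v 0| / 2 ≤ |v 0 + v (j + 1)| := by
      have h3 : |v 0| ≤ |v 0 + v (j + 1)| + |v (j + 1)| := by
        calc |v 0| = |(v 0 + v (j + 1)) - v (j + 1)| := by ring_nf
          _ ≤ _ := abs_sub _ _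
      linarith
    rw [theta, abs_mul, abs_of_pos (show (0 : ℝ) < 4 ^ j by positivity), mul_comm]
    exact mul_le_mul_of_nonneg_left h2 (by positivity)
  · intro j
    rw [theta, abs_mul, abs_of_pos (show (0 : ℝ) < 4 ^ j by positivity), mul_comm]
    apply mul_le_mul_of_nonneg_right _ (by positivity)
    calc |v 0 + v (j + 1)| ≤ |v 0| + |v (j + 1)| := abs_add_le _ _
      _ ≤ 2 * ‖v‖ := by
        have := abs_apply_le v 0
        have := abs_apply_le v (j + 1)
        linarith

lemma A_line (y v : X) (hv : v 0 ≠ 0) : volume {t : ℝ | y + t • v ∈ A} = 0 := by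
  obtain ⟨c, hc0, C, J, h1, h2⟩ := theta_bounds v hv
  have h := ae_avg_P (fun j => theta j y) (fun j => theta j v) c C hc0 J h1 h2
  rw [ae_iff] at h
  refine measure_mono_null ?_ h
  intro t ht h3
  have h4 : Tendsto (fun N => avg N (S (y + t • v))) atTop (𝓝 0) := ht
  have h5 : (fun N => avg N (S (y + t • v))) = fun N : ℕ => (∑ j ∈ Finset.range N,
      P ((fun j => theta j y) j + (fun j => theta j v) j * t)) / N := by
    ext N
    unfold avg
    congr 1
    apply Finset.sum_congr rfl
    intro j _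
    rw [theta_S, theta_line]
    rfl
  rw [h5] at h4
  exact m_pos.ne' (tendsto_nhds_unique h3 h4)

lemma Z_line (y v : X) (hv : v 0 ≠ 0) : volume {t : ℝ | y + t • v ∈ Zᶜ} = 0 := by
  obtain ⟨c, hc0, C, J, h1, h2⟩ := theta_bounds v hv
  have h := ae_avg_cos (fun j => theta j y) (fun j => theta j v) c C hc0 J h1 h2
  rw [ae_iff] at h
  refine measure_mono_null ?_ h
  intro t ht h3
  apply ht
  change Tendsto (fun N => avg N (y + t • v)) atTop (𝓝 0)
  refine h3.congr ?_
  intro N
  unfold avg
  congr 1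
  apply Finset.sum_congr rfl
  intro j _
  rw [theta_line]

lemma exists_ne (x : ℕ → X) (hx : Dense ((Submodule.span ℝ (Set.range x) : Set X))) :
    ∃ n, x n 0 ≠ 0 := by
  by_contra hcon
  push Not at hcon
  have h1 : (Submodule.span ℝ (Set.range x) : Set X) ⊆ {y : X | y 0 = 0} := by
    intro y hy
    refine Submodule.span_induction (p := fun y _ => y 0 = 0) ?_ ?_ ?_ ?_ hy
    · rintro _ ⟨n, rfl⟩
      exact hcon n
    · rfl
    · intro a b _ _ ha hb
      rw [ZeroAtInftyContinuousMap.add_apply, ha, hb, add_zero]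
    · intro r a _ ha
      rw [ZeroAtInftyContinuousMap.smul_apply, ha, smul_zero]
  have hcl : IsClosed {y : X | y 0 = 0} := isClosed_eq (continuous_eval 0) continuous_const
  have h2 : closure ((Submodule.span ℝ (Set.range x) : Set X)) ⊆ {y : X | y 0 = 0} :=
    closure_minimal h1 hcl
  rw [hx.closure_eq] at h2
  have h3 : e 0 ∈ {y : X | y 0 = 0} := h2 (mem_univ _)
  have h4 : e 0 0 = 0 := h3
  rw [e_apply] at h4
  simp at h4

end Pool.Agent.Helper176.AronC0
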