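import Mathlib

set_option autoImplicit false

open Set Filter Topology Finset

namespace Pool.Agent.Helper176

/-- Rademacher sign of a boolean. -/
def rad (b : Bool) : ℝ := if b then 1 else -1

lemma rad_sq (b : Bool) : rad b * rad b = 1 := by cases b <;> simp [rad]

lemma abs_rad (b : Bool) : |rad b| = 1 := by cases b <;> simp [rad]

lemma rad_not (b : Bool) : rad (!b) = - rad b := by cases b <;> simp [rad]

lemma sum_rad_self {n : ℕ} (i : Fin n) :
    ∑ ω : Fin n → Bool, rad (ω i) * rad (ω i) = 2 ^ n := by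
  simp [rad_sq]

lemma sum_rad_ne {n : ℕ} (i j : Fin n) (hij : i ≠ j) :
    ∑ ω : Fin n → Bool, rad (ω i) * rad (ω j) = 0 := by
  refine Finset.sum_involution (fun ω _ => Function.update ω i (!ω i)) ?_ ?_ ?_ ?_
  · intro ω _
    simp [Function.update_of_ne hij.symm, rad_not]
  · intro ω _ _ h
    have := congrFun h i
    simp at this
  · intro ω _
    exact Finset.mem_univ _
  · intro ω _
    simp

lemma sum_rad {n : ℕ} (i j : Fin n) :
    ∑ ω : Fin n → Bool, rad (ω i) * rad (ω j) = if i = j then 2 ^ n else 0 := by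
  split_ifs with h
  · subst h; exact sum_rad_self i
  · exact sum_rad_ne i j h

variable {K : Type*} [TopologicalSpace K] [CompactSpace K]

/-- truncation of a continuous function at level `N` -/
noncomputable def trunc (N : ℝ) (f : C(K, ℝ)) : C(K, ℝ) :=
  ⟨fun k => max (-N) (min N (f k)), by fun_prop⟩

lemma abs_trunc_le (N : ℝ) (hN : 0 ≤ N) (f : C(K, ℝ)) (k : K) : |trunc N f k| ≤ N := by
  simp only [trunc, ContinuousMap.coe_mk]
  rw [abs_le]
  exact ⟨le_max_left _ _, max_le (by linarith) (min_le_left _ _)⟩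

lemma abs_sub_trunc_le (N : ℝ) (hN : 0 < N) (f : C(K, ℝ)) (k : K) :
    |f k - trunc N f k| ≤ (f k) ^ 2 / (4 * N) := by
  simp only [trunc, ContinuousMap.coe_mk]
  rw [le_div_iff₀ (by positivity)]
  rcases le_total (f k) N with h | h
  · rw [min_eq_right h]
    rcases le_total (-N) (f k) with h' | h'
    · rw [max_eq_right h', sub_self, abs_zero, zero_mul]; positivity
    · rw [max_eq_left h', abs_of_nonpos (by linarith)]
      nlinarith [sq_nonneg (f k + 2 * N)]
  · rw [min_eq_left h, max_eq_right (by linarith), abs_of_nonneg (by linarith)]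
    nlinarith [sq_nonneg (f k - 2 * N)]

/-- Core estimate: `ℓ₂ⁿ` is not uniformly complemented in `C(K)`. -/
theorem core {n : ℕ} (u : Fin n → C(K, ℝ)) (ψ : Fin n → (C(K, ℝ) →L[ℝ] ℝ)) (A B : ℝ)
    (hA : 0 < A) (hB : 0 < B)
    (h1 : ∀ a : Fin n → ℝ, ‖∑ i, a i • u i‖ ≤ B * Real.sqrt (∑ i, a i ^ 2))
    (h2 : ∀ f : C(K, ℝ), Real.sqrt (∑ i, (ψ i f) ^ 2) ≤ A * ‖f‖)
    (h3 : ∀ i, ψ i (u i) = 1) :
    Real.sqrt n ≤ A ^ 2 * B ^ 2 := by
  -- pointwise square function bound
  have hpt : ∀ k : K, ∑ i, (u i k) ^ 2 ≤ B ^ 2 := by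
    intro k
    set s : ℝ := ∑ i, (u i k) ^ 2 with hs
    have hs0 : 0 ≤ s := Finset.sum_nonneg (fun i _ => sq_nonneg _)
    have h := h1 (fun i => u i k)
    have h' : s ≤ ‖∑ i, (u i k) • u i‖ := by
      have e : s = (∑ i, (u i k) • u i) k := by
        simp [hs, sq]
      rw [e]
      refine (le_abs_self _).trans ?_
      rw [← Real.norm_eq_abs]
      exact ContinuousMap.norm_coe_le_norm _ k
    have h'' : s ≤ B * Real.sqrt s := h'.trans h
    by_cases hs1 : s = 0
    · rw [hs1]; positivity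
    · have hsp : 0 < s := lt_of_le_of_ne hs0 (Ne.symm hs1)
      have hq : 0 < Real.sqrt s := Real.sqrt_pos.2 hsp
      have h4 : Real.sqrt s * Real.sqrt s = s := Real.mul_self_sqrt hs0
      have h5 : Real.sqrt s ≤ B := by
        by_contra hcon
        push Not at hcon
        nlinarith
      nlinarith
  -- the random functions
  set g : (Fin n → Bool) → C(K, ℝ) := fun ω => ∑ j, rad (ω j) • u j with hg
  have hcardpos : (0:ℝ) < 2 ^ n := by positivity
  have hEg : ∀ i, ∑ ω : Fin n → Bool, rad (ω i) • g ω = (2:ℝ) ^ n • u i := by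
    intro i
    simp only [hg, Finset.smul_sum, smul_smul]
    rw [Finset.sum_comm]
    have : ∀ j, ∑ ω : Fin n → Bool, (rad (ω i) * rad (ω j)) • u j
        = (if i = j then (2:ℝ) ^ n else 0) • u j := by
      intro j
      rw [← Finset.sum_smul, sum_rad]
    simp only [this]
    simp
  have hEg2 : ∀ k : K, ∑ ω : Fin n → Bool, (g ω k) ^ 2 = (2:ℝ) ^ n * ∑ j, (u j k) ^ 2 := by
    intro k
    have e : ∀ ω, (g ω k) ^ 2 = ∑ i, ∑ j, (rad (ω i) * rad (ω j)) * (u i k * u j k) := by
      intro ω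
      have : g ω k = ∑ j, rad (ω j) * u j k := by simp [hg]
      rw [this, sq, Finset.sum_mul_sum]
      refine Finset.sum_congr rfl (fun i _ => Finset.sum_congr rfl (fun j _ => by ring))
    simp only [e]
    rw [Finset.sum_comm]
    rw [Finset.mul_sum]
    refine Finset.sum_congr rfl (fun i _ => ?_)
    rw [Finset.sum_comm]
    have : ∀ j, ∑ ω : Fin n → Bool, (rad (ω i) * rad (ω j)) * (u i k * u j k)
        = (if i = j then (2:ℝ) ^ n else 0) * (u i k * u j k) := by
      intro j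
      rw [← Finset.sum_mul, sum_rad]
    simp only [this]
    simp [sq]
  set N : ℝ := A * B ^ 2 / 2 with hN
  have hNpos : 0 < N := by positivity
  set t : (Fin n → Bool) → C(K, ℝ) := fun ω => trunc N (g ω) with ht
  have htnorm : ∀ ω, ‖t ω‖ ≤ N := fun ω =>
    (ContinuousMap.norm_le _ hNpos.le).2 (fun k => abs_trunc_le N hNpos.le _ k)
  -- bound for the truncated part
  have hfirst : ∀ ω, ∑ i, rad (ω i) * ψ i (t ω) ≤ Real.sqrt n * (A * N) := by
    intro ω
    have hcs := Real.sum_mul_le_sqrt_mul_sqrt Finset.univ (fun i => rad (ω i)) (fun i => ψ i (t ω))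
    have hn : ∑ i : Fin n, rad (ω i) ^ 2 = n := by
      simp [sq, rad_sq]
    rw [hn] at hcs
    refine hcs.trans ?_
    refine mul_le_mul_of_nonneg_left ?_ (Real.sqrt_nonneg _)
    exact (h2 _).trans (mul_le_mul_of_nonneg_left (htnorm ω) hA.le)
  -- bound for each functional
  have hψ : ∀ i (f : C(K, ℝ)), |ψ i f| ≤ A * ‖f‖ := by
    intro i f
    refine le_trans ?_ (h2 f)
    rw [← Real.sqrt_sq_eq_abs]
    apply Real.sqrt_le_sqrt
    exact Finset.single_le_sum (f := fun i => (ψ i f) ^ 2) (fun j _ => sq_nonneg _) (Finset.mem_univ i)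
  have hsecond : ∀ i, ψ i (∑ ω : Fin n → Bool, rad (ω i) • (g ω - t ω))
      ≤ A * ((2:ℝ) ^ n * (B ^ 2 / (4 * N))) := by
    intro i
    refine (le_abs_self _).trans ((hψ i _).trans ?_)
    refine mul_le_mul_of_nonneg_left ?_ hA.le
    rw [ContinuousMap.norm_le _ (by positivity)]
    intro k
    have e : (∑ ω : Fin n → Bool, rad (ω i) • (g ω - t ω)) k
        = ∑ ω : Fin n → Bool, rad (ω i) * (g ω k - t ω k) := by
      simp
    rw [e, Real.norm_eq_abs]
    refine (Finset.abs_sum_le_sum_abs _ _).trans ?_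
    have : ∀ ω : Fin n → Bool, |rad (ω i) * (g ω k - t ω k)| ≤ (g ω k) ^ 2 / (4 * N) := by
      intro ω
      rw [abs_mul, abs_rad, one_mul]
      exact abs_sub_trunc_le N hNpos (g ω) k
    refine (Finset.sum_le_sum (fun ω _ => this ω)).trans ?_
    rw [← Finset.sum_div, hEg2 k, mul_div_assoc]
    refine mul_le_mul_of_nonneg_left ?_ hcardpos.le
    exact div_le_div_of_nonneg_right (hpt k) (by positivity)
  -- total
  have htotal : (2:ℝ) ^ n * n = ∑ ω : Fin n → Bool, ∑ i, rad (ω i) * ψ i (t ω)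
      + ∑ i, ψ i (∑ ω : Fin n → Bool, rad (ω i) • (g ω - t ω)) := by
    have e1 : ∀ i, ψ i (∑ ω : Fin n → Bool, rad (ω i) • (g ω - t ω))
        = (2:ℝ) ^ n - ∑ ω : Fin n → Bool, rad (ω i) * ψ i (t ω) := by
      intro i
      have : ∑ ω : Fin n → Bool, rad (ω i) • (g ω - t ω)
          = (2:ℝ) ^ n • u i - ∑ ω : Fin n → Bool, rad (ω i) • t ω := by
        rw [← hEg i, ← Finset.sum_sub_distrib]
        refine Finset.sum_congr rfl (fun ω _ => smul_sub _ _ _)
      rw [this, map_sub, map_smul, h3 i, map_sum]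
      simp
    simp only [e1, Finset.sum_sub_distrib]
    rw [Finset.sum_comm]
    simp [mul_comm]
  have hb1 : ∑ ω : Fin n → Bool, ∑ i, rad (ω i) * ψ i (t ω)
      ≤ (2:ℝ) ^ n * (Real.sqrt n * (A * N)) := by
    refine (Finset.sum_le_sum (fun ω _ => hfirst ω)).trans ?_
    simp
  have hb2 : ∑ i, ψ i (∑ ω : Fin n → Bool, rad (ω i) • (g ω - t ω))
      ≤ n * (A * ((2:ℝ) ^ n * (B ^ 2 / (4 * N)))) := by
    refine (Finset.sum_le_sum (fun i _ => hsecond i)).trans ?_
    simp
  have hmain : (n:ℝ) ≤ Real.sqrt n * (A * N) + n * (A * (B ^ 2 / (4 * N))) := by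
    have h := htotal.le.trans (add_le_add hb1 hb2)
    have h' : (2:ℝ) ^ n * n ≤ (2:ℝ) ^ n * (Real.sqrt n * (A * N) + n * (A * (B ^ 2 / (4 * N)))) := by
      refine h.trans (le_of_eq ?_); ring
    exact le_of_mul_le_mul_left h' hcardpos
  have hAB : A * (B ^ 2 / (4 * N)) = 1 / 2 := by
    rw [hN]; field_simp; ring
  rw [hAB] at hmain
  have hAN : A * N = A ^ 2 * B ^ 2 / 2 := by rw [hN]; ring
  rw [hAN] at hmain
  by_cases hn : n = 0
  · subst hn; simp; positivity
  · have hnp : (0:ℝ) < n := by exact_mod_cast Nat.pos_of_ne_zero hn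
    have hq : 0 < Real.sqrt n := Real.sqrt_pos.2 hnp
    have hqq : Real.sqrt n * Real.sqrt n = n := Real.mul_self_sqrt hnp.le
    by_contra hcon
    push Not at hcon
    nlinarith

end Pool.Agent.Helper176
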