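import Mathlib
import Pool.Agent.Helper176.BMcore

set_option autoImplicit false

open Set Filter Topology Finset

namespace Pool.Agent.Helper176

universe u v

lemma exists_submodule_finrank (X : Type u) [AddCommGroup X] [Module ℝ X]
    (hinf : ¬ FiniteDimensional ℝ X) (n : ℕ) :
    ∃ F : Submodule ℝ X, FiniteDimensional ℝ F ∧ Module.finrank ℝ F = n := by
  classical
  let b := Module.Basis.ofVectorSpace ℝ X
  have hI : Infinite (Module.Basis.ofVectorSpaceIndex ℝ X) := by
    by_contra hcon
    rw [not_infinite_iff_finite] at hcon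
    exact hinf (Module.Finite.of_basis b)
  obtain ⟨f⟩ : Nonempty (Fin n ↪ Module.Basis.ofVectorSpaceIndex ℝ X) :=
    ⟨(Fin.valEmbedding).trans (Infinite.natEmbedding _)⟩
  have hli : LinearIndependent ℝ (fun i : Fin n => b (f i)) :=
    b.linearIndependent.comp f f.injective
  refine ⟨Submodule.span ℝ (Set.range (fun i : Fin n => b (f i))), ?_, ?_⟩
  · exact FiniteDimensional.span_of_finite ℝ (Set.finite_range _)
  · rw [finrank_span_eq_card hli, Fintype.card_fin]

theorem exists_iso_prod (X : Type u) [NormedAddCommGroup X] [NormedSpace ℝ X] [CompleteSpace X]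
    (hinf : ¬ FiniteDimensional ℝ X)
    (E : Type v) [NormedAddCommGroup E] [NormedSpace ℝ E] [FiniteDimensional ℝ E] :
    ∃ V : Submodule ℝ X, IsClosed (V : Set X) ∧ Nonempty ((V × E) ≃L[ℝ] X) := by
  obtain ⟨F, hF, hrank⟩ := exists_submodule_finrank X hinf (Module.finrank ℝ E)
  have hcc : F.ClosedComplemented := Submodule.ClosedComplemented.of_finiteDimensional F
  obtain ⟨V, hV, hVF⟩ := hcc.exists_isClosed_isCompl
  refine ⟨V, hV, ⟨?_⟩⟩
  have hFc : IsClosed (F : Set X) := F.closed_of_finiteDimensional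
  have e1 : (F × V) ≃L[ℝ] X := Submodule.prodEquivOfClosedCompl F V hVF hFc hV
  have e2 : E ≃L[ℝ] F := ContinuousLinearEquiv.ofFinrankEq hrank.symm
  exact ((ContinuousLinearEquiv.prodComm ℝ V E).trans
    (e2.prodCongr (ContinuousLinearEquiv.refl ℝ V))).trans e1

end Pool.Agent.Helper176
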