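import Mathlib
import Pool.Agent.Helper176.BMcore
import Pool.Agent.Helper176.BMiso

set_option autoImplicit false

open Set Filter Topology Finset

namespace Pool.Agent.Helper176

universe u v w

/-- On an infinite compact Hausdorff space there are infinitely many dimensions. -/
lemma not_finiteDimensional_CK (K : Type u) [TopologicalSpace K] [CompactSpace K] [T2Space K]
    [Infinite K] : ¬ FiniteDimensional ℝ C(K, ℝ) := by
  classical
  intro hfin
  set d := Module.finrank ℝ C(K, ℝ) with hd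
  let p : Fin (d + 1) → K := fun i => Infinite.natEmbedding K (i : ℕ)
  have hp : Function.Injective p := fun i j h =>
    Fin.ext ((Infinite.natEmbedding K).injective h)
  have hex : ∀ i, ∃ h : C(K, ℝ), h (p i) = 1 ∧ ∀ j, j ≠ i → h (p j) = 0 := by
    intro i
    have hs : IsClosed (p '' {j | j ≠ i}) := (Set.toFinite _).isClosed
    have ht : IsClosed ({p i} : Set K) := isClosed_singleton
    have hdisj : Disjoint (p '' {j | j ≠ i}) ({p i} : Set K) := by
      rw [Set.disjoint_singleton_right]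
      rintro ⟨j, hj, hji⟩
      exact hj (hp hji)
    obtain ⟨f, hf0, hf1, -⟩ := exists_continuous_zero_one_of_isClosed hs ht hdisj
    exact ⟨f, hf1 rfl, fun j hj => hf0 ⟨j, hj, rfl⟩⟩
  choose h h1 h0 using hex
  let L : C(K, ℝ) →ₗ[ℝ] (Fin (d + 1) → ℝ) :=
    { toFun := fun f i => f (p i)
      map_add' := fun f g => rfl
      map_smul' := fun c f => rfl }
  have hsurj : Function.Surjective L := by
    intro a
    refine ⟨∑ i, a i • h i, ?_⟩
    ext j
    change (∑ i, a i • h i) (p j) = a j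
    rw [ContinuousMap.coe_sum, Finset.sum_apply, Finset.sum_eq_single j]
    · simp [h1]
    · intro i _ hij
      simp [h0 i j hij.symm]
    · intro hj; exact absurd (Finset.mem_univ j) hj
  have hle := LinearMap.finrank_le_finrank_of_surjective (f := L) hsurj
  rw [Module.finrank_fin_fun] at hle
  omega

/-- For every infinite compact Hausdorff `K` and every `M` there is a Banach space `Y` isomorphic
to `C(K)` all of whose isomorphisms onto `C(K)` have distortion at least `M`. -/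
theorem exists_far (K : Type u) [TopologicalSpace K] [CompactSpace K] [T2Space K]
    [Infinite K] (M : ℝ) :
    ∃ (Y : Type u) (_ : NormedAddCommGroup Y) (_ : NormedSpace ℝ Y) (_ : CompleteSpace Y),
      Nonempty (Y ≃L[ℝ] C(K, ℝ)) ∧
      ∀ T : Y ≃L[ℝ] C(K, ℝ),
        M ≤ ‖(T : Y →L[ℝ] C(K, ℝ))‖ * ‖(T.symm : C(K, ℝ) →L[ℝ] Y)‖ := by
  classical
  obtain ⟨n, hn⟩ := exists_nat_ge (M ^ 4 + 1)
  have hn1 : (1:ℝ) ≤ n := by
    have : 0 ≤ M ^ 4 := by positivity
    linarith
  have hnpos : 0 < n := by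
    rcases Nat.eq_zero_or_pos n with h | h
    · rw [h] at hn1; norm_num at hn1
    · exact h
  obtain ⟨V, hV, ⟨e⟩⟩ := exists_iso_prod C(K, ℝ) (not_finiteDimensional_CK K)
    (EuclideanSpace ℝ (Fin n))
  have hVc : CompleteSpace V := hV.completeSpace_coe
  refine ⟨V × EuclideanSpace ℝ (Fin n), inferInstance, inferInstance, inferInstance, ⟨e⟩, ?_⟩
  intro T
  by_contra hcon
  push Not at hcon
  set B : ℝ := ‖(T : (V × EuclideanSpace ℝ (Fin n)) →L[ℝ] C(K, ℝ))‖ with hB
  set A : ℝ := ‖(T.symm : C(K, ℝ) →L[ℝ] (V × EuclideanSpace ℝ (Fin n)))‖ with hA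
  -- basis vectors
  let b : Fin n → EuclideanSpace ℝ (Fin n) := fun i => EuclideanSpace.single i (1:ℝ)
  let u : Fin n → C(K, ℝ) := fun i => T ((0 : V), b i)
  let ψ : Fin n → (C(K, ℝ) →L[ℝ] ℝ) := fun i =>
    (EuclideanSpace.proj i : EuclideanSpace ℝ (Fin n) →L[ℝ] ℝ).comp
      ((ContinuousLinearMap.snd ℝ V (EuclideanSpace ℝ (Fin n))).comp
        (T.symm : C(K, ℝ) →L[ℝ] (V × EuclideanSpace ℝ (Fin n))))
  have hψ : ∀ i f, ψ i f = (T.symm f).2 i := fun i f => rfl
  have h3 : ∀ i, ψ i (u i) = 1 := by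
    intro i
    rw [hψ]
    simp [u, b]
  have h1 : ∀ a : Fin n → ℝ, ‖∑ i, a i • u i‖ ≤ B * Real.sqrt (∑ i, a i ^ 2) := by
    intro a
    have e1 : ∑ i, a i • u i = T ((0 : V), (WithLp.toLp 2 a : EuclideanSpace ℝ (Fin n))) := by
      have : ((0 : V), (WithLp.toLp 2 a : EuclideanSpace ℝ (Fin n))) = ∑ i, a i • ((0 : V), b i) := by
        refine Prod.ext ?_ ?_
        · simp [Prod.fst_sum]
        · rw [Prod.snd_sum]
          ext j
          simp [b, Finset.sum_apply, Pi.single_apply]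
      rw [this, map_sum]
      simp only [map_smul]
      rfl
    rw [e1]
    have e2 := (T : (V × EuclideanSpace ℝ (Fin n)) →L[ℝ] C(K, ℝ)).le_opNorm
      ((0 : V), (WithLp.toLp 2 a : EuclideanSpace ℝ (Fin n)))
    have e3 : ‖((0 : V), (WithLp.toLp 2 a : EuclideanSpace ℝ (Fin n)))‖
        = Real.sqrt (∑ i, a i ^ 2) := by
      rw [Prod.norm_def]
      simp [EuclideanSpace.norm_eq]
    rw [e3] at e2
    exact e2
  have h2 : ∀ f : C(K, ℝ), Real.sqrt (∑ i, (ψ i f) ^ 2) ≤ A * ‖f‖ := by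
    intro f
    have e1 : Real.sqrt (∑ i, (ψ i f) ^ 2) = ‖(T.symm f).2‖ := by
      rw [EuclideanSpace.norm_eq]
      simp [hψ]
    rw [e1]
    refine (norm_snd_le _).trans ?_
    exact (T.symm : C(K, ℝ) →L[ℝ] (V × EuclideanSpace ℝ (Fin n))).le_opNorm f
  -- positivity
  have hne : u ⟨0, hnpos⟩ ≠ 0 := by
    intro h0
    have := h3 ⟨0, hnpos⟩
    rw [h0, map_zero] at this
    exact zero_ne_one this
  have hApos : 0 < A := by
    by_contra hA0
    push Not at hA0
    have := h2 (u ⟨0, hnpos⟩)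
    have h5 : (0:ℝ) < Real.sqrt (∑ i, (ψ i (u ⟨0, hnpos⟩)) ^ 2) := by
      apply Real.sqrt_pos.2
      refine Finset.sum_pos' (fun i _ => sq_nonneg _) ⟨⟨0, hnpos⟩, Finset.mem_univ _, ?_⟩
      rw [h3]; norm_num
    nlinarith [norm_nonneg (u ⟨0, hnpos⟩)]
  have hBpos : 0 < B := by
    by_contra hB0
    push Not at hB0
    have := h1 (Pi.single ⟨0, hnpos⟩ 1)
    have h6 : ∑ i, (Pi.single ⟨0, hnpos⟩ (1:ℝ) : Fin n → ℝ) i • u i = u ⟨0, hnpos⟩ := by
      rw [Finset.sum_eq_single ⟨0, hnpos⟩]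
      · simp
      · intro j _ hj; simp [Pi.single_eq_of_ne hj]
      · intro hj; exact absurd (Finset.mem_univ _) hj
    rw [h6] at this
    have h7 : 0 < ‖u ⟨0, hnpos⟩‖ := norm_pos_iff.2 hne
    nlinarith [Real.sqrt_nonneg (∑ i, (Pi.single ⟨0, hnpos⟩ (1:ℝ) : Fin n → ℝ) i ^ 2)]
  have hcore := core u ψ A B hApos hBpos h1 h2 h3
  have hMpos : 0 < M := lt_trans (mul_pos hBpos hApos) hcon
  have h8 : (B * A) ^ 2 < M ^ 2 := by
    have := mul_pos hBpos hApos
    nlinarith
  have h9 : M ^ 2 ≤ Real.sqrt n := by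
    apply Real.le_sqrt_of_sq_le
    nlinarith
  nlinarith

end Pool.Agent.Helper176
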