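import Mathlib

set_option autoImplicit false

namespace Pool.Agent.Helper176.LJ

variable {L : Type*} [LinearOrder L]

/-- finite families of pairwise non-overlapping intervals -/
def IsPacking (I : Finset (L × L)) : Prop :=
  (∀ x ∈ I, x.1 ≤ x.2) ∧ ∀ x ∈ I, ∀ y ∈ I, x ≠ y → x.2 ≤ y.1 ∨ y.2 ≤ x.1

/-- the quadratic variation of `f` along `I` -/
def Q (I : Finset (L × L)) (f : L → ℝ) : ℝ := ∑ x ∈ I, (f x.2 - f x.1) ^ 2

/-- the quadratic variation of `f` on `S` is at most `M` -/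
def VB (f : L → ℝ) (S : Set L) (M : ℝ) : Prop :=
  ∀ I : Finset (L × L), IsPacking I → (∀ x ∈ I, x.1 ∈ S ∧ x.2 ∈ S) → Q I f ≤ M

omit [LinearOrder L] in
lemma Q_nonneg (I : Finset (L × L)) (f : L → ℝ) : 0 ≤ Q I f :=
  Finset.sum_nonneg fun _ _ => sq_nonneg _

lemma IsPacking.subset {I J : Finset (L × L)} (h : IsPacking I) (hJ : J ⊆ I) : IsPacking J :=
  ⟨fun x hx => h.1 x (hJ hx), fun x hx y hy hxy => h.2 x (hJ hx) y (hJ hy) hxy⟩

lemma isPacking_empty : IsPacking (∅ : Finset (L × L)) := ⟨by simp, by simp⟩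

lemma isPacking_singleton {p q : L} (h : p ≤ q) : IsPacking ({(p, q)} : Finset (L × L)) := by
  refine ⟨by simpa using h, ?_⟩
  intro x hx y hy hxy
  rw [Finset.mem_singleton] at hx hy
  exact absurd (hx.trans hy.symm) hxy

lemma VB.nonneg {f : L → ℝ} {S : Set L} {M : ℝ} (h : VB f S M) : 0 ≤ M := by
  have := h ∅ isPacking_empty (by simp)
  simpa [Q] using this

lemma VB.mono_set {f : L → ℝ} {S T : Set L} {M : ℝ} (h : VB f T M) (hST : S ⊆ T) : VB f S M :=
  fun I hI hS => h I hI fun x hx => ⟨hST (hS x hx).1, hST (hS x hx).2⟩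

lemma VB.mono {f : L → ℝ} {S : Set L} {M M' : ℝ} (h : VB f S M) (hM : M ≤ M') : VB f S M' :=
  fun I hI hS => (h I hI hS).trans hM

lemma VB.congr {f g : L → ℝ} {S : Set L} {M : ℝ} (h : VB f S M) (hfg : ∀ p ∈ S, f p = g p) :
    VB g S M := by
  intro I hI hS
  have : Q I g = Q I f := by
    unfold Q
    refine Finset.sum_congr rfl fun x hx => ?_
    rw [hfg _ (hS x hx).1, hfg _ (hS x hx).2]
  rw [this]
  exact h I hI hS

lemma VB.sq_le {f : L → ℝ} {S : Set L} {M : ℝ} (h : VB f S M) {p q : L} (hp : p ∈ S)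
    (hq : q ∈ S) : (f q - f p) ^ 2 ≤ M := by
  rcases le_total p q with hpq | hpq
  · have := h {(p, q)} (isPacking_singleton hpq) (by simpa using ⟨hp, hq⟩)
    simpa [Q] using this
  · have := h {(q, p)} (isPacking_singleton hpq) (by simpa using ⟨hq, hp⟩)
    have h2 : (f q - f p) ^ 2 = (f p - f q) ^ 2 := by ring
    rw [h2]
    simpa [Q] using this

lemma VB.add {f g : L → ℝ} {S : Set L} {M N : ℝ} (hf : VB f S M) (hg : VB g S N) :
    VB (f + g) S (2 * M + 2 * N) := by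
  intro I hI hS
  have h1 := hf I hI hS
  have h2 := hg I hI hS
  have : Q I (f + g) ≤ 2 * Q I f + 2 * Q I g := by
    unfold Q
    rw [Finset.mul_sum, Finset.mul_sum, ← Finset.sum_add_distrib]
    refine Finset.sum_le_sum fun x _ => ?_
    simp only [Pi.add_apply]
    nlinarith [sq_nonneg ((f x.2 - f x.1) - (g x.2 - g x.1))]
  linarith

omit [LinearOrder L] in
lemma Q_smul (I : Finset (L × L)) (c : ℝ) (f : L → ℝ) : Q I (c • f) = c ^ 2 * Q I f := by
  unfold Q
  rw [Finset.mul_sum]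
  refine Finset.sum_congr rfl fun x _ => ?_
  simp only [Pi.smul_apply, smul_eq_mul]
  ring

lemma VB.smul {f : L → ℝ} {S : Set L} {M : ℝ} (h : VB f S M) (c : ℝ) :
    VB (c • f) S (c ^ 2 * M) := by
  intro I hI hS
  rw [Q_smul]
  exact mul_le_mul_of_nonneg_left (h I hI hS) (sq_nonneg c)

lemma VB.neg {f : L → ℝ} {S : Set L} {M : ℝ} (h : VB f S M) : VB (-f) S M := by
  have := h.smul (-1)
  simpa using this

lemma VB.sub {f g : L → ℝ} {S : Set L} {M N : ℝ} (hf : VB f S M) (hg : VB g S N) :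
    VB (f - g) S (2 * M + 2 * N) := by
  rw [sub_eq_add_neg]
  exact hf.add hg.neg

open Classical in
lemma VB.union {h : L → ℝ} {S T : Set L} {M N K : ℝ} (hST : ∀ p ∈ S, ∀ q ∈ T, p < q)
    (hS : VB h S M) (hT : VB h T N) (hK : ∀ p ∈ S, ∀ q ∈ T, (h q - h p) ^ 2 ≤ K)
    (hK0 : 0 ≤ K) : VB h (S ∪ T) (M + N + K) := by
  intro I hI hIS
  have e1 : Q I h = Q (I.filter fun x => x.2 ∈ S) h + Q (I.filter fun x => ¬ x.2 ∈ S) h := by
    unfold Q
    rw [Finset.sum_filter_add_sum_filter_not]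
  have e2 : Q (I.filter fun x => ¬ x.2 ∈ S) h =
      Q ((I.filter fun x => ¬ x.2 ∈ S).filter fun x => x.1 ∈ T) h +
      Q ((I.filter fun x => ¬ x.2 ∈ S).filter fun x => ¬ x.1 ∈ T) h := by
    unfold Q
    rw [Finset.sum_filter_add_sum_filter_not]
  have b1 : Q (I.filter fun x => x.2 ∈ S) h ≤ M := by
    refine hS _ (hI.subset (Finset.filter_subset _ _)) ?_
    intro x hx
    rw [Finset.mem_filter] at hx
    refine ⟨?_, hx.2⟩
    rcases (hIS x hx.1).1 with h1 | h1
    · exact h1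
    · exact absurd (hI.1 x hx.1) (not_le.2 (hST _ hx.2 _ h1))
  have b2 : Q ((I.filter fun x => ¬ x.2 ∈ S).filter fun x => x.1 ∈ T) h ≤ N := by
    refine hT _ (hI.subset ((Finset.filter_subset _ _).trans (Finset.filter_subset _ _))) ?_
    intro x hx
    rw [Finset.mem_filter, Finset.mem_filter] at hx
    refine ⟨hx.2, ?_⟩
    rcases (hIS x hx.1.1).2 with h1 | h1
    · exact absurd h1 hx.1.2
    · exact h1
  have b3 : Q ((I.filter fun x => ¬ x.2 ∈ S).filter fun x => ¬ x.1 ∈ T) h ≤ K := by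
    set J := (I.filter fun x => ¬ x.2 ∈ S).filter fun x => ¬ x.1 ∈ T with hJ
    have hJm : ∀ x ∈ J, x ∈ I ∧ x.1 ∈ S ∧ x.2 ∈ T := by
      intro x hx
      rw [hJ, Finset.mem_filter, Finset.mem_filter] at hx
      refine ⟨hx.1.1, ?_, ?_⟩
      · rcases (hIS x hx.1.1).1 with h1 | h1
        · exact h1
        · exact absurd h1 hx.2
      · rcases (hIS x hx.1.1).2 with h1 | h1
        · exact absurd h1 hx.1.2
        · exact h1
    have hcard : J.card ≤ 1 := by
      rw [Finset.card_le_one]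
      intro x hx y hy
      by_contra hxy
      obtain ⟨x0, x1, x2⟩ := hJm x hx
      obtain ⟨y0, y1, y2⟩ := hJm y hy
      rcases hI.2 x x0 y y0 hxy with h1 | h1
      · exact absurd h1 (not_le.2 (hST _ y1 _ x2))
      · exact absurd h1 (not_le.2 (hST _ x1 _ y2))
    rcases J.eq_empty_or_nonempty with h0 | ⟨z, hzJ⟩
    · rw [h0]
      simpa [Q] using hK0
    · have : J = {z} := by
        rw [Finset.eq_singleton_iff_unique_mem]
        exact ⟨hzJ, fun x hx => Finset.card_le_one.1 hcard x hx z hzJ⟩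
      rw [this]
      obtain ⟨_, z1, z2⟩ := hJm z hzJ
      simpa [Q] using hK _ z1 _ z2
  linarith

open Classical in
lemma VB.comp {f : L → ℝ} {S T : Set L} {M : ℝ} (h : VB f T M) {r : L → L} (hr : Monotone r)
    (hrS : ∀ p ∈ S, r p ∈ T) : VB (f ∘ r) S M := by
  intro I hI hIS
  set J := I.filter fun x => r x.1 ≠ r x.2 with hJ
  have e1 : Q I (f ∘ r) = ∑ x ∈ J, (f (r x.2) - f (r x.1)) ^ 2 := by
    unfold Q
    rw [← Finset.sum_filter_add_sum_filter_not I (fun x => r x.1 ≠ r x.2)]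
    have : ∑ x ∈ I with ¬ (r x.1 ≠ r x.2), ((f ∘ r) x.2 - (f ∘ r) x.1) ^ 2 = 0 := by
      refine Finset.sum_eq_zero fun x hx => ?_
      rw [Finset.mem_filter, not_not] at hx
      simp [hx.2]
    rw [this, add_zero]
    rfl
  have hinj : Set.InjOn (fun x : L × L => (r x.1, r x.2)) (J : Set (L × L)) := by
    intro x hx y hy hxy
    by_contra hne
    rw [hJ, Finset.mem_coe, Finset.mem_filter] at hx hy
    simp only [Prod.mk.injEq] at hxy
    rcases hI.2 x hx.1 y hy.1 hne with h1 | h1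
    · have h2 : r x.2 ≤ r x.1 := by
        calc r x.2 ≤ r y.1 := hr h1
          _ = r x.1 := hxy.1.symm
      exact hx.2 (le_antisymm (hr (hI.1 x hx.1)) h2)
    · have h2 : r y.2 ≤ r y.1 := by
        calc r y.2 ≤ r x.1 := hr h1
          _ = r y.1 := hxy.1
      exact hy.2 (le_antisymm (hr (hI.1 y hy.1)) h2)
  have e2 : ∑ x ∈ J, (f (r x.2) - f (r x.1)) ^ 2 =
      Q (J.image fun x => (r x.1, r x.2)) f := by
    unfold Q
    rw [Finset.sum_image hinj]
  rw [e1, e2]
  refine h _ ⟨?_, ?_⟩ ?_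
  · intro y hy
    obtain ⟨x, hx, rfl⟩ := Finset.mem_image.1 hy
    rw [hJ, Finset.mem_filter] at hx
    exact hr (hI.1 x hx.1)
  · intro y hy y' hy' hne
    obtain ⟨x, hx, rfl⟩ := Finset.mem_image.1 hy
    obtain ⟨x', hx', rfl⟩ := Finset.mem_image.1 hy'
    rw [hJ, Finset.mem_filter] at hx hx'
    have hxx : x ≠ x' := fun hc => hne (by rw [hc])
    rcases hI.2 x hx.1 x' hx'.1 hxx with h1 | h1
    · exact Or.inl (hr h1)
    · exact Or.inr (hr h1)
  · intro y hy
    obtain ⟨x, hx, rfl⟩ := Finset.mem_image.1 hy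
    rw [hJ, Finset.mem_filter] at hx
    exact ⟨hrS _ (hIS x hx.1).1, hrS _ (hIS x hx.1).2⟩

/-- union of two packings, one to the left of the other -/
lemma IsPacking.union [DecidableEq L] {I J : Finset (L × L)} (hI : IsPacking I)
    (hJ : IsPacking J) (h : ∀ x ∈ I, ∀ y ∈ J, x.2 ≤ y.1) : IsPacking (I ∪ J) := by
  refine ⟨?_, ?_⟩
  · intro x hx
    rcases Finset.mem_union.1 hx with h1 | h1
    · exact hI.1 x h1
    · exact hJ.1 x h1
  · intro x hx y hy hxy
    rcases Finset.mem_union.1 hx with h1 | h1 <;> rcases Finset.mem_union.1 hy with h2 | h2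
    · exact hI.2 x h1 y h2 hxy
    · exact Or.inl (h x h1 y h2)
    · exact Or.inr (h y h2 x h1)
    · exact hJ.2 x h1 y h2 hxy

end Pool.Agent.Helper176.LJ
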