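import Mathlib
import Pool.Agent.Helper176.LJPack

set_option autoImplicit false

namespace Pool.Agent.Helper176.LJ

open Set

variable {L : Type*} [LinearOrder L]

/-- `f` depends only on the cut determined by the finite set `s` -/
def CutDet (s : Finset L) (f : L → ℝ) : Prop :=
  ∀ ζ ζ' : L, (∀ σ ∈ s, (ζ ≤ σ ↔ ζ' ≤ σ)) → f ζ = f ζ'

lemma CutDet.mono {s t : Finset L} {f : L → ℝ} (h : CutDet s f) (hst : s ⊆ t) : CutDet t f :=
  fun ζ ζ' hz => h ζ ζ' fun σ hσ => hz σ (hst hσ)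

lemma CutDet.min {s : Finset L} {f : L → ℝ} (h : CutDet s f) (ξ : L) :
    CutDet s (fun ζ => f (min ζ ξ)) := by
  intro ζ ζ' hz
  refine h _ _ fun σ hσ => ?_
  rw [min_le_iff, min_le_iff, hz σ hσ]

variable [OrderBot L]

open Classical in
variable (L) in
/-- finite left-continuous step functions vanishing at the bottom -/
noncomputable def X₀ : Submodule ℝ (L → ℝ) where
  carrier := {f | f ⊥ = 0 ∧ ∃ s : Finset L, CutDet s f}
  add_mem' := by
    rintro f g ⟨hf, s, hs⟩ ⟨hg, t, ht⟩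
    refine ⟨by simp [hf, hg], s ∪ t, ?_⟩
    intro ζ ζ' hz
    have h1 := (hs.mono (Finset.subset_union_left (s₂ := t))) ζ ζ' hz
    have h2 := (ht.mono (Finset.subset_union_right (s₁ := s))) ζ ζ' hz
    simp [h1, h2]
  zero_mem' := ⟨rfl, ∅, fun _ _ _ => rfl⟩
  smul_mem' := by
    rintro c f ⟨hf, s, hs⟩
    refine ⟨by simp [hf], s, ?_⟩
    intro ζ ζ' hz
    simp [hs ζ ζ' hz]

lemma mem_X₀ {f : L → ℝ} : f ∈ X₀ L ↔ f ⊥ = 0 ∧ ∃ s : Finset L, CutDet s f := Iff.rfl

lemma X₀_bot (f : X₀ L) : (f : L → ℝ) ⊥ = 0 := f.2.1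

/-- the step functions -/
noncomputable def stepFn (β : L) : L → ℝ := (Ioi β).indicator fun _ => 1

omit [OrderBot L] in
lemma cutDet_stepFn (β : L) : CutDet {β} (stepFn β) := by
  intro ζ ζ' hz
  have := hz β (Finset.mem_singleton_self _)
  unfold stepFn
  by_cases h : β < ζ
  · rw [indicator_of_mem (by exact h), indicator_of_mem]
    rw [mem_Ioi, ← not_le, ← this, not_le]
    exact h
  · rw [indicator_of_notMem (by exact h), indicator_of_notMem]
    rw [mem_Ioi, ← not_le, ← this, not_le]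
    exact h

lemma stepFn_mem (β : L) : stepFn β ∈ X₀ L :=
  ⟨by simp [stepFn], {β}, cutDet_stepFn β⟩

/-- the step functions as elements of `X₀` -/
noncomputable def u (β : L) : X₀ L := ⟨stepFn β, stepFn_mem β⟩

lemma u_apply (β ζ : L) : ((u β : X₀ L) : L → ℝ) ζ = if β < ζ then 1 else 0 := by
  simp [u, stepFn, indicator_apply]

/-- stopping at `ξ` -/
noncomputable def T (ξ : L) (f : X₀ L) : X₀ L :=
  ⟨fun ζ => (f : L → ℝ) (min ζ ξ), by
    obtain ⟨f, hf, s, hs⟩ := f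
    exact ⟨by simpa using hf, s, hs.min ξ⟩⟩

lemma T_apply (ξ : L) (f : X₀ L) (ζ : L) : (T ξ f : L → ℝ) ζ = (f : L → ℝ) (min ζ ξ) := rfl

lemma VB_T {f : X₀ L} {M : ℝ} (h : VB (f : L → ℝ) univ M) (ξ : L) :
    VB (T ξ f : L → ℝ) univ M := by
  have : (T ξ f : L → ℝ) = (f : L → ℝ) ∘ fun ζ => min ζ ξ := rfl
  rw [this]
  exact h.comp (fun a b hab => min_le_min_right _ hab) (fun _ _ => mem_univ _)

lemma VB_u (β : L) : VB ((u β : X₀ L) : L → ℝ) univ 1 := by
  have h1 : VB ((u β : X₀ L) : L → ℝ) (Iic β) 0 := by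
    have : VB (fun _ : L => (0 : ℝ)) (Iic β) 0 := by
      intro I _ _
      simp [Q]
    refine this.congr ?_
    intro p hp
    rw [u_apply, if_neg (not_lt.2 hp)]
  have h2 : VB ((u β : X₀ L) : L → ℝ) (Ioi β) 0 := by
    have : VB (fun _ : L => (1 : ℝ)) (Ioi β) 0 := by
      intro I _ _
      simp [Q]
    refine this.congr ?_
    intro p hp
    rw [u_apply, if_pos (mem_Ioi.1 hp)]
  have h3 := VB.union (S := Iic β) (T := Ioi β) (K := 1)
    (fun p hp q hq => lt_of_le_of_lt hp hq) h1 h2 ?_ zero_le_one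
  · rw [Iic_union_Ioi] at h3
    exact h3.mono (by norm_num)
  · intro p hp q hq
    rw [u_apply, u_apply, if_pos (mem_Ioi.1 hq), if_neg (not_lt.2 (mem_Iic.1 hp))]
    norm_num

open Classical in
/-- step functions have bounded variation -/
lemma exists_VB (f : X₀ L) : ∃ M : ℝ, VB (f : L → ℝ) univ M := by
  obtain ⟨f, hf, s, hs⟩ := f
  -- finite range
  have hfin : (range f).Finite := by
    have : range f ⊆ (fun t : Finset L => if h : ∃ ζ : L, s.filter (fun σ => ζ ≤ σ) = t then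
        f h.choose else 0) '' (s.powerset : Set (Finset L)) := by
      rintro _ ⟨ζ, rfl⟩
      refine ⟨s.filter (fun σ => ζ ≤ σ),
        Finset.mem_coe.2 (Finset.mem_powerset.2 (Finset.filter_subset _ _)), ?_⟩
      have h : ∃ ζ' : L, s.filter (fun σ => ζ' ≤ σ) = s.filter (fun σ => ζ ≤ σ) := ⟨ζ, rfl⟩
      simp only [dif_pos h]
      refine hs _ _ fun σ hσ => ?_
      have h2 := Finset.ext_iff.1 h.choose_spec σ
      simpa [Finset.mem_filter, hσ] using h2
    exact (Finset.finite_toSet _).image _ |>.subset this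
  obtain ⟨B, hB⟩ := hfin.bddAbove
  obtain ⟨A, hA⟩ := hfin.bddBelow
  refine ⟨s.card * (B - A) ^ 2, ?_⟩
  intro I hI _
  show Q I f ≤ _
  have hle : ∀ p q, (f q - f p) ^ 2 ≤ (B - A) ^ 2 := by
    intro p q
    have h1 := hB (mem_range_self p)
    have h2 := hB (mem_range_self q)
    have h3 := hA (mem_range_self p)
    have h4 := hA (mem_range_self q)
    apply sq_le_sq'
    · linarith
    · linarith
  have hsep : ∀ x ∈ I, f x.2 ≠ f x.1 → ∃ σ ∈ s, x.1 ≤ σ ∧ σ < x.2 := by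
    intro x hx hne
    by_contra hcon
    push Not at hcon
    apply hne
    refine hs _ _ fun σ hσ => ⟨fun h => (hI.1 x hx).trans h, fun h => hcon σ hσ h⟩
  have hQ : Q I f = ∑ x ∈ I.filter (fun x => f x.2 ≠ f x.1), (f x.2 - f x.1) ^ 2 := by
    unfold Q
    rw [Finset.sum_filter]
    refine Finset.sum_congr rfl fun x _ => ?_
    split_ifs with h
    · rfl
    · rw [not_not] at h
      rw [h]
      ring
  have hcard : (I.filter (fun x => f x.2 ≠ f x.1)).card ≤ s.card := by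
    have hch : ∀ x : L × L, ∃ σ : L, x ∈ I.filter (fun x => f x.2 ≠ f x.1) →
        σ ∈ s ∧ x.1 ≤ σ ∧ σ < x.2 := by
      intro x
      by_cases hx : x ∈ I.filter (fun x => f x.2 ≠ f x.1)
      · rw [Finset.mem_filter] at hx
        obtain ⟨σ, h1, h2⟩ := hsep x hx.1 hx.2
        exact ⟨σ, fun _ => ⟨h1, h2⟩⟩
      · exact ⟨⊥, fun h => absurd h hx⟩
    choose σ hσ using hch
    refine Finset.card_le_card_of_injOn σ (fun x hx => (hσ x hx).1) ?_
    intro x hx y hy hxy
    by_contra hne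
    have h1 := hσ x hx
    have h2 := hσ y hy
    rw [Finset.mem_coe, Finset.mem_filter] at hx hy
    rcases hI.2 x hx.1 y hy.1 hne with h3 | h3
    · exact absurd (lt_of_lt_of_le h1.2.2 h3) (not_lt.2 (hxy ▸ h2.2.1))
    · exact absurd (lt_of_lt_of_le h2.2.2 h3) (not_lt.2 (hxy ▸ h1.2.1))
  rw [hQ]
  calc ∑ x ∈ I.filter (fun x => f x.2 ≠ f x.1), (f x.2 - f x.1) ^ 2
      ≤ ∑ x ∈ I.filter (fun x => f x.2 ≠ f x.1), (B - A) ^ 2 :=
        Finset.sum_le_sum fun x _ => hle _ _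
    _ = (I.filter (fun x => f x.2 ≠ f x.1)).card * (B - A) ^ 2 := by
        rw [Finset.sum_const, nsmul_eq_mul]
    _ ≤ s.card * (B - A) ^ 2 := by
        refine mul_le_mul_of_nonneg_right ?_ (sq_nonneg _)
        exact_mod_cast hcard

open Classical in
/-- left-continuity -/
lemma left_cont (f : X₀ L) {ξ : L} (hξ : ⊥ < ξ) :
    ∃ η < ξ, ∀ ζ, η < ζ → ζ ≤ ξ → (f : L → ℝ) ζ = (f : L → ℝ) ξ := by
  obtain ⟨f, hf, s, hs⟩ := f
  set t := insert ⊥ (s.filter fun σ => σ < ξ) with ht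
  have htne : t.Nonempty := ⟨⊥, Finset.mem_insert_self _ _⟩
  have hmax := t.max'_mem htne
  refine ⟨t.max' htne, ?_, ?_⟩
  · have h1 : ∀ τ ∈ t, τ < ξ := by
      intro τ hτ
      rw [ht, Finset.mem_insert, Finset.mem_filter] at hτ
      rcases hτ with h | h
      · rw [h]; exact hξ
      · exact h.2
    exact h1 _ hmax
  · intro ζ hζ1 hζ2
    refine hs _ _ fun σ hσ => ⟨fun h => ?_, fun h => hζ2.trans h⟩
    by_contra h3
    rw [not_le] at h3
    have : σ ∈ t := by
      rw [ht, Finset.mem_insert, Finset.mem_filter]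
      exact Or.inr ⟨hσ, h3⟩
    have h4 := t.le_max' σ this
    exact absurd (h.trans h4) (not_le.2 hζ1)

variable [OrderTop L]

open Classical in
/-- step interpolation of an arbitrary function on a finite set -/
lemma exists_interp (f : L → ℝ) (hf : f ⊥ = 0) {M : ℝ} (hM : VB f univ M) (s : Finset L) :
    ∃ g : X₀ L, VB (g : L → ℝ) univ M ∧ ∀ σ ∈ s, (g : L → ℝ) σ = f σ := by
  set t := insert ⊤ (insert ⊥ s) with ht
  have hne : ∀ ζ : L, (t.filter fun σ => ζ ≤ σ).Nonempty := fun ζ =>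
    ⟨⊤, by rw [Finset.mem_filter]; exact ⟨Finset.mem_insert_self _ _, le_top⟩⟩
  set r : L → L := fun ζ => (t.filter fun σ => ζ ≤ σ).min' (hne ζ) with hr
  have hrmono : Monotone r := by
    intro a b hab
    refine Finset.min'_subset _ ?_
    intro x hx
    rw [Finset.mem_filter] at hx ⊢
    exact ⟨hx.1, hab.trans hx.2⟩
  have hrfix : ∀ σ ∈ t, r σ = σ := by
    intro σ hσ
    apply le_antisymm
    · exact Finset.min'_le _ _ (by rw [Finset.mem_filter]; exact ⟨hσ, le_rfl⟩)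
    · have := Finset.min'_mem _ (hne σ)
      rw [Finset.mem_filter] at this
      exact this.2
  have hbot : (⊥ : L) ∈ t := by simp [ht]
  refine ⟨⟨f ∘ r, ?_, t, ?_⟩, ?_, ?_⟩
  · rw [Function.comp_apply, hrfix _ hbot, hf]
  · intro ζ ζ' hz
    have : (t.filter fun σ => ζ ≤ σ) = (t.filter fun σ => ζ' ≤ σ) := by
      ext σ
      rw [Finset.mem_filter, Finset.mem_filter]
      exact ⟨fun h => ⟨h.1, (hz σ h.1).1 h.2⟩, fun h => ⟨h.1, (hz σ h.1).2 h.2⟩⟩
    simp only [Function.comp_apply, hr, this]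
  · exact hM.comp hrmono fun _ _ => mem_univ _
  · intro σ hσ
    show (f ∘ r) σ = f σ
    rw [Function.comp_apply, hrfix σ (by simp [ht, hσ])]

end Pool.Agent.Helper176.LJ
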