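import Mathlib
import Pool.Agent.Helper176.LJStep

set_option autoImplicit false

namespace Pool.Agent.Helper176.LJ

open Set

variable (L : Type*) [LinearOrder L] [OrderBot L]

/-- `Y` is a completion of `X₀ L` for a norm equivalent to the quadratic variation norm -/
structure JData (Y : Type*) [NormedAddCommGroup Y] [NormedSpace ℝ Y] where
  /-- the embedding -/
  ι : X₀ L →ₗ[ℝ] Y
  dense : DenseRange ι
  /-- constant of the lower estimate -/
  a : ℝ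
  /-- constant of the upper estimate -/
  b : ℝ
  ha : 0 ≤ a
  hb : 0 ≤ b
  lower : ∀ (f : X₀ L) (I : Finset (L × L)), IsPacking I → Q I f ≤ a ^ 2 * ‖ι f‖ ^ 2
  upper : ∀ (f : X₀ L) (M : ℝ), VB (f : L → ℝ) univ M → ‖ι f‖ ^ 2 ≤ b ^ 2 * M
  /-- evaluation functionals -/
  δ : L → StrongDual ℝ Y
  hδ : ∀ (f : X₀ L) (ξ : L), δ ξ (ι f) = (f : L → ℝ) ξ

variable {L}
variable {Y : Type*} [NormedAddCommGroup Y] [NormedSpace ℝ Y] (D : JData L Y)

namespace JData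

lemma VB_ι (f : X₀ L) : VB (f : L → ℝ) univ ((D.a * ‖D.ι f‖) ^ 2) := by
  intro I hI _
  rw [mul_pow]
  exact D.lower f I hI

lemma norm_le (f : X₀ L) {t : ℝ} (ht : 0 ≤ t) (h : VB (f : L → ℝ) univ (t ^ 2)) :
    ‖D.ι f‖ ≤ D.b * t := by
  have h1 := D.upper f _ h
  rw [← mul_pow] at h1
  exact (pow_le_pow_iff_left₀ (norm_nonneg _) (mul_nonneg D.hb ht) two_ne_zero).1 h1

lemma δ_bot : D.δ ⊥ = 0 := by
  have : ∀ y, D.δ ⊥ y = 0 := by
    intro y
    refine D.dense.induction_on (p := fun y => D.δ ⊥ y = 0) y ?_ ?_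
    · exact isClosed_eq (D.δ ⊥).continuous continuous_const
    · intro f
      rw [D.hδ]
      exact X₀_bot f
  ext y
  simpa using this y

/-- functionals bounded on the dense set are bounded -/
lemma opNorm_le_of_dense (φ : StrongDual ℝ Y) {C : ℝ} (hC : 0 ≤ C)
    (h : ∀ f, |φ (D.ι f)| ≤ C * ‖D.ι f‖) : ‖φ‖ ≤ C := by
  refine φ.opNorm_le_bound hC fun y => ?_
  refine D.dense.induction_on (p := fun y => ‖φ y‖ ≤ C * ‖y‖) y ?_ ?_
  · exact isClosed_le φ.continuous.norm (continuous_const.mul continuous_norm)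
  · intro f
    rw [Real.norm_eq_abs]
    exact h f

/-- the evaluation of a bidual functional at the points -/
lemma VB_bidual (Φ : StrongDual ℝ (StrongDual ℝ Y)) :
    VB (fun ξ => Φ (D.δ ξ)) univ (D.a ^ 2 * ‖Φ‖ ^ 2) := by
  intro I hI _
  set f : L → ℝ := fun ξ => Φ (D.δ ξ) with hf
  set z : StrongDual ℝ Y := ∑ x ∈ I, (f x.2 - f x.1) • (D.δ x.2 - D.δ x.1) with hz
  have h1 : Φ z = Q I f := by
    rw [hz, map_sum]
    unfold Q
    refine Finset.sum_congr rfl fun x _ => ?_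
    rw [map_smul, map_sub, smul_eq_mul]
    simp only [hf]
    ring
  have h2 : ‖z‖ ≤ D.a * Real.sqrt (Q I f) := by
    refine D.opNorm_le_of_dense z (mul_nonneg D.ha (Real.sqrt_nonneg _)) fun g => ?_
    have h3 : z (D.ι g) = ∑ x ∈ I, (f x.2 - f x.1) * ((g : L → ℝ) x.2 - (g : L → ℝ) x.1) := by
      rw [hz]
      simp only [FunLike.coe_sum, Finset.sum_apply, _root_.smul_apply,
        _root_.sub_apply, D.hδ, smul_eq_mul]
    have h4 := Finset.sum_mul_sq_le_sq_mul_sq I (fun x => f x.2 - f x.1)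
      (fun x => (g : L → ℝ) x.2 - (g : L → ℝ) x.1)
    rw [← h3] at h4
    have h5 : (∑ x ∈ I, ((g : L → ℝ) x.2 - (g : L → ℝ) x.1) ^ 2) ≤ (D.a * ‖D.ι g‖) ^ 2 := by
      have := D.lower g I hI
      rw [mul_pow]
      exact this
    have h6 : (z (D.ι g)) ^ 2 ≤ (D.a * Real.sqrt (Q I f) * ‖D.ι g‖) ^ 2 := by
      calc (z (D.ι g)) ^ 2 ≤ Q I f * (D.a * ‖D.ι g‖) ^ 2 :=
            h4.trans (mul_le_mul_of_nonneg_left h5 (Q_nonneg _ _))
        _ = (D.a * Real.sqrt (Q I f) * ‖D.ι g‖) ^ 2 := by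
            rw [mul_pow, mul_pow, mul_pow, Real.sq_sqrt (Q_nonneg _ _)]
            ring
    exact abs_le_of_sq_le_sq h6 (by have := D.ha; positivity)
  have hΦ0 : 0 ≤ ‖Φ‖ := Φ.opNorm_nonneg
  have h3 : Q I f ≤ ‖Φ‖ * (D.a * Real.sqrt (Q I f)) := by
    calc Q I f = Φ z := h1.symm
      _ ≤ ‖Φ z‖ := Real.le_norm_self _
      _ ≤ ‖Φ‖ * ‖z‖ := Φ.le_opNorm z
      _ ≤ ‖Φ‖ * (D.a * Real.sqrt (Q I f)) := mul_le_mul_of_nonneg_left h2 hΦ0
  show Q I f ≤ _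
  set q := Real.sqrt (Q I f) with hq
  have hqq : Q I f = q ^ 2 := by rw [hq, Real.sq_sqrt (Q_nonneg _ _)]
  have hq0 : 0 ≤ q := Real.sqrt_nonneg _
  rw [hqq] at h3 ⊢
  have h4 : q ≤ ‖Φ‖ * D.a := by
    rcases eq_or_lt_of_le hq0 with h0 | h0
    · rw [← h0]
      exact mul_nonneg hΦ0 D.ha
    · nlinarith
  calc q ^ 2 ≤ (‖Φ‖ * D.a) ^ 2 := pow_le_pow_left₀ hq0 h4 2
    _ = D.a ^ 2 * ‖Φ‖ ^ 2 := by ring

/-- tails: the functional is small on blocks just below `ξ` -/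
lemma block_small (φ : StrongDual ℝ Y) {ξ : L} (hξ : ⊥ < ξ) {ε : ℝ} (hε : 0 < ε) :
    ∃ η < ξ, ∀ h : X₀ L, (∀ ζ ≤ η, (h : L → ℝ) ζ = 0) → (∀ ζ ≥ ξ, (h : L → ℝ) ζ = 0) →
      VB (h : L → ℝ) univ 1 → φ (D.ι h) ≤ ε := by
  by_contra hcon
  push Not at hcon
  have key : ∀ n : ℕ, ∃ η < ξ, ∃ g : X₀ L, (∀ ζ > η, (g : L → ℝ) ζ = 0) ∧
      VB (g : L → ℝ) univ (6 * n) ∧ (∀ ζ, |(g : L → ℝ) ζ| ≤ 1) ∧ n * ε ≤ φ (D.ι g) := by
    intro n
    induction n with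
    | zero =>
      refine ⟨⊥, hξ, 0, by simp, ?_, by simp, by simp⟩
      intro I _ _
      simp [Q]
    | succ n ih =>
      obtain ⟨η, hη, g, hg0, hgV, hg1, hgφ⟩ := ih
      obtain ⟨h, hh0, hh1, hhV, hhφ⟩ := hcon η hη
      obtain ⟨η₁, hη₁, hlc⟩ := left_cont h hξ
      have hab : ∀ ζ, |(h : L → ℝ) ζ| ≤ 1 := by
        intro ζ
        have h1 := hhV.sq_le (mem_univ (⊥ : L)) (mem_univ ζ)
        rw [X₀_bot, sub_zero] at h1
        exact abs_le_one_iff_mul_self_le_one.2 (by nlinarith)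
      have e1 : ∀ ζ ≤ η, ((g + h : X₀ L) : L → ℝ) ζ = (g : L → ℝ) ζ := by
        intro ζ hζ
        show (g : L → ℝ) ζ + (h : L → ℝ) ζ = _
        rw [hh0 ζ hζ, add_zero]
      have e2 : ∀ ζ, η < ζ → ((g + h : X₀ L) : L → ℝ) ζ = (h : L → ℝ) ζ := by
        intro ζ hζ
        show (g : L → ℝ) ζ + (h : L → ℝ) ζ = _
        rw [hg0 ζ hζ, zero_add]
      refine ⟨max η η₁, max_lt hη hη₁, g + h, ?_, ?_, ?_, ?_⟩
      · intro ζ hζ
        have h1 : η < ζ := lt_of_le_of_lt (le_max_left _ _) hζ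
        have h2 : η₁ < ζ := lt_of_le_of_lt (le_max_right _ _) hζ
        rw [e2 ζ h1]
        rcases le_total ζ ξ with h3 | h3
        · rw [hlc ζ h2 h3]
          exact hh1 ξ le_rfl
        · exact hh1 ζ h3
      · have v1 : VB ((g + h : X₀ L) : L → ℝ) (Iic η) (6 * n) :=
          (hgV.mono_set (subset_univ _)).congr fun p hp => (e1 p hp).symm
        have v2 : VB ((g + h : X₀ L) : L → ℝ) (Ioi η) 1 :=
          (hhV.mono_set (subset_univ _)).congr fun p hp => (e2 p hp).symm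
        have v3 := VB.union (S := Iic η) (T := Ioi η) (K := 4)
          (fun p hp q hq => lt_of_le_of_lt hp hq) v1 v2 ?_ (by norm_num)
        · rw [Iic_union_Ioi] at v3
          refine v3.mono ?_
          push_cast
          linarith
        · intro p hp q hq
          rw [e1 p hp, e2 q hq]
          have h1 := abs_le.1 (hg1 p)
          have h2 := abs_le.1 (hab q)
          nlinarith
      · intro ζ
        rcases le_or_gt ζ η with h1 | h1
        · rw [e1 ζ h1]; exact hg1 ζ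
        · rw [e2 ζ h1]; exact hab ζ
      · rw [map_add, map_add]
        push_cast
        linarith
  -- contradiction
  obtain ⟨n, hn⟩ := exists_nat_gt (6 * (‖φ‖ * D.b) ^ 2 / ε ^ 2)
  have hn0 : (0 : ℝ) < n := lt_of_le_of_lt (by positivity) hn
  obtain ⟨η, _, g, _, hgV, _, hgφ⟩ := key n
  have h1 : ‖D.ι g‖ ≤ D.b * Real.sqrt (6 * n) := by
    refine D.norm_le g (Real.sqrt_nonneg _) ?_
    rw [Real.sq_sqrt (by positivity)]
    exact hgV
  have h2 : n * ε ≤ ‖φ‖ * (D.b * Real.sqrt (6 * n)) :=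
    hgφ.trans ((Real.le_norm_self _).trans ((φ.le_opNorm _).trans
      (mul_le_mul_of_nonneg_left h1 (norm_nonneg _))))
  have h3 : (n * ε) ^ 2 ≤ (‖φ‖ * D.b) ^ 2 * (6 * n) := by
    calc (n * ε) ^ 2 ≤ (‖φ‖ * (D.b * Real.sqrt (6 * n))) ^ 2 :=
          pow_le_pow_left₀ (by positivity) h2 2
      _ = (‖φ‖ * D.b) ^ 2 * (Real.sqrt (6 * n)) ^ 2 := by ring
      _ = (‖φ‖ * D.b) ^ 2 * (6 * n) := by rw [Real.sq_sqrt (by positivity)]
  rw [div_lt_iff₀ (by positivity)] at hn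
  have h4 : (n : ℝ) * ((n : ℝ) * ε ^ 2) ≤ n * (6 * (‖φ‖ * D.b) ^ 2) := by nlinarith
  have h5 := le_of_mul_le_mul_left h4 hn0
  linarith

lemma block_small' (φ : StrongDual ℝ Y) {ξ : L} (hξ : ⊥ < ξ) {ε : ℝ} (hε : 0 < ε) :
    ∃ η < ξ, ∀ (h : X₀ L) (t : ℝ), (∀ ζ ≤ η, (h : L → ℝ) ζ = 0) →
      (∀ ζ ≥ ξ, (h : L → ℝ) ζ = 0) → 0 ≤ t →
      VB (h : L → ℝ) univ (t ^ 2) → |φ (D.ι h)| ≤ ε * t := by
  obtain ⟨η, hη, H⟩ := D.block_small φ hξ hε
  refine ⟨η, hη, ?_⟩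
  have H2 : ∀ (h : X₀ L) (t : ℝ), (∀ ζ ≤ η, (h : L → ℝ) ζ = 0) →
      (∀ ζ ≥ ξ, (h : L → ℝ) ζ = 0) → 0 < t →
      VB (h : L → ℝ) univ (t ^ 2) → φ (D.ι h) ≤ ε * t := by
    intro h t h0 h1 ht hV
    have := H (t⁻¹ • h) (fun ζ hζ => ?_) (fun ζ hζ => ?_) ?_
    · rw [map_smul, map_smul, smul_eq_mul, inv_mul_le_iff₀ ht] at this
      linarith
    · show t⁻¹ • (h : L → ℝ) ζ = 0
      rw [h0 ζ hζ, smul_zero]
    · show t⁻¹ • (h : L → ℝ) ζ = 0
      rw [h1 ζ hζ, smul_zero]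
    · have h2 := hV.smul t⁻¹
      have h3 : t⁻¹ ^ 2 * t ^ 2 = 1 := by
        rw [← mul_pow, inv_mul_cancel₀ ht.ne', one_pow]
      rw [h3] at h2
      exact h2
  have H3 : ∀ (h : X₀ L) (t : ℝ), (∀ ζ ≤ η, (h : L → ℝ) ζ = 0) →
      (∀ ζ ≥ ξ, (h : L → ℝ) ζ = 0) → 0 ≤ t →
      VB (h : L → ℝ) univ (t ^ 2) → φ (D.ι h) ≤ ε * t := by
    intro h t h0 h1 ht hV
    refine le_of_forall_pos_le_add fun τ hτ => ?_
    have h2 := H2 h (t + τ / ε) h0 h1 (by positivity) (hV.mono ?_)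
    · calc φ (D.ι h) ≤ ε * (t + τ / ε) := h2
        _ = ε * t + τ := by field_simp
    · have : 0 < τ / ε := by positivity
      nlinarith
  intro h t h0 h1 ht hV
  rw [abs_le]
  constructor
  · have := H3 (-h) t (fun ζ hζ => ?_) (fun ζ hζ => ?_) ht hV.neg
    · rw [map_neg, map_neg] at this
      linarith
    · show -(h : L → ℝ) ζ = 0
      rw [h0 ζ hζ, neg_zero]
    · show -(h : L → ℝ) ζ = 0
      rw [h1 ζ hζ, neg_zero]
  · exact H3 h t h0 h1 ht hV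

variable [WellFoundedLT L]

lemma span_aux (φ : StrongDual ℝ Y) (ξ : L) :
    ∀ ε : ℝ, 0 < ε → ∃ z ∈ Submodule.span ℝ (range D.δ), ∀ f : X₀ L,
      |φ (D.ι (T ξ f)) - z (D.ι f)| ≤ ε * ‖D.ι f‖ := by
  induction ξ using WellFoundedLT.induction with
  | _ ξ ih =>
  intro ε hε
  rcases eq_or_lt_of_le (bot_le : ⊥ ≤ ξ) with h0 | h0
  · refine ⟨0, Submodule.zero_mem _, fun f => ?_⟩
    have : T ξ f = 0 := by
      apply Subtype.ext
      funext ζ
      rw [T_apply, ← h0, min_eq_right bot_le, X₀_bot]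
      rfl
    rw [this, map_zero, map_zero]
    simp only [_root_.zero_apply, sub_zero, abs_zero]
    positivity
  · have haa := D.ha
    obtain ⟨η, hη, H⟩ := D.block_small' φ h0 (ε := ε / (2 * (4 * D.a + 1))) (by positivity)
    obtain ⟨z, hz, hzf⟩ := ih η hη (ε / 2) (by positivity)
    refine ⟨z + φ (D.ι (u η)) • (D.δ ξ - D.δ η), ?_, fun f => ?_⟩
    · refine Submodule.add_mem _ hz (Submodule.smul_mem _ _ (Submodule.sub_mem _ ?_ ?_))
      · exact Submodule.subset_span ⟨ξ, rfl⟩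
      · exact Submodule.subset_span ⟨η, rfl⟩
    · set c : ℝ := (f : L → ℝ) ξ - (f : L → ℝ) η with hc
      set h : X₀ L := T ξ f - T η f - c • u η with hh
      have hval : ∀ ζ, (h : L → ℝ) ζ = (f : L → ℝ) (min ζ ξ) - (f : L → ℝ) (min ζ η) -
          c * (if η < ζ then 1 else 0) := by
        intro ζ
        rw [← u_apply]
        rfl
      have hz1 : ∀ ζ ≤ η, (h : L → ℝ) ζ = 0 := by
        intro ζ hζ
        rw [hval, min_eq_left hζ, min_eq_left (hζ.trans hη.le), if_neg (not_lt.2 hζ)]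
        ring
      have hz2 : ∀ ζ ≥ ξ, (h : L → ℝ) ζ = 0 := by
        intro ζ hζ
        rw [hval, min_eq_right hζ, min_eq_right (hη.le.trans hζ), if_pos (lt_of_lt_of_le hη hζ)]
        ring
      set t : ℝ := D.a * ‖D.ι f‖ with ht
      have ht0 : 0 ≤ t := mul_nonneg haa (norm_nonneg _)
      have hV := D.VB_ι f
      have hcle : c ^ 2 ≤ t ^ 2 := hV.sq_le (mem_univ η) (mem_univ ξ)
      have hVh : VB (h : L → ℝ) univ ((4 * t) ^ 2) := by
        have h1 := ((VB_T hV ξ).sub (VB_T hV η)).sub ((VB_u η).smul c)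
        refine h1.mono ?_
        nlinarith
      have h2 := H h (4 * t) hz1 hz2 (by positivity) hVh
      have h3 := hzf f
      have h4 : φ (D.ι (T ξ f)) - (z + φ (D.ι (u η)) • (D.δ ξ - D.δ η)) (D.ι f) =
          (φ (D.ι (T η f)) - z (D.ι f)) + φ (D.ι h) := by
        rw [hh]
        simp only [map_sub, map_smul, _root_.add_apply, _root_.smul_apply,
          _root_.sub_apply, D.hδ, smul_eq_mul, hc]
        ring
      rw [h4]
      have h5 : ε / (2 * (4 * D.a + 1)) * (4 * t) ≤ ε / 2 * ‖D.ι f‖ := by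
        rw [ht]
        have : ε / (2 * (4 * D.a + 1)) * (4 * (D.a * ‖D.ι f‖)) =
            ε / 2 * ‖D.ι f‖ * (4 * D.a / (4 * D.a + 1)) := by
          field_simp
        rw [this]
        have h6 : 4 * D.a / (4 * D.a + 1) ≤ 1 := by
          rw [div_le_one (by positivity)]
          linarith
        calc ε / 2 * ‖D.ι f‖ * (4 * D.a / (4 * D.a + 1)) ≤ ε / 2 * ‖D.ι f‖ * 1 :=
              mul_le_mul_of_nonneg_left h6 (by positivity)
          _ = ε / 2 * ‖D.ι f‖ := mul_one _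
      calc |(φ (D.ι (T η f)) - z (D.ι f)) + φ (D.ι h)| ≤
            |φ (D.ι (T η f)) - z (D.ι f)| + |φ (D.ι h)| := abs_add_le _ _
        _ ≤ ε / 2 * ‖D.ι f‖ + ε / 2 * ‖D.ι f‖ := add_le_add h3 (h2.trans h5)
        _ = ε * ‖D.ι f‖ := by ring

variable [OrderTop L]

/-- the evaluations span a dense subspace of the dual -/
lemma exists_span_near (φ : StrongDual ℝ Y) {ε : ℝ} (hε : 0 < ε) :
    ∃ z ∈ Submodule.span ℝ (range D.δ), ‖φ - z‖ ≤ ε := by
  obtain ⟨z, hz, hzf⟩ := D.span_aux φ ⊤ ε hε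
  refine ⟨z, hz, D.opNorm_le_of_dense _ hε.le fun f => ?_⟩
  have : T (⊤ : L) f = f := by
    apply Subtype.ext
    funext ζ
    rw [T_apply, min_eq_left le_top]
  have h1 := hzf f
  rw [this] at h1
  simpa using h1

/-- upper estimate in the bidual -/
lemma norm_bidual_le (Φ : StrongDual ℝ (StrongDual ℝ Y)) {t : ℝ} (ht : 0 ≤ t)
    (h : VB (fun ξ => Φ (D.δ ξ)) univ (t ^ 2)) : ‖Φ‖ ≤ D.b * t := by
  have h1 : ∀ z ∈ Submodule.span ℝ (range D.δ), |Φ z| ≤ D.b * t * ‖z‖ := by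
    intro z hz
    rw [Finsupp.mem_span_range_iff_exists_finsupp] at hz
    obtain ⟨c, rfl⟩ := hz
    obtain ⟨g, hgV, hg⟩ := exists_interp (fun ξ => Φ (D.δ ξ)) (by rw [D.δ_bot, map_zero]) h
      c.support
    have h2 : Φ (c.sum fun i a => a • D.δ i) = (c.sum fun i a => a • D.δ i) (D.ι g) := by
      unfold Finsupp.sum
      rw [map_sum]
      simp only [FunLike.coe_sum, Finset.sum_apply, _root_.smul_apply,
        D.hδ, map_smul]
      refine Finset.sum_congr rfl fun x hx => ?_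
      rw [hg x hx]
    rw [h2]
    calc |(c.sum fun i a => a • D.δ i) (D.ι g)| ≤ ‖c.sum fun i a => a • D.δ i‖ * ‖D.ι g‖ :=
          (c.sum fun i a => a • D.δ i).le_opNorm _
      _ ≤ ‖c.sum fun i a => a • D.δ i‖ * (D.b * t) :=
          mul_le_mul_of_nonneg_left (D.norm_le g ht hgV) (norm_nonneg _)
      _ = _ := by ring
  refine Φ.opNorm_le_bound (mul_nonneg D.hb ht) fun φ => ?_
  refine le_of_forall_pos_le_add fun ε hε => ?_
  have hbt : 0 ≤ D.b * t := mul_nonneg D.hb ht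
  set C := ‖Φ‖ + D.b * t + 1 with hC
  have hC0 : 0 < C := by positivity
  obtain ⟨z, hz, hzφ⟩ := D.exists_span_near φ (ε := ε / C) (by positivity)
  have h2 := h1 z hz
  have h3 : ‖Φ φ‖ ≤ ‖Φ (φ - z)‖ + |Φ z| := by
    have : Φ φ = Φ (φ - z) + Φ z := by rw [map_sub]; ring
    rw [this]
    exact norm_add_le _ _
  have h4 : ‖Φ (φ - z)‖ ≤ ‖Φ‖ * (ε / C) :=
    (Φ.le_opNorm _).trans (mul_le_mul_of_nonneg_left hzφ (norm_nonneg _))
  have h5 : ‖z‖ ≤ ‖φ‖ + ε / C := by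
    calc ‖z‖ = ‖φ - (φ - z)‖ := by rw [sub_sub_cancel]
      _ ≤ ‖φ‖ + ‖φ - z‖ := norm_sub_le _ _
      _ ≤ ‖φ‖ + ε / C := by linarith
  have h6 : D.b * t * ‖z‖ ≤ D.b * t * ‖φ‖ + D.b * t * (ε / C) := by
    calc D.b * t * ‖z‖ ≤ D.b * t * (‖φ‖ + ε / C) := mul_le_mul_of_nonneg_left h5 hbt
      _ = _ := by ring
  have h7 : (‖Φ‖ + D.b * t) * (ε / C) ≤ ε := by
    rw [mul_div_assoc', div_le_iff₀ hC0, hC]
    nlinarith
  nlinarith

end JData

end Pool.Agent.Helper176.LJ
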