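import Mathlib
import Pool.Agent.Helper176.LJPack

set_option autoImplicit false

namespace Pool.Agent.Helper176.LJ

open Set Topology Filter

variable {L : Type*} [LinearOrder L]
variable {K : Type*} [TopologicalSpace K] {ev : K → L → ℝ}

omit [LinearOrder L] in
lemma continuous_Q (hev : ∀ ξ, Continuous fun k => ev k ξ) (I : Finset (L × L)) :
    Continuous fun k => Q I (ev k) := by
  unfold Q
  refine continuous_finsetSum _ fun x _ => ?_
  exact ((hev x.2).sub (hev x.1)).pow 2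

variable [OrderBot L]

lemma frag_tail (hev : ∀ ξ, Continuous fun k => ev k ξ) {M : ℝ}
    (hM : ∀ k, VB (ev k) Set.univ M) {ξ : L} (hξ : ⊥ < ξ) {ε : ℝ} (hε : 0 < ε) {U : Set K}
    (hU : IsOpen U) (hne : U.Nonempty) :
    ∃ η < ξ, ∃ W ⊆ U, IsOpen W ∧ W.Nonempty ∧ ∀ k ∈ W, VB (ev k) (Set.Ico η ξ) ε := by
  classical
  by_contra hcon
  push Not at hcon
  have key : ∀ n : ℕ, ∃ η < ξ, ∃ W ⊆ U, IsOpen W ∧ W.Nonempty ∧ ∃ I : Finset (L × L),
      IsPacking I ∧ (∀ x ∈ I, x.2 ≤ η) ∧ ∀ k ∈ W, n * ε ≤ Q I (ev k) := by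
    intro n
    induction n with
    | zero =>
      exact ⟨⊥, hξ, U, subset_rfl, hU, hne, ∅, isPacking_empty, by simp, by simp [Q]⟩
    | succ n ih =>
      obtain ⟨η, hη, W, hWU, hW, hWne, I, hI, hIη, hIQ⟩ := ih
      obtain ⟨k, hkW, hk⟩ := hcon η hη W hWU hW hWne
      unfold VB at hk
      push Not at hk
      obtain ⟨J, hJ, hJS, hJQ⟩ := hk
      have hJne : J.Nonempty := by
        rw [Finset.nonempty_iff_ne_empty]
        rintro rfl
        simp [Q] at hJQ
        linarith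
      obtain ⟨z, hz, hzmax⟩ := J.exists_max_image (fun x => x.2) hJne
      refine ⟨z.2, (hJS z hz).2.2, W ∩ {k' | ε < Q J (ev k')}, inter_subset_left.trans hWU,
        hW.inter (isOpen_lt continuous_const (continuous_Q hev J)), ⟨k, hkW, hJQ⟩, I ∪ J,
        hI.union hJ ?_, ?_, ?_⟩
      · intro x hx y hy
        exact (hIη x hx).trans (hJS y hy).1.1
      · intro x hx
        rcases Finset.mem_union.1 hx with h1 | h1
        · exact (hIη x h1).trans (hJS z hz).2.1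
        · exact hzmax x h1
      · rintro k' ⟨hk1, hk2⟩
        have e1 : Q (I ∪ J) (ev k') + Q (I ∩ J) (ev k') = Q I (ev k') + Q J (ev k') := by
          unfold Q
          exact Finset.sum_union_inter
        have e2 : Q (I ∩ J) (ev k') = 0 := by
          unfold Q
          refine Finset.sum_eq_zero fun x hx => ?_
          rw [Finset.mem_inter] at hx
          have h1 : x.1 = x.2 :=
            le_antisymm (hI.1 x hx.1) ((hIη x hx.1).trans (hJS x hx.2).1.1)
          rw [h1]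
          ring
        have h3 := hIQ k' hk1
        have h4 : ε < Q J (ev k') := hk2
        push_cast
        linarith
  obtain ⟨n, hn⟩ := exists_nat_gt (M / ε)
  obtain ⟨η, hη, W, hWU, hW, ⟨k, hk⟩, I, hI, hIη, hIQ⟩ := key n
  have h1 := hIQ k hk
  have h2 := hM k I hI (fun x _ => ⟨mem_univ _, mem_univ _⟩)
  rw [div_lt_iff₀ hε] at hn
  linarith

variable [WellFoundedLT L]

lemma frag_aux (hev : ∀ ξ, Continuous fun k => ev k ξ) {M : ℝ}
    (hM : ∀ k, VB (ev k) Set.univ M) (ξ : L) :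
    ∀ ε : ℝ, 0 < ε → ∀ U : Set K, IsOpen U → U.Nonempty →
    ∃ W ⊆ U, IsOpen W ∧ W.Nonempty ∧ ∀ k ∈ W, ∀ k' ∈ W, VB (ev k - ev k') (Set.Iio ξ) ε := by
  induction ξ using WellFoundedLT.induction with
  | _ ξ ih =>
  intro ε hε U hU hUne
  rcases eq_or_lt_of_le (bot_le : ⊥ ≤ ξ) with h0 | h0
  · refine ⟨U, subset_rfl, hU, hUne, ?_⟩
    intro k _ k' _ I hI hIS
    have : I = ∅ := by
      rw [Finset.eq_empty_iff_forall_notMem]
      intro x hx
      have := (hIS x hx).1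
      rw [← h0, mem_Iio] at this
      exact not_lt_bot this
    rw [this]
    simpa [Q] using hε.le
  · obtain ⟨δ, hδ, hδε⟩ : ∃ δ : ℝ, 0 < δ ∧ 57 * δ ^ 2 ≤ ε := by
      refine ⟨min 1 (ε / 57), lt_min one_pos (by positivity), ?_⟩
      have h1 : min 1 (ε / 57) ≤ 1 := min_le_left _ _
      have h2 : min 1 (ε / 57) ≤ ε / 57 := min_le_right _ _
      have h3 : 0 < min 1 (ε / 57) := lt_min one_pos (by positivity)
      nlinarith
    have hδ2 : 0 < δ ^ 2 := by positivity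
    obtain ⟨η, hη, W₁, hW₁U, hW₁, hW₁ne, hW₁b⟩ := frag_tail hev hM h0 hδ2 hU hUne
    obtain ⟨W₂, hW₂1, hW₂, ⟨k₀, hk₀⟩, hW₂b⟩ := ih η hη (δ ^ 2) hδ2 W₁ hW₁ hW₁ne
    refine ⟨W₂ ∩ ({k | |ev k η - ev k₀ η| < δ} ∩ {k | |ev k ⊥ - ev k₀ ⊥| < δ}),
      inter_subset_left.trans (hW₂1.trans hW₁U), hW₂.inter (IsOpen.inter ?_ ?_),
      ⟨k₀, hk₀, by simpa using hδ, by simpa using hδ⟩, ?_⟩
    · exact isOpen_lt (((hev η).sub continuous_const).abs) continuous_const
    · exact isOpen_lt (((hev ⊥).sub continuous_const).abs) continuous_const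
    · rintro k ⟨hk1, hk2, hk3⟩ k' ⟨hk1', hk2', hk3'⟩
      have hb1 := hW₂b k hk1 k' hk1'
      have hb2 := (hW₁b k (hW₂1 hk1)).sub (hW₁b k' (hW₂1 hk1'))
      have hη1 : |(ev k - ev k') η| ≤ 2 * δ := by
        simp only [mem_ofPred_eq, abs_lt] at hk2 hk2'
        rw [Pi.sub_apply, abs_le]
        constructor <;> linarith [hk2.1, hk2.2, hk2'.1, hk2'.2]
      have hη2 : |(ev k - ev k') ⊥| ≤ 2 * δ := by
        simp only [mem_ofPred_eq, abs_lt] at hk3 hk3'
        rw [Pi.sub_apply, abs_le]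
        constructor <;> linarith [hk3.1, hk3.2, hk3'.1, hk3'.2]
      have hu := VB.union (h := ev k - ev k') (S := Iio η) (T := Ico η ξ) (K := 52 * δ ^ 2)
        (fun p hp q hq => lt_of_lt_of_le hp hq.1) hb1 hb2 ?_ (by positivity)
      · rw [Iio_union_Ico_eq_Iio hη.le] at hu
        refine hu.mono ?_
        linarith
      · intro p hp q hq
        have h1 := hb1.sq_le (p := p) (q := ⊥) hp (lt_of_le_of_lt bot_le hp)
        have h2 := hb2.sq_le (p := η) (q := q) ⟨le_rfl, hη⟩ hq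
        have h3 : ((ev k - ev k') η) ^ 2 ≤ (2 * δ) ^ 2 := sq_le_sq' (by linarith [abs_le.1 hη1])
          (abs_le.1 hη1).2
        have h4 : ((ev k - ev k') ⊥) ^ 2 ≤ (2 * δ) ^ 2 := sq_le_sq' (by linarith [abs_le.1 hη2])
          (abs_le.1 hη2).2
        set A := (ev k - ev k') q
        set B := (ev k - ev k') η
        set C := (ev k - ev k') ⊥
        set D := (ev k - ev k') p
        have h5 : (A - D) ^ 2 ≤ 4 * ((A - B) ^ 2 + B ^ 2 + C ^ 2 + (C - D) ^ 2) := by
          nlinarith [sq_nonneg ((A - B) - B), sq_nonneg ((A - B) + C), sq_nonneg ((A - B) - (C - D)),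
            sq_nonneg (B + C), sq_nonneg (B - (C - D)), sq_nonneg (C + (C - D))]
        nlinarith

variable [OrderTop L]

/-- bounded families of functions of bounded quadratic variation on a well order are fragmented -/
lemma frag (hev : ∀ ξ, Continuous fun k => ev k ξ) {M : ℝ}
    (hM : ∀ k, VB (ev k) Set.univ M) {ε : ℝ} (hε : 0 < ε) {U : Set K} (hU : IsOpen U)
    (hUne : U.Nonempty) :
    ∃ W ⊆ U, IsOpen W ∧ W.Nonempty ∧ ∀ k ∈ W, ∀ k' ∈ W, VB (ev k - ev k') Set.univ ε := by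
  obtain ⟨δ, hδ, hδε⟩ : ∃ δ : ℝ, 0 < δ ∧ 57 * δ ^ 2 ≤ ε := by
    refine ⟨min 1 (ε / 57), lt_min one_pos (by positivity), ?_⟩
    have h1 : min 1 (ε / 57) ≤ 1 := min_le_left _ _
    have h2 : min 1 (ε / 57) ≤ ε / 57 := min_le_right _ _
    have h3 : 0 < min 1 (ε / 57) := lt_min one_pos (by positivity)
    nlinarith
  have hδ2 : 0 < δ ^ 2 := by positivity
  obtain ⟨W₂, hW₂1, hW₂, ⟨k₀, hk₀⟩, hW₂b⟩ := frag_aux hev hM (⊤ : L) (δ ^ 2) hδ2 U hU hUne
  refine ⟨W₂ ∩ ({k | |ev k ⊤ - ev k₀ ⊤| < δ} ∩ {k | |ev k ⊥ - ev k₀ ⊥| < δ}),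
    inter_subset_left.trans hW₂1, hW₂.inter (IsOpen.inter ?_ ?_),
    ⟨k₀, hk₀, by simpa using hδ, by simpa using hδ⟩, ?_⟩
  · exact isOpen_lt (((hev ⊤).sub continuous_const).abs) continuous_const
  · exact isOpen_lt (((hev ⊥).sub continuous_const).abs) continuous_const
  · rintro k ⟨hk1, hk2, hk3⟩ k' ⟨hk1', hk2', hk3'⟩
    have hb1 := hW₂b k hk1 k' hk1'
    have hη1 : |(ev k - ev k') ⊤| ≤ 2 * δ := by
      simp only [mem_ofPred_eq, abs_lt] at hk2 hk2'
      rw [Pi.sub_apply, abs_le]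
      constructor <;> linarith [hk2.1, hk2.2, hk2'.1, hk2'.2]
    have hη2 : |(ev k - ev k') ⊥| ≤ 2 * δ := by
      simp only [mem_ofPred_eq, abs_lt] at hk3 hk3'
      rw [Pi.sub_apply, abs_le]
      constructor <;> linarith [hk3.1, hk3.2, hk3'.1, hk3'.2]
    have hb2 : VB (ev k - ev k') ({⊤} : Set L) 0 := by
      intro I hI hIS
      unfold Q
      refine le_of_eq (Finset.sum_eq_zero fun x hx => ?_)
      have h1 := (hIS x hx).1
      have h2 := (hIS x hx).2
      rw [mem_singleton_iff] at h1 h2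
      rw [h1, h2]
      ring
    have hu := VB.union (h := ev k - ev k') (S := Iio (⊤ : L)) (T := {⊤}) (K := 52 * δ ^ 2)
      (fun p hp q hq => by rw [mem_singleton_iff.1 hq]; exact hp) hb1 hb2 ?_ (by positivity)
    · have : Iio (⊤ : L) ∪ {⊤} = univ := by
        ext x
        simp only [mem_union, mem_Iio, mem_singleton_iff, mem_univ, iff_true]
        exact (lt_or_eq_of_le le_top)
      rw [this] at hu
      refine hu.mono ?_
      linarith
    · intro p hp q hq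
      rw [mem_singleton_iff.1 hq]
      have h1 := hb1.sq_le (p := p) (q := ⊥) hp (lt_of_le_of_lt bot_le hp)
      have h3 : ((ev k - ev k') ⊤) ^ 2 ≤ (2 * δ) ^ 2 := sq_le_sq' (by linarith [abs_le.1 hη1])
        (abs_le.1 hη1).2
      have h4 : ((ev k - ev k') ⊥) ^ 2 ≤ (2 * δ) ^ 2 := sq_le_sq' (by linarith [abs_le.1 hη2])
        (abs_le.1 hη2).2
      set B := (ev k - ev k') ⊤
      set C := (ev k - ev k') ⊥
      set D := (ev k - ev k') p
      have h5 : (B - D) ^ 2 ≤ 4 * (B ^ 2 + C ^ 2 + (C - D) ^ 2) := by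
        nlinarith [sq_nonneg (B + C), sq_nonneg (B - (C - D)), sq_nonneg (C + (C - D))]
      nlinarith

end Pool.Agent.Helper176.LJ
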