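import Mathlib
import Pool.Agent.Helper176.LJFrag
import Pool.Agent.Helper176.LJDual
import Pool.Agent.Helper176.LJBall

set_option autoImplicit false

namespace Pool.Agent.Helper176.LJ

open Set Topology Filter

section General

variable {Y : Type*} [NormedAddCommGroup Y] [NormedSpace ℝ Y]

lemma tendsto_ball_iff {α : Type*} {F : Filter α} {f : α → BidualBall Y} {Φ : BidualBall Y} :
    Tendsto f F (𝓝 Φ) ↔ ∀ φ : StrongDual ℝ Y, Tendsto (fun i => (f i).1 φ) F (𝓝 (Φ.1 φ)) := by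
  have h1 : IsInducing (fun (Ψ : BidualBall Y) (φ : StrongDual ℝ Y) => Ψ.1 φ) :=
    weakDual_isInducing.comp IsInducing.subtypeVal
  rw [h1.tendsto_nhds_iff, tendsto_pi_nhds]
  rfl

instance : T2Space (BidualBall Y) := inferInstance

lemma norm_J_sub (y y' : Y) (hy : ‖y‖ ≤ 1) (hy' : ‖y'‖ ≤ 1) :
    ‖WeakDual.toStrongDual (J y hy).1 - WeakDual.toStrongDual (J y' hy').1‖ = ‖y - y'‖ := by
  have : WeakDual.toStrongDual (J y hy).1 - WeakDual.toStrongDual (J y' hy').1 =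
      NormedSpace.inclusionInDoubleDual ℝ Y (y - y') := by
    rw [map_sub]
    rfl
  rw [this]
  exact (NormedSpace.inclusionInDoubleDualLi ℝ).norm_map (y - y')

end General

variable {L : Type*} [LinearOrder L] [OrderBot L] [OrderTop L] [WellFoundedLT L]
variable {Y : Type*} [NormedAddCommGroup Y] [NormedSpace ℝ Y] (D : JData L Y)

namespace JData

include D

/-- the bidual ball is fragmented by the norm -/
lemma frag_ball {U : Set (BidualBall Y)} (hU : IsOpen U) (hne : U.Nonempty) {ε : ℝ}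
    (hε : 0 < ε) : ∃ W ⊆ U, IsOpen W ∧ W.Nonempty ∧ closure W ⊆ U ∧ ∀ Φ ∈ W, ∀ Ψ ∈ W,
      ‖WeakDual.toStrongDual Φ.1 - WeakDual.toStrongDual Ψ.1‖ ≤ ε := by
  have hbb := D.hb
  set t : ℝ := ε / (D.b + 1) with ht
  have ht0 : 0 < t := by positivity
  have h1 := frag (K := BidualBall Y) (ev := fun Φ ξ => Φ.1 (D.δ ξ))
    (fun ξ => continuous_ball_eval (D.δ ξ)) (M := D.a ^ 2) (fun Φ => ?_) (ε := t ^ 2)
    (by positivity) hU hne
  · obtain ⟨V, hVU, hV, ⟨w, hw⟩, hVb⟩ := h1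
    obtain ⟨C, ⟨hC1, hC2⟩, hCV⟩ := (closed_nhds_basis w).mem_iff.1 (hV.mem_nhds hw)
    refine ⟨interior C, interior_subset.trans (hCV.trans hVU), isOpen_interior,
      ⟨w, mem_interior_iff_mem_nhds.2 hC1⟩, ?_, ?_⟩
    · exact (closure_minimal interior_subset hC2).trans (hCV.trans hVU)
    · intro Φ hΦ Ψ hΨ
      have h2 := hVb Φ (hCV (interior_subset hΦ)) Ψ (hCV (interior_subset hΨ))
      have h3 := D.norm_bidual_le
        (WeakDual.toStrongDual Φ.1 - WeakDual.toStrongDual Ψ.1) ht0.le h2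
      refine h3.trans ?_
      rw [ht, mul_div_assoc', div_le_iff₀ (by positivity)]
      nlinarith
  · have h2 := D.VB_bidual (WeakDual.toStrongDual Φ.1)
    refine h2.mono ?_
    have h3 : ‖WeakDual.toStrongDual Φ.1‖ ≤ 1 := Φ.2
    have h4 : 0 ≤ ‖WeakDual.toStrongDual Φ.1‖ := ContinuousLinearMap.opNorm_nonneg _
    have h5 : ‖WeakDual.toStrongDual Φ.1‖ ^ 2 ≤ 1 := by nlinarith
    nlinarith [sq_nonneg D.a]

variable {A : Set (BidualBall Y)}

/-- dense countably closed sets contain points of the space in every open set -/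
lemma exists_mem_inter [CompleteSpace Y] (hA : Dense A)
    (hAc : ∀ C ⊆ A, C.Countable → closure C ⊆ A) {O : Set (BidualBall Y)} (hO : IsOpen O)
    (hne : O.Nonempty) : ∃ (y : Y) (hy : ‖y‖ ≤ 1), J y hy ∈ A ∩ O := by
  have hstep : ∀ (U : {U : Set (BidualBall Y) // IsOpen U ∧ U.Nonempty}) (n : ℕ),
      ∃ W : {U : Set (BidualBall Y) // IsOpen U ∧ U.Nonempty}, W.1 ⊆ U.1 ∧ closure W.1 ⊆ U.1 ∧
        ∀ Φ ∈ W.1, ∀ Ψ ∈ W.1,
          ‖WeakDual.toStrongDual Φ.1 - WeakDual.toStrongDual Ψ.1‖ ≤ 1 * (1 / 2) ^ n := by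
    intro U n
    obtain ⟨W, h1, h2, h3, h4, h5⟩ := D.frag_ball U.2.1 U.2.2 (ε := 1 * (1 / 2) ^ n)
      (by positivity)
    exact ⟨⟨W, h2, h3⟩, h1, h4, h5⟩
  choose nxt hn1 hn2 hn3 using hstep
  let W : ℕ → {U : Set (BidualBall Y) // IsOpen U ∧ U.Nonempty} :=
    fun n => Nat.rec ⟨O, hO, hne⟩ (fun n U => nxt U n) n
  have hWs : ∀ n, W (n + 1) = nxt (W n) n := fun n => rfl
  have hW0 : (W 0).1 = O := rfl
  have hanti : Antitone fun n => (W n).1 := by
    refine antitone_nat_of_succ_le fun n => ?_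
    show (W (n + 1)).1 ⊆ (W n).1
    rw [hWs]
    exact hn1 _ _
  choose y hy hyW using fun n => exists_J_mem (W (n + 1)).2.1 (W (n + 1)).2.2
  choose a haW haA using fun n => hA.inter_open_nonempty (W (n + 1)).1 (W (n + 1)).2.1
    (W (n + 1)).2.2
  have hsmall : ∀ n, ∀ Φ ∈ (W (n + 1)).1, ∀ Ψ ∈ (W (n + 1)).1,
      ‖WeakDual.toStrongDual Φ.1 - WeakDual.toStrongDual Ψ.1‖ ≤ 1 * (1 / 2) ^ n := by
    intro n
    rw [hWs]
    exact hn3 _ _
  have hcau : CauchySeq y := by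
    refine cauchySeq_of_le_geometric (1 / 2) 1 (by norm_num) fun n => ?_
    rw [dist_eq_norm, ← norm_J_sub _ _ (hy n) (hy (n + 1))]
    exact hsmall n _ (hyW n) _ (hanti (by omega : n + 1 ≤ n + 1 + 1) (hyW (n + 1)))
  obtain ⟨y₀, hy₀⟩ := cauchySeq_tendsto_of_complete hcau
  have hy₀1 : ‖y₀‖ ≤ 1 := le_of_tendsto hy₀.norm (Eventually.of_forall hy)
  have hJ : Tendsto (fun n => J (y n) (hy n)) atTop (𝓝 (J y₀ hy₀1)) := by
    rw [tendsto_ball_iff]
    intro φ
    simp only [J_apply]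
    exact (φ.continuous.tendsto y₀).comp hy₀
  have haT : Tendsto a atTop (𝓝 (J y₀ hy₀1)) := by
    rw [tendsto_ball_iff]
    intro φ
    have h1 : Tendsto (fun n => ((a n).1 φ - (J (y n) (hy n)).1 φ)) atTop (𝓝 0) := by
      have h2 : Tendsto (fun n : ℕ => (1 * (1 / 2 : ℝ) ^ n) * ‖φ‖) atTop (𝓝 0) := by
        have := (tendsto_pow_atTop_nhds_zero_of_lt_one (r := (1 / 2 : ℝ)) (by norm_num)
          (by norm_num)).const_mul 1 |>.mul_const ‖φ‖
        simpa using this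
      refine squeeze_zero_norm (fun n => ?_) h2
      have h3 : (a n).1 φ - (J (y n) (hy n)).1 φ =
          (WeakDual.toStrongDual (a n).1 - WeakDual.toStrongDual (J (y n) (hy n)).1) φ := rfl
      rw [h3]
      refine (ContinuousLinearMap.le_opNorm _ _).trans ?_
      exact mul_le_mul_of_nonneg_right (hsmall n _ (haW n) _ (hyW n)) (norm_nonneg _)
    have h2 := (tendsto_ball_iff.1 hJ) φ
    have h3 := h1.add h2
    simpa using h3
  refine ⟨y₀, hy₀1, ?_, ?_⟩
  · refine hAc (range a) ?_ (countable_range a) ?_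
    · rintro _ ⟨n, rfl⟩
      exact haA n
    · exact mem_closure_of_tendsto haT (Eventually.of_forall fun n => mem_range_self n)
  · have h1 : J y₀ hy₀1 ∈ closure (W 1).1 := by
      refine mem_closure_of_tendsto hJ (Eventually.of_forall fun n => ?_)
      exact hanti (by omega : 1 ≤ n + 1) (hyW n)
    have h2 : closure (W (0 + 1)).1 ⊆ (W 0).1 := by
      rw [hWs]
      exact hn2 _ _
    rw [hW0] at h2
    exact h2 h1

/-- dense countably closed subsets of the bidual ball contain the unit ball of the space -/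
lemma J_mem [CompleteSpace Y] (hA : Dense A)
    (hAc : ∀ C ⊆ A, C.Countable → closure C ⊆ A) (y : Y) (hy : ‖y‖ ≤ 1) : J y hy ∈ A := by
  have hk : ∀ s : Finset (StrongDual ℝ Y), ∀ ε > 0,
      ∃ a ∈ {a : Y | ∃ h : ‖a‖ ≤ 1, J a h ∈ A}, ∀ φ ∈ s, |φ a - φ y| < ε := by
    intro s ε hε
    have hO : IsOpen {Φ : BidualBall Y | ∀ φ ∈ s, |Φ.1 φ - φ y| < ε} := by
      have : {Φ : BidualBall Y | ∀ φ ∈ s, |Φ.1 φ - φ y| < ε} =
          ⋂ φ ∈ s, {Φ : BidualBall Y | |Φ.1 φ - φ y| < ε} := by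
        ext Φ
        simp
      rw [this]
      refine isOpen_biInter_finset fun φ _ => ?_
      exact isOpen_lt ((continuous_ball_eval φ).sub continuous_const).abs continuous_const
    obtain ⟨a, ha, h1, h2⟩ := D.exists_mem_inter hA hAc hO ⟨J y hy, fun φ _ => by
      rw [J_apply, sub_self, abs_zero]; exact hε⟩
    exact ⟨a, ⟨ha, h1⟩, fun φ hφ => h2 φ hφ⟩
  obtain ⟨S₀, hS₀, hS₀c, hS₀y⟩ := kaplansky y {a | ∃ h : ‖a‖ ≤ 1, J a h ∈ A} hk
  let f : S₀ → BidualBall Y := fun a => J (a : Y) (hS₀ a.2).choose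
  have hcount : Countable S₀ := hS₀c.to_subtype
  refine hAc (range f) ?_ (countable_range f) ?_
  · rintro _ ⟨a, rfl⟩
    exact (hS₀ a.2).choose_spec
  · refine mem_closure_of_finset fun s ε hε => ?_
    obtain ⟨a, ha, h⟩ := hS₀y s ε hε
    exact ⟨f ⟨a, ha⟩, mem_range_self _, fun φ hφ => h φ hφ⟩

end JData

end Pool.Agent.Helper176.LJ
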