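import Mathlib
import Pool.Agent.Helper176.LJMain

set_option autoImplicit false

namespace Pool.Agent.Helper176.LJ

open Set Topology Filter Cardinal

section Aux

lemma eq_of_mapClusterPt {I K : Type*} {F : Filter I} [TopologicalSpace K] {x : K} {f : I → K}
    (hx : MapClusterPt x F f) {g : K → ℝ} (hg : Continuous g) {c : ℝ}
    (hc : ∀ᶠ i in F, g (f i) = c) : g x = c := by
  by_contra hne
  have h1 : {y | g y ≠ c} ∈ 𝓝 x := (isOpen_ne_fun hg continuous_const).mem_nhds hne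
  have h2 := (mapClusterPt_iff_frequently.1 hx) _ h1
  obtain ⟨i, h3, h4⟩ := (h2.and_eventually hc).exists
  exact h3 h4

/-- recursion picking upper bounds of countable sets -/
lemma exists_rec {P : Type*} {L : Type*} [LinearOrder L] [OrderTop L] {r : P → P → Prop}
    (wf : WellFounded r) (hc : ∀ p, {q | r q p}.Countable) (G : L → Set L)
    (hGc : ∀ b < ⊤, (G b).Countable) (hGt : ∀ b < ⊤, ∀ x ∈ G b, x < ⊤)
    (hcof : ∀ S : Set L, S.Countable → (∀ x ∈ S, x < ⊤) → ∃ b < ⊤, ∀ x ∈ S, x < b) :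
    ∃ β : P → L, (∀ p, β p < ⊤) ∧ ∀ q p, r q p → ∀ x ∈ G (β q), x < β p := by
  classical
  let Φ : ∀ p : P, (∀ q, r q p → L) → L := fun p ih =>
    if h : ∃ b < ⊤, ∀ q (hq : r q p), ∀ x ∈ G (ih q hq), x < b then h.choose else ⊤
  let β : P → L := wf.fix Φ
  have hβ : ∀ p, β p = Φ p fun q _ => β q := fun p => wf.fix_eq Φ p
  have key : ∀ p, β p < ⊤ ∧ ∀ q, r q p → ∀ x ∈ G (β q), x < β p := by
    intro p
    induction p using wf.induction with
    | _ p ih =>
    have hex : ∃ b < ⊤, ∀ q (_ : r q p), ∀ x ∈ G (β q), x < b := by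
      have hcount : (⋃ q ∈ {q | r q p}, G (β q)).Countable :=
        (hc p).biUnion fun q hq => hGc _ (ih q hq).1
      obtain ⟨b, hb, h⟩ := hcof _ hcount (by
        intro x hx
        obtain ⟨q, hq, hx⟩ := mem_iUnion₂.1 hx
        exact hGt _ (ih q hq).1 x hx)
      exact ⟨b, hb, fun q hq x hx => h x (mem_iUnion₂.2 ⟨q, hq, hx⟩)⟩
    have h1 : β p = hex.choose := by
      rw [hβ]
      simp only [Φ]
      rw [dif_pos hex]
    rw [h1]
    exact hex.choose_spec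
  exact ⟨β, fun p => (key p).1, fun q p hqp => (key p).2 q hqp⟩

lemma exists_omega_one : ∃ (W : Type) (_ : LinearOrder W), WellFoundedLT W ∧ NoMaxOrder W ∧
    #W = ℵ₁ ∧ ∀ i : W, (Iio i).Countable := by
  have hWinf : ℵ₀ ≤ (ℵ₁ : Cardinal.{0}) := Cardinal.aleph0_le_aleph 1
  refine ⟨(ℵ₁ : Cardinal.{0}).ord.ToType, inferInstance, inferInstance,
    Cardinal.noMaxOrder hWinf, Cardinal.mk_ord_toType _, ?_⟩
  intro i
  have h1 : #(Iio i) < Order.succ ℵ₀ := by
    have h2 := Cardinal.mk_Iio_lt i (by simp)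
    rw [Cardinal.succ_aleph0]
    simpa using h2
  exact Cardinal.le_aleph0_iff_set_countable.1 (Order.lt_succ_iff.1 h1)

end Aux

variable {L : Type} [LinearOrder L] [OrderBot L] [OrderTop L] [WellFoundedLT L]
variable {Y : Type*} [NormedAddCommGroup Y] [NormedSpace ℝ Y] (D : JData L Y)

namespace JData

omit [WellFoundedLT L] in
/-- evaluations of a functional at the step functions are eventually constant -/
lemma ev_const_span (hbt : (⊥ : L) < ⊤) (z : StrongDual ℝ Y)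
    (hz : z ∈ Submodule.span ℝ (range D.δ)) :
    ∃ ρ < (⊤ : L), ∃ v : ℝ, ∀ β, ρ < β → β < ⊤ → z (D.ι (u β)) = v := by
  induction hz using Submodule.span_induction with
  | mem z hz =>
    obtain ⟨ξ, rfl⟩ := hz
    rcases lt_or_eq_of_le (le_top : ξ ≤ ⊤) with h | h
    · refine ⟨ξ, h, 0, fun β h1 _ => ?_⟩
      rw [D.hδ, u_apply, if_neg (not_lt.2 h1.le)]
    · refine ⟨⊥, hbt, 1, fun β _ h2 => ?_⟩
      rw [D.hδ, u_apply, if_pos (h ▸ h2)]
  | zero => exact ⟨⊥, hbt, 0, fun β _ _ => rfl⟩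
  | add z w _ _ hz hw =>
    obtain ⟨ρ, h1, v, h2⟩ := hz
    obtain ⟨ρ', h1', v', h2'⟩ := hw
    refine ⟨max ρ ρ', max_lt h1 h1', v + v', fun β h3 h4 => ?_⟩
    rw [_root_.add_apply, h2 β (lt_of_le_of_lt (le_max_left _ _) h3) h4,
      h2' β (lt_of_le_of_lt (le_max_right _ _) h3) h4]
  | smul a z _ hz =>
    obtain ⟨ρ, h1, v, h2⟩ := hz
    refine ⟨ρ, h1, a * v, fun β h3 h4 => ?_⟩
    rw [_root_.smul_apply, h2 β h3 h4, smul_eq_mul]

omit [OrderTop L] [WellFoundedLT L] in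
lemma norm_u_le (β : L) : ‖D.ι (u β)‖ ≤ D.b := by
  have := D.norm_le (u β) (t := 1) zero_le_one (by simpa using VB_u β)
  simpa using this

lemma ev_const (hcof : ∀ S : Set L, S.Countable → (∀ x ∈ S, x < ⊤) → ∃ b < ⊤, ∀ x ∈ S, x < b)
    (φ : StrongDual ℝ Y) :
    ∃ ρ < (⊤ : L), ∃ v : ℝ, ∀ β, ρ < β → β < ⊤ → φ (D.ι (u β)) = v := by
  have hbt : (⊥ : L) < ⊤ := by
    obtain ⟨b, hb, _⟩ := hcof ∅ countable_empty (by simp)
    exact lt_of_le_of_lt bot_le hb
  have h1 : ∀ n : ℕ, ∃ z ∈ Submodule.span ℝ (range D.δ), ‖φ - z‖ ≤ 1 / ((n : ℝ) + 1) :=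
    fun n => D.exists_span_near φ (by positivity)
  choose z hz hzn using h1
  choose ρ hρ v hv using fun n => D.ev_const_span hbt (z n) (hz n)
  obtain ⟨b, hb, hbn⟩ := hcof (range ρ) (countable_range ρ) (by
    rintro _ ⟨n, rfl⟩
    exact hρ n)
  obtain ⟨b', hb', hbb'⟩ := hcof {b} (countable_singleton b) (by simpa using hb)
  have hbb : b < b' := hbb' b rfl
  refine ⟨b, hb, φ (D.ι (u b')), fun β h3 h4 => ?_⟩
  have hcl : ∀ n : ℕ, |φ (D.ι (u β)) - φ (D.ι (u b'))| ≤ 2 * D.b * (1 / ((n : ℝ) + 1)) := by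
    intro n
    have e1 : z n (D.ι (u β)) = v n := hv n β ((hbn _ (mem_range_self n)).trans h3) h4
    have e2 : z n (D.ι (u b')) = v n := hv n b' ((hbn _ (mem_range_self n)).trans hbb) hb'
    have e3 : φ (D.ι (u β)) - φ (D.ι (u b')) =
        (φ - z n) (D.ι (u β)) - (φ - z n) (D.ι (u b')) := by
      rw [_root_.sub_apply, _root_.sub_apply, e1, e2]
      ring
    rw [e3]
    have b1 : ∀ γ : L, |(φ - z n) (D.ι (u γ))| ≤ (1 / ((n : ℝ) + 1)) * D.b := by
      intro γ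
      calc |(φ - z n) (D.ι (u γ))| ≤ ‖φ - z n‖ * ‖D.ι (u γ)‖ := (φ - z n).le_opNorm _
        _ ≤ (1 / ((n : ℝ) + 1)) * D.b :=
          mul_le_mul (hzn n) (D.norm_u_le γ) (norm_nonneg _) (by positivity)
    calc |(φ - z n) (D.ι (u β)) - (φ - z n) (D.ι (u b'))| ≤
          |(φ - z n) (D.ι (u β))| + |(φ - z n) (D.ι (u b'))| := abs_sub _ _
      _ ≤ (1 / ((n : ℝ) + 1)) * D.b + (1 / ((n : ℝ) + 1)) * D.b := add_le_add (b1 _) (b1 _)
      _ = _ := by ring
  have hlim : Tendsto (fun n : ℕ => 2 * D.b * (1 / ((n : ℝ) + 1))) atTop (𝓝 0) := by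
    have := tendsto_one_div_add_atTop_nhds_zero_nat (𝕜 := ℝ) |>.const_mul (2 * D.b)
    simpa using this
  have h0 : |φ (D.ι (u β)) - φ (D.ι (u b'))| ≤ 0 := ge_of_tendsto' hlim hcl
  exact sub_eq_zero.1 (abs_nonpos_iff.1 h0)

section Contra

variable {Γ : Type*} {h : BidualBall Y → Γ → ℝ}

lemma countably_closed (hcont : Continuous h) (C : Set (BidualBall Y))
    (hC : C ⊆ {x | {γ | h x γ ≠ 0}.Countable}) (hcount : C.Countable) :
    closure C ⊆ {x | {γ | h x γ ≠ 0}.Countable} := by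
  intro x hx
  have hsub : {γ | h x γ ≠ 0} ⊆ ⋃ c ∈ C, {γ | h c γ ≠ 0} := by
    intro γ hγ
    by_contra hcon
    simp only [mem_iUnion, not_exists, mem_ofPred_eq, not_not] at hcon
    have hcl : IsClosed {y | h y γ = 0} :=
      isClosed_eq ((continuous_apply γ).comp hcont) continuous_const
    exact hγ (closure_minimal (fun c hc => hcon c hc) hcl hx)
  exact (hcount.biUnion fun c hc => hC hc).mono hsub

include D in
theorem contra [CompleteSpace Y] (hcont : Continuous h) (hinj : Function.Injective h)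
    (hd : Dense {x | {γ | h x γ ≠ 0}.Countable})
    (hcof : ∀ S : Set L, (∀ x ∈ S, x < ⊤) → #S ≤ ℵ₁ → ∃ b < ⊤, ∀ x ∈ S, x < b) : False := by
  classical
  have hcofc : ∀ S : Set L, S.Countable → (∀ x ∈ S, x < ⊤) → ∃ b < ⊤, ∀ x ∈ S, x < b := by
    intro S hS hS2
    refine hcof S hS2 ((Cardinal.le_aleph0_iff_set_countable.2 hS).trans ?_)
    exact Cardinal.aleph0_le_aleph 1
  have hbb := D.hb
  -- the step functions in the ball
  set c₀ : ℝ := 1 / (D.b + 1) with hc₀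
  have hc₀pos : 0 < c₀ := by positivity
  have hkn : ∀ β : L, ‖c₀ • D.ι (u β)‖ ≤ 1 := by
    intro β
    rw [norm_smul, Real.norm_eq_abs, abs_of_pos hc₀pos, hc₀, one_div_mul_eq_div,
      div_le_one (by positivity)]
    linarith [D.norm_u_le β]
  set k : L → BidualBall Y := fun β => J (c₀ • D.ι (u β)) (hkn β) with hk
  have hkφ : ∀ β (φ : StrongDual ℝ Y), (k β).1 φ = c₀ * φ (D.ι (u β)) := by
    intro β φ
    rw [hk, J_apply, map_smul, smul_eq_mul]
  have hkδ : ∀ β ξ : L, (k β).1 (D.δ ξ) = c₀ * (if β < ξ then 1 else 0) := by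
    intro β ξ
    rw [hkφ, D.hδ, u_apply]
  have hkA : ∀ β, {γ | h (k β) γ ≠ 0}.Countable := fun β =>
    D.J_mem hd (fun C hC hc => countably_closed hcont C hC hc) _ (hkn β)
  -- the limit at the top
  obtain ⟨b₀, hb₀, _⟩ := hcofc ∅ countable_empty (by simp)
  have : Nonempty (Iio (⊤ : L)) := ⟨⟨b₀, hb₀⟩⟩
  obtain ⟨x, hx⟩ := exists_clusterPt_of_compactSpace
    (map (fun β : Iio (⊤ : L) => k β) atTop)
  have hx' : MapClusterPt x atTop (fun β : Iio (⊤ : L) => k β) := hx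
  have hxT : Tendsto (fun β : Iio (⊤ : L) => k β) atTop (𝓝 x) := by
    rw [tendsto_ball_iff]
    intro φ
    obtain ⟨ρ, hρ, v, hv⟩ := D.ev_const hcofc φ
    obtain ⟨b, hb, hρb⟩ := hcofc {ρ} (countable_singleton ρ) (by simpa using hρ)
    have hρb' : ρ < b := hρb ρ rfl
    have hev : ∀ᶠ β : Iio (⊤ : L) in atTop, (k β).1 φ = c₀ * v := by
      filter_upwards [eventually_ge_atTop (⟨b, hb⟩ : Iio (⊤ : L))] with β hβ
      have hβ' : b ≤ (β : L) := hβ
      rw [hkφ, hv β (lt_of_lt_of_le hρb' hβ') β.2]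
    have h1 : x.1 φ = c₀ * v := eq_of_mapClusterPt hx' (continuous_ball_eval φ) hev
    rw [h1]
    exact tendsto_const_nhds.congr' (hev.mono fun β hβ => hβ.symm)
  have hρ : ∀ γ : Γ, ∃ ρ < (⊤ : L), ∀ β, ρ < β → β < ⊤ → h (k β) γ = h x γ := by
    intro γ
    have hg : Continuous fun y => h y γ := (continuous_apply γ).comp hcont
    have h1 : Tendsto (fun β : Iio (⊤ : L) => h (k β) γ) atTop (𝓝 (h x γ)) :=
      (hg.tendsto x).comp hxT
    have h2 : ∀ n : ℕ, ∃ b : Iio (⊤ : L), ∀ β, b ≤ β →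
        |h (k β) γ - h x γ| < 1 / ((n : ℝ) + 1) := by
      intro n
      have := (Metric.tendsto_nhds.1 h1) (1 / ((n : ℝ) + 1)) (by positivity)
      obtain ⟨b, hb⟩ := eventually_atTop.1 this
      exact ⟨b, fun β hβ => by simpa [Real.dist_eq] using hb β hβ⟩
    choose b hb using h2
    obtain ⟨ρ, hρ, hρb⟩ := hcofc (range fun n => (b n : L)) (countable_range _) (by
      rintro _ ⟨n, rfl⟩
      exact (b n).2)
    refine ⟨ρ, hρ, fun β h3 h4 => ?_⟩
    have h5 : ∀ n : ℕ, |h (k β) γ - h x γ| ≤ 1 / ((n : ℝ) + 1) := fun n =>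
      (hb n ⟨β, h4⟩ ((hρb _ (mem_range_self n)).trans h3).le).le
    have h6 : |h (k β) γ - h x γ| ≤ 0 :=
      ge_of_tendsto' tendsto_one_div_add_atTop_nhds_zero_nat h5
    exact sub_eq_zero.1 (abs_nonpos_iff.1 h6)
  choose ρ hρt hρ using hρ
  -- index set
  obtain ⟨W, iW, hWwf, hWmax, hWmk, hWc⟩ := exists_omega_one
  have hWinf : ℵ₀ ≤ (ℵ₁ : Cardinal.{0}) := Cardinal.aleph0_le_aleph 1
  have hPc : ∀ p : W × ℕ, {q | Prod.Lex (· < ·) (· < ·) q p}.Countable := by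
    rintro ⟨i, n⟩
    have h1 : {q : W × ℕ | Prod.Lex (· < ·) (· < ·) q (i, n)} ⊆ (insert i (Iio i)) ×ˢ Set.univ := by
      rintro ⟨j, m⟩ hq
      refine ⟨?_, mem_univ _⟩
      rw [mem_ofPred_eq, Prod.lex_def] at hq
      rcases hq with hq | hq
      · exact mem_insert_of_mem _ hq
      · exact hq.1 ▸ mem_insert _ _
    exact (((hWc i).insert i).prod countable_univ).mono h1
  have hwf : WellFounded (Prod.Lex (· < ·) (· < ·) : W × ℕ → W × ℕ → Prop) :=
    WellFounded.prod_lex wellFounded_lt wellFounded_lt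
  obtain ⟨β, hβt, hβ⟩ := exists_rec hwf hPc (fun b => insert b (ρ '' {γ | h (k b) γ ≠ 0}))
    (fun b _ => ((hkA b).image ρ).insert b) (fun b hb x hx => by
      rcases hx with rfl | ⟨γ, _, rfl⟩
      · exact hb
      · exact hρt γ) hcofc
  have hβlt : ∀ q p, Prod.Lex (· < ·) (· < ·) q p → β q < β p :=
    fun q p hqp => hβ q p hqp _ (mem_insert _ _)
  have hβρ : ∀ q p, Prod.Lex (· < ·) (· < ·) q p → ∀ γ, h (k (β q)) γ ≠ 0 → ρ γ < β p :=
    fun q p hqp γ hγ => hβ q p hqp _ (mem_insert_of_mem _ ⟨γ, hγ, rfl⟩)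
  set T : W → Set Γ := fun i => {γ | ∃ p : W × ℕ, p.1 ≤ i ∧ h (k (β p)) γ ≠ 0} with hT
  -- cluster points
  have hcl : ∀ i : W, ∃ y, MapClusterPt y atTop fun n : ℕ => k (β (i, n)) := fun i =>
    exists_clusterPt_of_compactSpace _
  choose y hy using hcl
  have hyT : ∀ i γ, γ ∈ T i → h (y i) γ = h x γ := by
    rintro i γ ⟨⟨j, m⟩, hj, hγ⟩
    refine eq_of_mapClusterPt (hy i) (g := fun z => h z γ) ((continuous_apply γ).comp hcont) ?_
    filter_upwards [eventually_gt_atTop m] with n hn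
    refine hρ γ _ (hβρ (j, m) (i, n) ?_ γ hγ) (hβt _)
    rw [Prod.lex_def]
    rcases lt_or_eq_of_le hj with h1 | h1
    · exact Or.inl h1
    · exact Or.inr ⟨h1, hn⟩
  have hyN : ∀ i γ, γ ∉ T i → h (y i) γ = 0 := by
    intro i γ hγ
    refine eq_of_mapClusterPt (hy i) (g := fun z => h z γ) ((continuous_apply γ).comp hcont) ?_
    refine Eventually.of_forall fun n => ?_
    by_contra hne
    exact hγ ⟨(i, n), le_rfl, hne⟩
  have hyne : ∀ i j, i < j → y i ≠ y j := by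
    intro i j hij heq
    have h1 : (y i).1 (D.δ (β (j, 0))) = c₀ := by
      refine eq_of_mapClusterPt (hy i) (continuous_ball_eval _) ?_
      refine Eventually.of_forall fun n => ?_
      rw [hkδ, if_pos (hβlt _ _ (Prod.lex_def.2 (Or.inl hij))), mul_one]
    have h2 : (y j).1 (D.δ (β (j, 0))) = 0 := by
      refine eq_of_mapClusterPt (hy j) (continuous_ball_eval _) ?_
      filter_upwards [eventually_gt_atTop 0] with n hn
      rw [hkδ, if_neg (not_lt.2 (hβlt (j, 0) (j, n) (Prod.lex_def.2 (Or.inr ⟨rfl, hn⟩))).le),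
        mul_zero]
    rw [heq, h2] at h1
    exact hc₀pos.ne h1
  have hsep : ∀ i j, i < j → ∃ γ, γ ∈ T j ∧ γ ∉ T i ∧ h x γ ≠ 0 := by
    intro i j hij
    by_contra hcon
    push Not at hcon
    apply hyne i j hij
    apply hinj
    funext γ
    by_cases h1 : γ ∈ T i
    · have h2 : γ ∈ T j := by
        obtain ⟨p, hp, h3⟩ := h1
        exact ⟨p, hp.trans hij.le, h3⟩
      rw [hyT i γ h1, hyT j γ h2]
    · by_cases h2 : γ ∈ T j
      · rw [hyN i γ h1, hyT j γ h2, hcon γ h2 h1]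
      · rw [hyN i γ h1, hyN j γ h2]
  -- the union of the supports meets the support of the limit in a countable set
  have hE : {γ | (∃ i, γ ∈ T i) ∧ h x γ ≠ 0}.Countable := by
    obtain ⟨b, hb, hbρ⟩ := hcof (⋃ p : W × ℕ, ρ '' {γ | h (k (β p)) γ ≠ 0}) (by
      intro z hz
      obtain ⟨p, γ, _, rfl⟩ := mem_iUnion.1 hz
      exact hρt γ) (by
      refine (Cardinal.mk_iUnion_le_sum_mk).trans ?_
      refine (Cardinal.sum_le_sum _ (fun _ => ℵ₀) fun p =>
        Cardinal.le_aleph0_iff_set_countable.2 ((hkA _).image ρ)).trans ?_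
      rw [Cardinal.sum_const', Cardinal.mk_prod, Cardinal.lift_id, Cardinal.lift_id, hWmk,
        Cardinal.mk_nat, Cardinal.mul_aleph0_eq hWinf, Cardinal.mul_aleph0_eq hWinf])
    refine (hkA b).mono ?_
    rintro γ ⟨⟨i, p, hp, h1⟩, h2⟩
    show h (k b) γ ≠ 0
    rw [hρ γ b (hbρ _ (mem_iUnion.2 ⟨p, γ, h1, rfl⟩)) hb]
    exact h2
  -- an uncountable set inside a countable one
  have hsucc : ∀ i : W, ∃ j, i < j ∧ ∀ l, i < l → j ≤ l := by
    intro i
    have hne : (Ioi i).Nonempty := exists_gt i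
    exact ⟨wellFounded_lt.min (Ioi i) hne, wellFounded_lt.min_mem (Ioi i) hne,
      fun l hl => not_lt.1 (wellFounded_lt.not_lt_min (Ioi i) hl)⟩
  choose s hs1 hs2 using hsucc
  choose e he1 he2 he3 using fun i => hsep i (s i) (hs1 i)
  have heinj : Function.Injective fun i => (⟨e i, ⟨s i, he1 i⟩, he3 i⟩ :
      {γ | (∃ i, γ ∈ T i) ∧ h x γ ≠ 0}) := by
    intro i j hij
    have hij' : e i = e j := congrArg Subtype.val hij
    rcases lt_trichotomy i j with h1 | h1 | h1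
    · exfalso
      apply he2 j
      rw [← hij']
      obtain ⟨p, hp, h3⟩ := he1 i
      exact ⟨p, hp.trans (hs2 i j h1), h3⟩
    · exact h1
    · exfalso
      apply he2 i
      rw [hij']
      obtain ⟨p, hp, h3⟩ := he1 j
      exact ⟨p, hp.trans (hs2 j i h1), h3⟩
  have : Countable {γ | (∃ i, γ ∈ T i) ∧ h x γ ≠ 0} := hE.to_subtype
  have hWcount : Countable W := heinj.countable
  have h1 : #W ≤ ℵ₀ := Cardinal.mk_le_aleph0_iff.2 hWcount
  rw [hWmk] at h1
  exact absurd h1 (not_le.2 Cardinal.aleph0_lt_aleph_one)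

end Contra

end JData

end Pool.Agent.Helper176.LJ
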