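import Mathlib
import Pool.Agent.Helper176.LJVald

set_option autoImplicit false

namespace Pool.Agent.Helper176.LJ

open Set Topology Filter Cardinal
open scoped ENNReal

section Order

lemma exists_L : ∃ (L : Type) (_ : LinearOrder L) (_ : OrderBot L) (_ : OrderTop L),
    WellFoundedLT L ∧
    ∀ S : Set L, (∀ x ∈ S, x < ⊤) → #S ≤ ℵ₁ → ∃ b < ⊤, ∀ x ∈ S, x < b := by
  classical
  let c : Cardinal.{0} := Order.succ ℵ₁
  have hreg : c.IsRegular := Cardinal.isRegular_succ (Cardinal.aleph0_le_aleph 1)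
  let M : Type := c.ord.ToType
  have hMmk : #M = c := Cardinal.mk_ord_toType _
  have hMne : Nonempty M := by
    rw [← Cardinal.mk_ne_zero_iff, hMmk]
    exact hreg.ne_zero
  let bM : OrderBot M :=
    { bot := wellFounded_lt.min (Set.univ : Set M) Set.univ_nonempty
      bot_le := fun a => not_lt.1 (wellFounded_lt.not_lt_min _ (mem_univ a)) }
  refine ⟨WithTop M, inferInstance, inferInstance, inferInstance, inferInstance, ?_⟩
  intro S hS hSc
  set S' : Set M := {m | (m : WithTop M) ∈ S} with hS'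
  have hle : #S' ≤ #S := by
    refine Cardinal.mk_le_of_injective (f := fun m : S' => (⟨((m : M) : WithTop M), m.2⟩ : S)) ?_
    intro a b hab
    have := congrArg Subtype.val hab
    exact Subtype.ext (WithTop.coe_injective this)
  have hcofM : Order.cof M = c := by
    have h1 : Order.cof M = c.ord.cof := Ordinal.cof_toType _
    rw [h1, hreg.cof_ord]
  have hnc : ¬ IsCofinal S' := by
    intro hcon
    have h1 := Order.cof_le hcon
    rw [hcofM] at h1
    exact absurd ((h1.trans hle).trans hSc) (not_le.2 (Order.lt_succ _))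
  obtain ⟨x, hx⟩ := not_isCofinal_iff.1 hnc
  refine ⟨(x : WithTop M), WithTop.coe_lt_top x, fun y hy => ?_⟩
  obtain ⟨m, rfl⟩ := WithTop.ne_top_iff_exists.1 (hS y hy).ne
  exact WithTop.coe_lt_coe.2 (hx m hy)

end Order

variable (L : Type) [LinearOrder L] [OrderBot L]

/-- packings as an index type -/
abbrev Pk := {I : Finset (L × L) // IsPacking I}

/-- fibres -/
abbrev Fib (I : Pk L) := EuclideanSpace ℝ I.1

variable {L}

/-- increments of a function along a packing -/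
noncomputable def incr (f : L → ℝ) (I : Pk L) : Fib L I :=
  WithLp.toLp 2 fun x => f x.1.2 - f x.1.1

omit [OrderBot L] in
lemma incr_norm_sq (f : L → ℝ) (I : Pk L) : ‖incr f I‖ ^ 2 = Q I.1 f := by
  rw [EuclideanSpace.norm_sq_eq]
  unfold Q incr
  rw [← Finset.sum_coe_sort I.1 (fun x => (f x.2 - f x.1) ^ 2)]
  refine Finset.sum_congr rfl fun x _ => ?_
  simp

lemma incr_mem (f : X₀ L) : Memℓp (E := Fib L) (incr (f : L → ℝ)) ∞ := by
  obtain ⟨M, hM⟩ := exists_VB f
  refine memℓp_infty ⟨Real.sqrt M, ?_⟩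
  rintro _ ⟨I, rfl⟩
  refine Real.le_sqrt_of_sq_le ?_
  rw [incr_norm_sq]
  exact hM I.1 I.2 fun _ _ => ⟨mem_univ _, mem_univ _⟩

/-- the embedding of the step functions -/
noncomputable def emb : X₀ L →ₗ[ℝ] lp (Fib L) ∞ where
  toFun f := ⟨incr (f : L → ℝ), incr_mem f⟩
  map_add' f g := by
    apply Subtype.ext
    funext I
    show incr _ I = incr _ I + incr _ I
    ext x
    simp [incr]
    ring
  map_smul' c f := by
    apply Subtype.ext
    funext I
    show incr _ I = c • incr _ I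
    ext x
    simp [incr]
    ring

lemma emb_apply (f : X₀ L) (I : Pk L) : (emb f : ∀ I, Fib L I) I = incr (f : L → ℝ) I := rfl

lemma Q_le_emb (f : X₀ L) (I : Pk L) : Q I.1 (f : L → ℝ) ≤ ‖emb f‖ ^ 2 := by
  rw [← incr_norm_sq, ← emb_apply]
  exact pow_le_pow_left₀ (norm_nonneg _) (lp.norm_apply_le_norm (by simp) _ _) 2

lemma emb_le (f : X₀ L) {M : ℝ} (hM : VB (f : L → ℝ) univ M) : ‖emb f‖ ^ 2 ≤ M := by
  have h1 : ‖emb f‖ ≤ Real.sqrt M := by
    refine lp.norm_le_of_forall_le (Real.sqrt_nonneg _) fun I => ?_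
    refine Real.le_sqrt_of_sq_le ?_
    rw [emb_apply, incr_norm_sq]
    exact hM I.1 I.2 fun _ _ => ⟨mem_univ _, mem_univ _⟩
  calc ‖emb f‖ ^ 2 ≤ (Real.sqrt M) ^ 2 := pow_le_pow_left₀ (norm_nonneg _) h1 2
    _ = M := Real.sq_sqrt hM.nonneg

variable (L)

/-- the long James space -/
noncomputable abbrev LJS : Submodule ℝ (lp (Fib L) ∞) :=
  (LinearMap.range (emb (L := L))).topologicalClosure

instance : CompleteSpace (LJS L) :=
  (Submodule.isClosed_topologicalClosure _).completeSpace_coe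

/-- the packing with one interval from the bottom -/
def Ip (ξ : L) : Pk L := ⟨{(⊥, ξ)}, isPacking_singleton bot_le⟩

/-- evaluation functionals -/
noncomputable def evF (ξ : L) : StrongDual ℝ (LJS L) :=
  LinearMap.mkContinuous
    { toFun := fun x => ((x : lp (Fib L) ∞) : ∀ I, Fib L I) (Ip L ξ)
        ⟨(⊥, ξ), Finset.mem_singleton_self _⟩
      map_add' := fun _ _ => rfl
      map_smul' := fun _ _ => rfl } 1 (by
    intro x
    rw [one_mul]
    refine (PiLp.norm_apply_le _ _).trans ?_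
    exact lp.norm_apply_le_norm (by simp) (x : lp (Fib L) ∞) (Ip L ξ))

/-- the data of the long James space -/
noncomputable def ljData : JData L (LJS L) where
  ι := (emb (L := L)).codRestrict (LJS L) fun f =>
    Submodule.le_topologicalClosure _ (LinearMap.mem_range_self _ f)
  dense := by
    intro x
    rw [closure_subtype]
    have h1 : (x : lp (Fib L) ∞) ∈ closure (LinearMap.range (emb (L := L)) : Set (lp (Fib L) ∞)) :=
      x.2
    refine closure_mono ?_ h1
    rintro _ ⟨f, rfl⟩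
    exact ⟨_, ⟨f, rfl⟩, rfl⟩
  a := 1
  b := 1
  ha := zero_le_one
  hb := zero_le_one
  lower := by
    intro f I hI
    rw [one_pow, one_mul]
    exact Q_le_emb f ⟨I, hI⟩
  upper := by
    intro f M hM
    rw [one_pow, one_mul]
    exact emb_le f hM
  δ := evF L
  hδ := by
    intro f ξ
    show (f : L → ℝ) ξ - (f : L → ℝ) ⊥ = _
    rw [X₀_bot, sub_zero]

variable {L}

/-- transfer along an isomorphism -/
noncomputable def JData.transfer {X Y : Type*} [NormedAddCommGroup X] [NormedSpace ℝ X]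
    [NormedAddCommGroup Y] [NormedSpace ℝ Y] (D : JData L X) (e : Y ≃L[ℝ] X) : JData L Y where
  ι := (e.symm : X →ₗ[ℝ] Y) ∘ₗ D.ι
  dense := by
    have h1 : DenseRange (e.symm : X → Y) := e.symm.surjective.denseRange
    exact h1.comp D.dense e.symm.continuous
  a := D.a * ‖(e : Y →L[ℝ] X)‖
  b := ‖(e.symm : X →L[ℝ] Y)‖ * D.b
  ha := mul_nonneg D.ha (norm_nonneg _)
  hb := mul_nonneg (norm_nonneg _) D.hb
  lower := by
    intro f I hI
    refine (D.lower f I hI).trans ?_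
    have h1 : ‖D.ι f‖ ≤ ‖(e : Y →L[ℝ] X)‖ * ‖e.symm (D.ι f)‖ := by
      have := (e : Y →L[ℝ] X).le_opNorm (e.symm (D.ι f))
      simpa using this
    calc D.a ^ 2 * ‖D.ι f‖ ^ 2 ≤ D.a ^ 2 * (‖(e : Y →L[ℝ] X)‖ * ‖e.symm (D.ι f)‖) ^ 2 :=
          mul_le_mul_of_nonneg_left (pow_le_pow_left₀ (norm_nonneg _) h1 2) (sq_nonneg _)
      _ = (D.a * ‖(e : Y →L[ℝ] X)‖) ^ 2 * ‖e.symm (D.ι f)‖ ^ 2 := by ring
  upper := by
    intro f M hM
    have h1 : ‖e.symm (D.ι f)‖ ≤ ‖(e.symm : X →L[ℝ] Y)‖ * ‖D.ι f‖ :=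
      (e.symm : X →L[ℝ] Y).le_opNorm _
    calc ‖e.symm (D.ι f)‖ ^ 2 ≤ (‖(e.symm : X →L[ℝ] Y)‖ * ‖D.ι f‖) ^ 2 :=
          pow_le_pow_left₀ (norm_nonneg _) h1 2
      _ = ‖(e.symm : X →L[ℝ] Y)‖ ^ 2 * ‖D.ι f‖ ^ 2 := by rw [mul_pow]
      _ ≤ ‖(e.symm : X →L[ℝ] Y)‖ ^ 2 * (D.b ^ 2 * M) :=
          mul_le_mul_of_nonneg_left (D.upper f M hM) (sq_nonneg _)
      _ = _ := by ring
  δ := fun ξ => (D.δ ξ).comp (e : Y →L[ℝ] X)
  hδ := by
    intro f ξ
    rw [← D.hδ f ξ]
    show D.δ ξ (e (e.symm (D.ι f))) = _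
    rw [e.apply_symm_apply]

end Pool.Agent.Helper176.LJ
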