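import Mathlib
import Pool.Agent.Helper176.LJSpace

set_option autoImplicit false

namespace Pool.Agent.Helper176.LJ

open Set Topology Filter

lemma mem_closure_of_norm {E : Type*} [NormedAddCommGroup E] {s : Set E} {a : E}
    (h : ∀ ε : ℝ, 0 < ε → ∃ b ∈ s, ‖a - b‖ ≤ ε) : a ∈ closure s := by
  refine Metric.mem_closure_iff.2 fun ε hε => ?_
  obtain ⟨b, hb, hab⟩ := h (ε / 2) (by positivity)
  exact ⟨b, hb, by rw [dist_eq_norm]; linarith⟩

variable {L : Type*} [LinearOrder L] [OrderBot L] [OrderTop L] [WellFoundedLT L]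
variable {Y : Type*} [NormedAddCommGroup Y] [NormedSpace ℝ Y] (D : JData L Y)

namespace JData

include D in
/-- separable subspaces have separable duals -/
theorem separable_dual (S : Submodule ℝ Y) (hS : TopologicalSpace.SeparableSpace S) :
    TopologicalSpace.SeparableSpace (StrongDual ℝ S) := by
  classical
  -- approximations of a dense sequence by step functions
  have hne : Nonempty S := ⟨0⟩
  set s : ℕ → S := TopologicalSpace.denseSeq S with hs
  have h1 : ∀ (n m : ℕ), ∃ f : X₀ L, dist (s n : Y) (D.ι f) < 1 / ((m : ℝ) + 1) := by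
    intro n m
    obtain ⟨f, hf⟩ := D.dense.exists_dist_lt (s n : Y) (ε := 1 / ((m : ℝ) + 1)) (by positivity)
    exact ⟨f, hf⟩
  choose f hf using h1
  choose t ht using fun n m => (f n m).2.2
  set N : Set L := insert ⊤ (⋃ p : ℕ × ℕ, (t p.1 p.2 : Set L)) with hN
  have hNc : N.Countable :=
    (countable_iUnion fun p : ℕ × ℕ => (t p.1 p.2).countable_toSet).insert _
  have hmin : ∀ ξ : L, ∃ m ∈ N, ξ ≤ m ∧ ∀ σ ∈ N, ξ ≤ σ → m ≤ σ := by
    intro ξ
    have hne : {σ | σ ∈ N ∧ ξ ≤ σ}.Nonempty := ⟨⊤, mem_insert _ _, le_top⟩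
    have h2 := wellFounded_lt.min_mem {σ | σ ∈ N ∧ ξ ≤ σ} hne
    exact ⟨_, h2.1, h2.2, fun σ hσ hσ2 => not_lt.1 (wellFounded_lt.not_lt_min _
      (show σ ∈ {σ | σ ∈ N ∧ ξ ≤ σ} from ⟨hσ, hσ2⟩))⟩
  choose m hmN hm1 hm2 using hmin
  have hδ : ∀ ξ, (D.δ ξ).comp S.subtypeL = (D.δ (m ξ)).comp S.subtypeL := by
    intro ξ
    have h2 : ∀ n k, D.δ ξ (D.ι (f n k)) = D.δ (m ξ) (D.ι (f n k)) := by
      intro n k
      rw [D.hδ, D.hδ]
      refine ht n k _ _ fun σ hσ => ⟨fun h => hm2 ξ σ ?_ h, fun h => (hm1 ξ).trans h⟩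
      exact mem_insert_of_mem _ (mem_iUnion.2 ⟨(n, k), hσ⟩)
    have h3 : ∀ n, D.δ ξ (s n : Y) = D.δ (m ξ) (s n : Y) := by
      intro n
      have hlim : Tendsto (fun k => D.ι (f n k)) atTop (𝓝 (s n : Y)) := by
        rw [tendsto_iff_dist_tendsto_zero]
        refine squeeze_zero (fun _ => dist_nonneg) (fun k => ?_)
          tendsto_one_div_add_atTop_nhds_zero_nat
        rw [dist_comm]
        exact (hf n k).le
      have e1 := ((D.δ ξ).continuous.tendsto _).comp hlim
      have e2 := ((D.δ (m ξ)).continuous.tendsto _).comp hlim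
      refine tendsto_nhds_unique e1 (e2.congr fun k => ?_)
      exact (h2 n k).symm
    have h4 : (fun x : S => D.δ ξ (x : Y)) = fun x : S => D.δ (m ξ) (x : Y) := by
      refine Continuous.ext_on (TopologicalSpace.denseRange_denseSeq S) ?_ ?_ ?_
      · exact (D.δ ξ).continuous.comp continuous_subtype_val
      · exact (D.δ (m ξ)).continuous.comp continuous_subtype_val
      · rintro _ ⟨n, rfl⟩
        exact h3 n
    ext x
    exact congrFun h4 x
  -- the countable spanning set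
  set R : StrongDual ℝ Y →ₗ[ℝ] StrongDual ℝ S :=
    { toFun := fun φ => φ.comp S.subtypeL
      map_add' := fun _ _ => rfl
      map_smul' := fun _ _ => rfl } with hR
  set C : Set (StrongDual ℝ S) := R '' (D.δ '' N) with hC
  have hCc : C.Countable := (hNc.image _).image _
  have hrange : R '' (range D.δ) ⊆ C := by
    rintro _ ⟨_, ⟨ξ, rfl⟩, rfl⟩
    exact ⟨D.δ (m ξ), ⟨m ξ, hmN ξ, rfl⟩, (hδ ξ).symm⟩
  have hdense : ∀ ψ : StrongDual ℝ S, ψ ∈ closure (Submodule.span ℝ C : Set (StrongDual ℝ S)) := by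
    intro ψ
    refine mem_closure_of_norm (E := StrongDual ℝ S) (fun ε hε => ?_)
    obtain ⟨φ, hφ, -⟩ := exists_extension_norm_eq S ψ
    obtain ⟨z, hz, hzφ⟩ := D.exists_span_near φ (ε := ε) hε
    have hRz : R z ∈ Submodule.span ℝ C := by
      have h2 : R z ∈ Submodule.map R (Submodule.span ℝ (range D.δ)) := ⟨z, hz, rfl⟩
      rw [Submodule.map_span] at h2
      exact Submodule.span_mono hrange h2
    refine ⟨R z, hRz, ContinuousLinearMap.opNorm_le_bound _ hε.le fun x => ?_⟩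
    have h3 : (ψ - R z) x = (φ - z) (x : Y) := by
      show ψ x - z (x : Y) = φ (x : Y) - z (x : Y)
      rw [hφ x]
    rw [h3]
    exact ((φ - z).le_opNorm _).trans (mul_le_mul_of_nonneg_right hzφ (norm_nonneg _))
  have hsep : TopologicalSpace.IsSeparable (Set.univ : Set (StrongDual ℝ S)) :=
    (hCc.isSeparable.span (R := ℝ)).closure.mono fun ψ _ => hdense ψ
  exact TopologicalSpace.isSeparable_univ_iff.1 hsep

end JData

end Pool.Agent.Helper176.LJ
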