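import Mathlib

set_option autoImplicit false

namespace Pool.Agent.Helper176.WG

open Set Topology Filter

universe u

/-- exhaustion of a space by open sets with small differences -/
lemma exists_rank {K : Type u} [TopologicalSpace K] (R : K → K → Prop)
    (h : ∀ U : Set K, IsOpen U → U ≠ univ → ∃ O : Set K, IsOpen O ∧ ¬ O ⊆ U ∧
      ∀ x ∈ O, ∀ y ∈ O, x ∉ U → y ∉ U → R x y) :
    ∃ r : K → Ordinal.{u}, (∀ ξ, IsOpen {x | r x ≤ ξ}) ∧ ∀ x y, r x = r y → R x y := by
  classical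
  let F : Set K → Set K := fun U => if hU : IsOpen U ∧ U ≠ univ then (h U hU.1 hU.2).choose
    else univ
  have hFo : ∀ U, IsOpen (F U) := by
    intro U
    by_cases hU : IsOpen U ∧ U ≠ univ
    · simp only [F, dif_pos hU]
      exact (h U hU.1 hU.2).choose_spec.1
    · simp only [F, dif_neg hU]
      exact isOpen_univ
  have hF1 : ∀ U, IsOpen U → U ≠ univ → ¬ F U ⊆ U := by
    intro U h1 h2
    simp only [F, dif_pos (And.intro h1 h2)]
    exact (h U h1 h2).choose_spec.2.1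
  have hF2 : ∀ U, IsOpen U → U ≠ univ → ∀ x ∈ F U, ∀ y ∈ F U, x ∉ U → y ∉ U → R x y := by
    intro U h1 h2
    simp only [F, dif_pos (And.intro h1 h2)]
    exact (h U h1 h2).choose_spec.2.2
  let O : Ordinal.{u} → Set K :=
    (wellFounded_lt (α := Ordinal.{u})).fix fun η ih => F (⋃ (ζ : Ordinal.{u}) (hζ : ζ < η), ih ζ hζ)
  have hO : ∀ η, O η = F (⋃ (ζ : Ordinal.{u}) (_ : ζ < η), O ζ) := fun η =>
    (wellFounded_lt (α := Ordinal.{u})).fix_eq _ η
  set U : Ordinal.{u} → Set K := fun η => ⋃ (ζ : Ordinal.{u}) (_ : ζ < η), O ζ with hU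
  have hOo : ∀ η, IsOpen (O η) := fun η => by rw [hO]; exact hFo _
  have hUo : ∀ η, IsOpen (U η) := fun η => isOpen_iUnion fun ζ => isOpen_iUnion fun _ => hOo ζ
  have hex : ∀ x, ∃ η, x ∈ O η := by
    intro x
    by_contra hcon
    push Not at hcon
    have hne : ∀ η, U η ≠ univ := by
      intro η hη
      have : x ∈ U η := hη ▸ mem_univ x
      obtain ⟨ζ, hζ⟩ := mem_iUnion.1 this
      obtain ⟨_, hx⟩ := mem_iUnion.1 hζ
      exact hcon ζ hx
    have hinj : Function.Injective U := by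
      intro η ζ hηζ
      rcases lt_trichotomy η ζ with h1 | h1 | h1
      · exfalso
        apply hF1 (U η) (hUo η) (hne η)
        rw [← hO η]
        intro y hy
        rw [hηζ]
        exact mem_iUnion.2 ⟨η, mem_iUnion.2 ⟨h1, hy⟩⟩
      · exact h1
      · exfalso
        apply hF1 (U ζ) (hUo ζ) (hne ζ)
        rw [← hO ζ]
        intro y hy
        rw [← hηζ]
        exact mem_iUnion.2 ⟨ζ, mem_iUnion.2 ⟨h1, hy⟩⟩
    exact not_injective_of_ordinal U hinj
  refine ⟨fun x => sInf {η | x ∈ O η}, ?_, ?_⟩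
  · intro ξ
    have : {x | sInf {η | x ∈ O η} ≤ ξ} = ⋃ (η : Ordinal.{u}) (_ : η ≤ ξ), O η := by
      ext x
      constructor
      · intro hx
        exact mem_iUnion.2 ⟨_, mem_iUnion.2 ⟨hx, csInf_mem (hex x)⟩⟩
      · intro hx
        obtain ⟨η, hη⟩ := mem_iUnion.1 hx
        obtain ⟨h1, h2⟩ := mem_iUnion.1 hη
        have h3 : sInf {η | x ∈ O η} ≤ η := csInf_le' (show η ∈ {η | x ∈ O η} from h2)
        exact h3.trans h1
    rw [this]
    exact isOpen_iUnion fun η => isOpen_iUnion fun _ => hOo η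
  · intro x y hxy
    set ξ := sInf {η | x ∈ O η} with hξ
    have hx : x ∈ O ξ := csInf_mem (hex x)
    have hy : y ∈ O ξ := by
      have : ξ = sInf {η | y ∈ O η} := hxy
      rw [this]
      exact csInf_mem (hex y)
    have hxU : x ∉ U ξ := by
      intro hc
      obtain ⟨η, hη⟩ := mem_iUnion.1 hc
      obtain ⟨h1, h2⟩ := mem_iUnion.1 hη
      have h3 : ξ ≤ η := csInf_le' (show η ∈ {η | x ∈ O η} from h2)
      exact absurd h3 (not_le.2 h1)
    have hyU : y ∉ U ξ := by
      intro hc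
      obtain ⟨η, hη⟩ := mem_iUnion.1 hc
      obtain ⟨h1, h2⟩ := mem_iUnion.1 hη
      have h3 : ξ ≤ η := by
        have : ξ = sInf {η | y ∈ O η} := hxy
        rw [this]
        exact csInf_le' (show η ∈ {η | y ∈ O η} from h2)
      exact absurd h3 (not_le.2 h1)
    rw [hO] at hx hy
    exact hF2 (U ξ) (hUo ξ) (fun hc => hxU (hc ▸ mem_univ x)) x hx y hy hxU hyU

/-- the rank attains its maximum on compact sets -/
lemma exists_max_rank {K : Type u} [TopologicalSpace K] {r : K → Ordinal.{u}}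
    (hr : ∀ ξ, IsOpen {x | r x ≤ ξ}) {D : Set K} (hD : IsCompact D) (hne : D.Nonempty) :
    ∃ x ∈ D, ∀ y ∈ D, r y ≤ r x := by
  by_contra hcon
  push Not at hcon
  have hlt : ∀ ξ, IsOpen {x | r x < ξ} := by
    intro ξ
    have : {x | r x < ξ} = ⋃ (η : Ordinal.{u}) (_ : η < ξ), {x | r x ≤ η} := by
      ext x
      constructor
      · intro hx
        exact mem_iUnion.2 ⟨r x, mem_iUnion.2 ⟨hx, le_refl (r x)⟩⟩
      · intro hx
        obtain ⟨η, hη⟩ := mem_iUnion.1 hx
        obtain ⟨h1, h2⟩ := mem_iUnion.1 hη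
        exact lt_of_le_of_lt h2 h1
    rw [this]
    exact isOpen_iUnion fun η => isOpen_iUnion fun _ => hr η
  obtain ⟨t, ht⟩ := hD.elim_finite_subcover (fun y : D => {x | r x < r y}) (fun y => hlt _)
    (fun x hx => by
      obtain ⟨y, hy, hxy⟩ := hcon x hx
      exact mem_iUnion.2 ⟨⟨y, hy⟩, hxy⟩)
  have htne : t.Nonempty := by
    rw [Finset.nonempty_iff_ne_empty]
    rintro rfl
    obtain ⟨x, hx⟩ := hne
    simpa using ht hx
  obtain ⟨z, hz, hzmax⟩ := t.exists_max_image (fun y : D => r y) htne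
  obtain ⟨y, hy, hlt'⟩ := mem_iUnion₂.1 (ht z.2)
  exact absurd (hzmax y hy) (not_le.2 hlt')

end Pool.Agent.Helper176.WG
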