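import Mathlib
import Pool.Agent.Helper176.WGRank

set_option autoImplicit false

namespace Pool.Agent.Helper176.WG

open Set Topology Filter

section Sep

lemma countable_of_separated {I E : Type*} [PseudoMetricSpace E]
    [TopologicalSpace.SeparableSpace E] (Ψ : I → E) {ε : ℝ} (hε : 0 < ε)
    (h : ∀ i j, i ≠ j → ε ≤ dist (Ψ i) (Ψ j)) : Countable I := by
  rcases isEmpty_or_nonempty I with hI | ⟨⟨i₀⟩⟩
  · infer_instance
  have : Nonempty E := ⟨Ψ i₀⟩
  have h1 : ∀ i, ∃ n : ℕ, dist (Ψ i) (TopologicalSpace.denseSeq E n) < ε / 2 := fun i =>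
    (TopologicalSpace.denseRange_denseSeq E).exists_dist_lt (Ψ i) (by positivity)
  choose n hn using h1
  have : Function.Injective n := by
    intro i j hij
    by_contra hne
    have h2 := h i j hne
    have h3 := hn i
    have h4 := hn j
    rw [hij] at h3
    have h5 := dist_triangle_right (Ψ i) (Ψ j) (TopologicalSpace.denseSeq E (n j))
    linarith
  exact this.countable

lemma not_countable_cantor : ¬ Countable (ℕ → Bool) := by
  intro hc
  have : Nonempty (ℕ → Bool) := ⟨fun _ => true⟩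
  obtain ⟨f, hf⟩ := exists_surjective_nat (ℕ → Bool)
  obtain ⟨n, hn⟩ := hf (fun n => !(f n n))
  have := congrFun hn n
  simp at this

end Sep

/-- the dual unit ball with the weak-star topology -/
abbrev DBall (X : Type*) [NormedAddCommGroup X] [NormedSpace ℝ X] :=
  {f : WeakDual ℝ X // ‖WeakDual.toStrongDual f‖ ≤ 1}

variable {X : Type*} [NormedAddCommGroup X] [NormedSpace ℝ X]

instance : CompactSpace (DBall X) := by
  have h := WeakDual.isCompact_closedBall (𝕜 := ℝ) (E := X) 0 1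
  have h2 : (WeakDual.toStrongDual ⁻¹' Metric.closedBall (0 : StrongDual ℝ X) 1) =
      {Φ : WeakDual ℝ X | ‖WeakDual.toStrongDual Φ‖ ≤ 1} := by
    ext Φ
    exact @mem_closedBall_zero_iff (StrongDual ℝ X) _ (WeakDual.toStrongDual Φ) 1
  rw [h2] at h
  exact isCompact_iff_compactSpace.1 h

instance : T2Space (DBall X) := inferInstance

/-- the underlying functional -/
noncomputable def DBall.fn (f : DBall X) : X →L[ℝ] ℝ := WeakDual.toStrongDual f.1

lemma DBall.fn_norm (f : DBall X) : ‖f.fn‖ ≤ 1 := f.2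

/-- elements of the ball from functionals -/
noncomputable def DBall.mk' (f : X →L[ℝ] ℝ) (hf : ‖f‖ ≤ 1) : DBall X := ⟨StrongDual.toWeakDual f, hf⟩

@[simp] lemma DBall.fn_mk' (f : X →L[ℝ] ℝ) (hf : ‖f‖ ≤ 1) : (DBall.mk' f hf).fn = f := rfl

lemma continuous_eval (x : X) : Continuous fun f : DBall X => f.fn x :=
  (WeakDual.eval_continuous x).comp continuous_subtype_val

variable {Y : Type*} [NormedAddCommGroup Y] [NormedSpace ℝ Y]

/-- the Asplund property gives fragmentability -/
lemma fragment (hY : ∀ S : Submodule ℝ Y, TopologicalSpace.IsSeparable (S : Set Y) →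
    TopologicalSpace.SeparableSpace (S →L[ℝ] ℝ)) (T : Y →L[ℝ] X) {ε : ℝ} (hε : 0 < ε)
    {D : Set (DBall X)} (hD : IsClosed D) (hne : D.Nonempty) :
    ∃ O : Set (DBall X), IsOpen O ∧ (O ∩ D).Nonempty ∧
      ∀ f ∈ O ∩ D, ∀ g ∈ O ∩ D, ‖(f.fn - g.fn).comp T‖ ≤ ε := by
  by_contra hcon
  push Not at hcon
  have hstep : ∀ U : {U : Set (DBall X) // IsOpen U ∧ (U ∩ D).Nonempty},
      ∃ (y : Y) (c : ℝ) (V : Bool → {U : Set (DBall X) // IsOpen U ∧ (U ∩ D).Nonempty}),
        ‖y‖ ≤ 1 ∧ (∀ b, (V b).1 ⊆ U.1) ∧ (∀ h ∈ (V true).1, c + ε / 2 ≤ h.fn (T y)) ∧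
          ∀ h ∈ (V false).1, h.fn (T y) ≤ c - ε / 2 := by
    rintro ⟨U, hU, hUne⟩
    obtain ⟨f, hf, g, hg, hfg⟩ := hcon U hU hUne
    obtain ⟨y, hy1, hy2⟩ := ContinuousLinearMap.exists_lt_apply_of_lt_opNorm _ hfg
    have hy3 : ε < |f.fn (T y) - g.fn (T y)| := hy2
    rcases lt_abs.1 hy3 with h1 | h1
    · refine ⟨y, (f.fn (T y) + g.fn (T y)) / 2, fun b => Bool.rec
        ⟨U ∩ {h | h.fn (T y) < (f.fn (T y) + g.fn (T y)) / 2 - ε / 2},
          hU.inter (isOpen_lt (continuous_eval _) continuous_const),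
          ⟨g, ⟨hg.1, by simp only [mem_ofPred_eq]; linarith⟩, hg.2⟩⟩
        ⟨U ∩ {h | (f.fn (T y) + g.fn (T y)) / 2 + ε / 2 < h.fn (T y)},
          hU.inter (isOpen_lt continuous_const (continuous_eval _)),
          ⟨f, ⟨hf.1, by simp only [mem_ofPred_eq]; linarith⟩, hf.2⟩⟩ b, hy1.le, ?_, ?_, ?_⟩
      · rintro (_ | _)
        · exact inter_subset_left
        · exact inter_subset_left
      · exact fun h hh => hh.2.le
      · exact fun h hh => hh.2.le
    · refine ⟨y, (f.fn (T y) + g.fn (T y)) / 2, fun b => Bool.rec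
        ⟨U ∩ {h | h.fn (T y) < (f.fn (T y) + g.fn (T y)) / 2 - ε / 2},
          hU.inter (isOpen_lt (continuous_eval _) continuous_const),
          ⟨f, ⟨hf.1, by simp only [mem_ofPred_eq]; linarith⟩, hf.2⟩⟩
        ⟨U ∩ {h | (f.fn (T y) + g.fn (T y)) / 2 + ε / 2 < h.fn (T y)},
          hU.inter (isOpen_lt continuous_const (continuous_eval _)),
          ⟨g, ⟨hg.1, by simp only [mem_ofPred_eq]; linarith⟩, hg.2⟩⟩ b, hy1.le, ?_, ?_, ?_⟩
      · rintro (_ | _)
        · exact inter_subset_left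
        · exact inter_subset_left
      · exact fun h hh => hh.2.le
      · exact fun h hh => hh.2.le
  choose yy cc VV hy hsub htrue hfalse using hstep
  let U : List Bool → {U : Set (DBall X) // IsOpen U ∧ (U ∩ D).Nonempty} :=
    fun l => List.rec ⟨univ, isOpen_univ, by simpa using hne⟩ (fun b _ V => VV V b) l
  have hUcons : ∀ b l, U (b :: l) = VV (U l) b := fun _ _ => rfl
  let path : (ℕ → Bool) → ℕ → List Bool := fun σ n => Nat.rec [] (fun n l => σ n :: l) n
  have hpath : ∀ σ n, path σ (n + 1) = σ n :: path σ n := fun _ _ => rfl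
  have hanti : ∀ σ, Antitone fun n => (U (path σ n)).1 := by
    intro σ
    refine antitone_nat_of_succ_le fun n => ?_
    show (U (path σ (n + 1))).1 ⊆ (U (path σ n)).1
    rw [hpath, hUcons]
    exact hsub _ _
  choose fs hfs using fun (σ : ℕ → Bool) (n : ℕ) => (U (path σ n)).2.2
  have hcl : ∀ σ, ∃ f, MapClusterPt f atTop (fs σ) := fun σ => exists_clusterPt_of_compactSpace _
  choose F hF using hcl
  have hFcl : ∀ σ n, F σ ∈ closure (U (path σ n)).1 := by
    intro σ n
    rw [mem_closure_iff_nhds]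
    intro N hN
    have h1 := (mapClusterPt_iff_frequently.1 (hF σ)) N hN
    obtain ⟨m, hm1, hm2⟩ := (h1.and_eventually (eventually_ge_atTop n)).exists
    exact ⟨fs σ m, hm1, hanti σ hm2 (hfs σ m).1⟩
  have hval : ∀ σ n, (σ n = true →
      cc (U (path σ n)) + ε / 2 ≤ (F σ).fn (T (yy (U (path σ n))))) ∧
      (σ n = false → (F σ).fn (T (yy (U (path σ n)))) ≤ cc (U (path σ n)) - ε / 2) := by
    intro σ n
    have h1 := hFcl σ (n + 1)
    rw [hpath, hUcons] at h1
    constructor
    · intro hb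
      rw [hb] at h1
      exact closure_minimal (fun h hh => htrue _ h hh)
        (isClosed_le continuous_const (continuous_eval _)) h1
    · intro hb
      rw [hb] at h1
      exact closure_minimal (fun h hh => hfalse _ h hh)
        (isClosed_le (continuous_eval _) continuous_const) h1
  set S : Submodule ℝ Y := Submodule.span ℝ (range fun l => yy (U l)) with hS
  have hSsep : TopologicalSpace.IsSeparable (S : Set Y) :=
    ((countable_range _).isSeparable.span (R := ℝ))
  have hsepdual := hY S hSsep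
  let Ψ : (ℕ → Bool) → (S →L[ℝ] ℝ) := fun σ => ((F σ).fn.comp T).comp S.subtypeL
  have hΨ : ∀ σ τ, σ ≠ τ → ε ≤ dist (Ψ σ) (Ψ τ) := by
    intro σ τ hne
    have hex : ∃ n, σ n ≠ τ n := by
      by_contra hc
      push Not at hc
      exact hne (funext hc)
    classical
    have hn := Nat.find_spec hex
    set n := Nat.find hex with hndef
    have hlt : ∀ m < n, σ m = τ m := fun m hm => by
      have := Nat.find_min hex hm
      simpa using this
    have hpeq : ∀ m ≤ n, path σ m = path τ m := by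
      intro m
      induction m with
      | zero => exact fun _ => rfl
      | succ m ih =>
        intro hm
        rw [hpath, hpath, ih (by omega), hlt m (by omega)]
    have hp := hpeq n le_rfl
    set y : S := ⟨yy (U (path σ n)), Submodule.subset_span ⟨_, rfl⟩⟩ with hydef
    have hy1 : ‖y‖ ≤ 1 := hy _
    have h1 := hval σ n
    have h2 := hval τ n
    rw [← hp] at h2
    have h3 : ε ≤ |(Ψ σ) y - (Ψ τ) y| := by
      show ε ≤ |(F σ).fn (T (yy (U (path σ n)))) - (F τ).fn (T (yy (U (path σ n))))|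
      rcases hσ : σ n with _ | _
      · have hτ : τ n = true := by
          rcases hτ : τ n with _ | _
          · exact absurd (hσ.trans hτ.symm) hn
          · rfl
        have e1 := h1.2 hσ
        have e2 := h2.1 hτ
        rw [abs_sub_comm]
        exact le_abs.2 (Or.inl (by linarith))
      · have hτ : τ n = false := by
          rcases hτ : τ n with _ | _
          · rfl
          · exact absurd (hσ.trans hτ.symm) hn
        have e1 := h1.1 hσ
        have e2 := h2.2 hτ
        exact le_abs.2 (Or.inl (by linarith))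
    calc ε ≤ ‖(Ψ σ - Ψ τ) y‖ := h3
      _ ≤ ‖Ψ σ - Ψ τ‖ * ‖y‖ := (Ψ σ - Ψ τ).le_opNorm y
      _ ≤ ‖Ψ σ - Ψ τ‖ * 1 :=
        mul_le_mul_of_nonneg_left hy1 (ContinuousLinearMap.opNorm_nonneg _)
      _ = dist (Ψ σ) (Ψ τ) := by
        rw [mul_one]
        exact (@dist_eq_norm_sub (S →L[ℝ] ℝ) _ (Ψ σ) (Ψ τ)).symm
  exact not_countable_cantor (countable_of_separated Ψ hε hΨ)

/-- the rank function of a given precision -/
lemma exists_rank_ball {X : Type} [NormedAddCommGroup X] [NormedSpace ℝ X]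
    (hY : ∀ S : Submodule ℝ Y, TopologicalSpace.IsSeparable (S : Set Y) →
    TopologicalSpace.SeparableSpace (S →L[ℝ] ℝ)) (T : Y →L[ℝ] X) {ε : ℝ} (hε : 0 < ε) :
    ∃ r : DBall X → Ordinal.{0}, (∀ ξ, IsOpen {x | r x ≤ ξ}) ∧
      ∀ f g : DBall X, r f = r g → ‖(f.fn - g.fn).comp T‖ ≤ ε := by
  refine exists_rank (fun f g : DBall X => ‖(f.fn - g.fn).comp T‖ ≤ ε) fun U hU hne => ?_
  obtain ⟨O, hO, ⟨f, hf⟩, h⟩ := fragment hY T hε hU.isClosed_compl (by
    rw [nonempty_compl]
    exact hne)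
  exact ⟨O, hO, fun hc => hf.2 (hc hf.1), fun x hx y hy hxU hyU => h x ⟨hx, hxU⟩ y ⟨hy, hyU⟩⟩

end Pool.Agent.Helper176.WG
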