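import Mathlib

set_option autoImplicit false

namespace Pool.Agent.Helper176.WG

open Set Topology Filter

variable {X : Type*} [NormedAddCommGroup X] [NormedSpace ℝ X]
variable {Y : Type*} [NormedAddCommGroup Y] [NormedSpace ℝ Y]

/-- the unit ball of the dual norm `‖f ∘ T‖ + ‖f‖ / (n + 1)` -/
def CC (T : Y →L[ℝ] X) (n : ℕ) : Set (X →L[ℝ] ℝ) := {f | ‖f.comp T‖ + ‖f‖ / ((n : ℝ) + 1) ≤ 1}

lemma CC_zero (T : Y →L[ℝ] X) (n : ℕ) : (0 : X →L[ℝ] ℝ) ∈ CC T n := by
  simp [CC]

lemma CC_norm {T : Y →L[ℝ] X} {n : ℕ} {f : X →L[ℝ] ℝ} (hf : f ∈ CC T n) : ‖f‖ ≤ (n : ℝ) + 1 := by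
  have h1 : ‖f.comp T‖ + ‖f‖ / ((n : ℝ) + 1) ≤ 1 := hf
  have h2 : ‖f‖ / ((n : ℝ) + 1) ≤ 1 := by linarith [norm_nonneg (f.comp T)]
  rwa [div_le_one (by positivity)] at h2

lemma CC_comp {T : Y →L[ℝ] X} {n : ℕ} {f : X →L[ℝ] ℝ} (hf : f ∈ CC T n) : ‖f.comp T‖ ≤ 1 := by
  have h1 : ‖f.comp T‖ + ‖f‖ / ((n : ℝ) + 1) ≤ 1 := hf
  have h2 : 0 ≤ ‖f‖ / ((n : ℝ) + 1) := by positivity
  linarith

/-- finite rational combinations -/
noncomputable def comb (t : Finset X) (c : X → ℚ) : X := ∑ x ∈ t, (c x : ℝ) • x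

/-- closedness of a set under the supports of a family of functionals -/
def IsGood (G : Finset X → Set (X →L[ℝ] ℝ)) (Δ S : Set X) : Prop :=
  S ⊆ Δ ∧ ∀ t : Finset X, t.Nonempty → (t : Set X) ⊆ S → ∀ g ∈ G t, ∀ x ∈ Δ, g x ≠ 0 → x ∈ S

/-- richness of the family of functionals -/
def Rich (T : Y →L[ℝ] X) (G : Finset X → Set (X →L[ℝ] ℝ)) : Prop :=
  ∀ (t : Finset X) (c : X → ℚ) (n : ℕ), ∀ h ∈ CC T n, ∀ ε > 0, ∃ f ∈ G t, f ∈ CC T n ∧
    h (comb t c) - ε < f (comb t c)

lemma exists_rat_comb (t : Finset X) (a : X → ℝ) {η : ℝ} (hη : 0 < η) :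
    ∃ c : X → ℚ, ‖(∑ x ∈ t, a x • x) - comb t c‖ < η := by
  have h1 : ∀ x : X, ∃ q : ℚ, |a x - q| < η / ((t.card + 1) * (‖x‖ + 1)) := fun x =>
    exists_rat_near (a x) (by positivity)
  choose c hc using h1
  refine ⟨c, ?_⟩
  unfold comb
  rw [← Finset.sum_sub_distrib]
  have h2 : ∀ x ∈ t, ‖a x • x - (c x : ℝ) • x‖ ≤ η / (t.card + 1) := by
    intro x _
    rw [← sub_smul, norm_smul, Real.norm_eq_abs]
    calc |a x - (c x : ℝ)| * ‖x‖ ≤ η / ((t.card + 1) * (‖x‖ + 1)) * (‖x‖ + 1) :=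
          mul_le_mul (hc x).le (by linarith) (norm_nonneg _) (by positivity)
      _ = η / (t.card + 1) := by field_simp
  calc ‖∑ x ∈ t, (a x • x - (c x : ℝ) • x)‖ ≤ ∑ x ∈ t, ‖a x • x - (c x : ℝ) • x‖ :=
        norm_sum_le _ _
    _ ≤ ∑ x ∈ t, η / (t.card + 1) := Finset.sum_le_sum h2
    _ = t.card * (η / (t.card + 1)) := by rw [Finset.sum_const, nsmul_eq_mul]
    _ < η := by
        rw [mul_div_assoc', div_lt_iff₀ (by positivity)]
        nlinarith

lemma vanish_span {Δ S : Set X} {f : X →L[ℝ] ℝ} (h : ∀ x ∈ Δ, f x ≠ 0 → x ∈ S) {z : X}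
    (hz : z ∈ Submodule.span ℝ (Δ \ S)) : f z = 0 := by
  induction hz using Submodule.span_induction with
  | mem x hx =>
    by_contra hne
    exact hx.2 (h x hx.1 hne)
  | zero => exact map_zero f
  | add x y _ _ hx hy => rw [map_add, hx, hy, add_zero]
  | smul a x _ hx => rw [map_smul, hx, smul_zero]

lemma key_ineq {T : Y →L[ℝ] X} {G : Finset X → Set (X →L[ℝ] ℝ)} (hG : Rich T G) {Δ S : Set X}
    (hS : IsGood G Δ S) {y z : X} (hy : y ∈ Submodule.span ℝ S)
    (hz : z ∈ Submodule.span ℝ (Δ \ S)) (n : ℕ) {h : X →L[ℝ] ℝ} (hh : h ∈ CC T n) {ε : ℝ}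
    (hε : 0 < ε) : ∃ f ∈ CC T n, h y - ε < f (y + z) := by
  rw [Submodule.mem_span_set'] at hy
  obtain ⟨k, a, g, rfl⟩ := hy
  classical
  -- rewrite as a sum over a finset
  set t : Finset X := Finset.univ.image (fun i => (g i : X)) with ht
  set b : X → ℝ := fun x => ∑ i ∈ Finset.univ.filter (fun i => (g i : X) = x), a i with hb
  have hsum : ∑ i, a i • (g i : X) = ∑ x ∈ t, b x • x := by
    rw [ht, ← Finset.sum_fiberwise_of_maps_to (s := Finset.univ) (t := t)
      (g := fun i => (g i : X)) (fun i _ => Finset.mem_image_of_mem _ (Finset.mem_univ i))]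
    refine Finset.sum_congr rfl fun x _ => ?_
    rw [hb, Finset.sum_smul]
    refine Finset.sum_congr rfl fun i hi => ?_
    rw [(Finset.mem_filter.1 hi).2]
  have htS : (t : Set X) ⊆ S := by
    intro x hx
    rw [ht, Finset.coe_image] at hx
    obtain ⟨i, _, rfl⟩ := hx
    exact (g i).2
  rw [hsum]
  rcases t.eq_empty_or_nonempty with h0 | hne
  · refine ⟨0, CC_zero T n, ?_⟩
    rw [h0]
    simpa using hε
  set η : ℝ := ε / (2 * n + 3) with hη
  have hη0 : 0 < η := by positivity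
  obtain ⟨c, hc⟩ := exists_rat_comb t b hη0
  obtain ⟨f, hfG, hfC, hf⟩ := hG t c n h hh η hη0
  refine ⟨f, hfC, ?_⟩
  have hfz : f z = 0 := vanish_span (fun x hx hne' => hS.2 t hne htS f hfG x hx hne') hz
  set y := ∑ x ∈ t, b x • x with hy
  have e1 : f (comb t c) - f y ≤ ((n : ℝ) + 1) * η := by
    rw [← map_sub]
    calc f (comb t c - y) ≤ ‖f (comb t c - y)‖ := Real.le_norm_self _
      _ ≤ ‖f‖ * ‖comb t c - y‖ := f.le_opNorm _
      _ ≤ ((n : ℝ) + 1) * η := by
          refine mul_le_mul (CC_norm hfC) ?_ (norm_nonneg _) (by positivity)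
          rw [norm_sub_rev]
          exact hc.le
  have e2 : h y - h (comb t c) ≤ ((n : ℝ) + 1) * η := by
    rw [← map_sub]
    calc h (y - comb t c) ≤ ‖h (y - comb t c)‖ := Real.le_norm_self _
      _ ≤ ‖h‖ * ‖y - comb t c‖ := h.le_opNorm _
      _ ≤ ((n : ℝ) + 1) * η := mul_le_mul (CC_norm hh) hc.le (norm_nonneg _) (by positivity)
  rw [map_add, hfz, add_zero]
  have e3 : (2 * (n : ℝ) + 3) * η = ε := by
    rw [hη]
    field_simp
  nlinarith

/-- good sets give projections -/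
theorem exists_proj [CompleteSpace X] {T : Y →L[ℝ] X} {G : Finset X → Set (X →L[ℝ] ℝ)}
    (hG : Rich T G) {Δ : Set X} (hΔ : Dense (Submodule.span ℝ Δ : Set X)) {S : Set X}
    (hS : IsGood G Δ S) :
    ∃ P : X →L[ℝ] X, (∀ x ∈ S, P x = x) ∧ (∀ x ∈ Δ, x ∉ S → P x = 0) ∧
      ∀ f : X →L[ℝ] ℝ, ‖(f.comp P).comp T‖ ≤ ‖f.comp T‖ := by
  set c₀ : ℝ := ‖T‖ + 1 with hc₀
  have hc₀pos : 0 < c₀ := by positivity
  set V := (Submodule.span ℝ S).topologicalClosure with hV
  set W := (Submodule.span ℝ (Δ \ S)).topologicalClosure with hW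
  have b1 : ∀ y ∈ Submodule.span ℝ S, ∀ z ∈ Submodule.span ℝ (Δ \ S), ‖y‖ ≤ c₀ * ‖y + z‖ := by
    intro y hy z hz
    obtain ⟨h₀, hh1, hh2⟩ := exists_dual_vector'' ℝ y
    have hh2' : h₀ y = ‖y‖ := by simpa using hh2
    have hmem : c₀⁻¹ • h₀ ∈ CC T 0 := by
      show ‖(c₀⁻¹ • h₀).comp T‖ + ‖c₀⁻¹ • h₀‖ / (((0 : ℕ) : ℝ) + 1) ≤ 1
      have e1 : ‖(c₀⁻¹ • h₀).comp T‖ ≤ c₀⁻¹ * ‖T‖ := by
        calc ‖(c₀⁻¹ • h₀).comp T‖ ≤ ‖c₀⁻¹ • h₀‖ * ‖T‖ := ContinuousLinearMap.opNorm_comp_le _ _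
          _ ≤ c₀⁻¹ * ‖T‖ := by
              refine mul_le_mul_of_nonneg_right ?_ (norm_nonneg _)
              rw [norm_smul, Real.norm_eq_abs, abs_of_pos (inv_pos.2 hc₀pos)]
              calc c₀⁻¹ * ‖h₀‖ ≤ c₀⁻¹ * 1 := mul_le_mul_of_nonneg_left hh1 (by positivity)
                _ = c₀⁻¹ := mul_one _
      have e2 : ‖c₀⁻¹ • h₀‖ ≤ c₀⁻¹ := by
        rw [norm_smul, Real.norm_eq_abs, abs_of_pos (inv_pos.2 hc₀pos)]
        calc c₀⁻¹ * ‖h₀‖ ≤ c₀⁻¹ * 1 := mul_le_mul_of_nonneg_left hh1 (by positivity)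
          _ = c₀⁻¹ := mul_one _
      have e3 : c₀⁻¹ * ‖T‖ + c₀⁻¹ = 1 := by
        rw [hc₀]
        field_simp
      have e4 : (((0 : ℕ) : ℝ) + 1) = 1 := by norm_num
      rw [e4, div_one]
      linarith
    refine le_of_forall_pos_le_add fun ε hε => ?_
    obtain ⟨f, hf, hfy⟩ := key_ineq hG hS hy hz 0 hmem (ε := ε / c₀) (by positivity)
    have hfn := CC_norm hf
    norm_num at hfn
    have h3 : f (y + z) ≤ ‖y + z‖ := by
      calc f (y + z) ≤ ‖f (y + z)‖ := Real.le_norm_self _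
        _ ≤ ‖f‖ * ‖y + z‖ := f.le_opNorm _
        _ ≤ 1 * ‖y + z‖ := mul_le_mul_of_nonneg_right hfn (norm_nonneg _)
        _ = ‖y + z‖ := one_mul _
    have h4 : (c₀⁻¹ • h₀) y = c₀⁻¹ * ‖y‖ := by
      rw [_root_.smul_apply, hh2', smul_eq_mul]
    rw [h4] at hfy
    have h5 : c₀⁻¹ * ‖y‖ ≤ ‖y + z‖ + ε / c₀ := by linarith
    have h6 := mul_le_mul_of_nonneg_left h5 hc₀pos.le
    have h7 : c₀ * (c₀⁻¹ * ‖y‖) = ‖y‖ := by field_simp
    have h8 : c₀ * (‖y + z‖ + ε / c₀) = c₀ * ‖y + z‖ + ε := by field_simp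
    rw [h7, h8] at h6
    exact h6
  have b2 : ∀ y ∈ V, ∀ z ∈ W, ‖y‖ ≤ c₀ * ‖y + z‖ := by
    have h1 : ∀ z ∈ Submodule.span ℝ (Δ \ S), ∀ y ∈ V, ‖y‖ ≤ c₀ * ‖y + z‖ := by
      intro z hz y hy
      have hcl : IsClosed {y : X | ‖y‖ ≤ c₀ * ‖y + z‖} :=
        isClosed_le continuous_norm
          (continuous_const.mul (continuous_norm.comp (continuous_id.add continuous_const)))
      exact closure_minimal (fun y hy => b1 y hy z hz) hcl hy
    intro y hy z hz
    have hcl : IsClosed {z : X | ‖y‖ ≤ c₀ * ‖y + z‖} :=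
      isClosed_le continuous_const
        (continuous_const.mul (continuous_norm.comp (continuous_const.add continuous_id)))
    exact closure_minimal (fun z hz => h1 z hz y hy) hcl hz
  have : CompleteSpace V := (Submodule.isClosed_topologicalClosure _).completeSpace_coe
  have : CompleteSpace W := (Submodule.isClosed_topologicalClosure _).completeSpace_coe
  set A : (V × W) →L[ℝ] X := V.subtypeL.coprod W.subtypeL with hA
  have hAapp : ∀ v : V, ∀ w : W, A (v, w) = (v : X) + (w : X) := fun v w => by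
    rw [hA]; simp
  have hbound : ∀ p : V × W, ‖p‖ ≤ (c₀ + 1) * ‖A p‖ := by
    rintro ⟨v, w⟩
    rw [hAapp]
    have h1 : ‖(v : X)‖ ≤ c₀ * ‖(v : X) + w‖ := b2 v v.2 w w.2
    have h2 : ‖(w : X)‖ ≤ (c₀ + 1) * ‖(v : X) + w‖ := by
      calc ‖(w : X)‖ = ‖((v : X) + w) - v‖ := by rw [add_sub_cancel_left]
        _ ≤ ‖(v : X) + w‖ + ‖(v : X)‖ := norm_sub_le _ _
        _ ≤ (c₀ + 1) * ‖(v : X) + w‖ := by linarith
    rw [Prod.norm_def]
    refine max_le ?_ h2
    show ‖(v : X)‖ ≤ _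
    have := norm_nonneg ((v : X) + w)
    linarith
  have hinj : A.ker = ⊥ := by
    rw [LinearMap.ker_eq_bot']
    intro p hp
    have := hbound p
    rw [show A p = 0 from hp, norm_zero, mul_zero] at this
    exact norm_le_zero_iff.1 this
  have hanti : AntilipschitzWith (Real.toNNReal (c₀ + 1)) A := by
    refine AddMonoidHomClass.antilipschitz_of_bound A fun p => ?_
    rw [Real.coe_toNNReal _ (by positivity)]
    exact hbound p
  have hclosed : IsClosed (range A) := hanti.isClosed_range A.uniformContinuous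
  have hspan : ∀ x ∈ Submodule.span ℝ Δ, ∃ y ∈ Submodule.span ℝ S,
      ∃ z ∈ Submodule.span ℝ (Δ \ S), y + z = x := by
    intro x hx
    have h1 : Submodule.span ℝ Δ ≤ Submodule.span ℝ S ⊔ Submodule.span ℝ (Δ \ S) := by
      rw [← Submodule.span_union]
      refine Submodule.span_mono fun x hx => ?_
      by_cases h : x ∈ S
      · exact Or.inl h
      · exact Or.inr ⟨hx, h⟩
    exact Submodule.mem_sup.1 (h1 hx)
  have hsurj : A.range = ⊤ := by
    rw [LinearMap.range_eq_top]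
    intro x
    have h1 : x ∈ closure (range A) := by
      refine closure_mono ?_ (hΔ x)
      intro x hx
      obtain ⟨y, hy, z, hz, rfl⟩ := hspan x hx
      exact ⟨(⟨y, Submodule.le_topologicalClosure _ hy⟩,
        ⟨z, Submodule.le_topologicalClosure _ hz⟩), hAapp _ _⟩
    rw [hclosed.closure_eq] at h1
    exact h1
  set E := ContinuousLinearEquiv.ofBijective A hinj hsurj with hE
  have hEA : ∀ p, E p = A p := fun p => rfl
  set P : X →L[ℝ] X := V.subtypeL.comp ((ContinuousLinearMap.fst ℝ V W).comp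
    (E.symm : X →L[ℝ] V × W)) with hP
  have hPvw : ∀ v : V, ∀ w : W, P ((v : X) + w) = v := by
    intro v w
    have h1 : E.symm ((v : X) + w) = (v, w) := by
      rw [← hAapp, ← hEA, E.symm_apply_apply]
    rw [hP]
    simp [h1]
  have hPyz : ∀ y ∈ Submodule.span ℝ S, ∀ z ∈ Submodule.span ℝ (Δ \ S), P (y + z) = y :=
    fun y hy z hz => hPvw ⟨y, Submodule.le_topologicalClosure _ hy⟩
      ⟨z, Submodule.le_topologicalClosure _ hz⟩
  refine ⟨P, ?_, ?_, ?_⟩
  · intro x hx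
    have := hPyz x (Submodule.subset_span hx) 0 (Submodule.zero_mem _)
    rwa [add_zero] at this
  · intro x hx hxS
    have := hPyz 0 (Submodule.zero_mem _) x (Submodule.subset_span ⟨hx, hxS⟩)
    rwa [zero_add] at this
  · intro f
    -- reduce to a one-sided estimate
    have hone : ∀ u : Y, ‖u‖ ≤ 1 → f (P (T u)) ≤ ‖f.comp T‖ := by
      intro u hu
      have hn : ∀ n : ℕ, f (P (T u)) ≤ ‖f.comp T‖ + ‖f‖ / ((n : ℝ) + 1) := by
        intro n
        set κ : ℝ := ‖f.comp T‖ + ‖f‖ / ((n : ℝ) + 1) with hκ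
        have hκ0 : 0 ≤ κ := by positivity
        rcases eq_or_lt_of_le hκ0 with h0 | h0
        · have hf0 : ‖f‖ = 0 := by
            have h1 : ‖f‖ / ((n : ℝ) + 1) ≤ 0 := by
              have := norm_nonneg (f.comp T)
              linarith
            have h2 : 0 ≤ ‖f‖ / ((n : ℝ) + 1) := by positivity
            have h3 := le_antisymm h1 h2
            rw [div_eq_zero_iff] at h3
            rcases h3 with h3 | h3
            · exact h3
            · exact absurd h3 (by positivity)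
          rw [norm_eq_zero] at hf0
          rw [hf0]
          simpa using hκ0
        · by_contra hcon
          push Not at hcon
          have hmem : κ⁻¹ • f ∈ CC T n := by
            show ‖(κ⁻¹ • f).comp T‖ + ‖κ⁻¹ • f‖ / ((n : ℝ) + 1) ≤ 1
            have e1 : (κ⁻¹ • f).comp T = κ⁻¹ • f.comp T := rfl
            rw [e1, norm_smul, norm_smul, Real.norm_eq_abs, abs_of_pos (inv_pos.2 h0),
              mul_div_assoc, ← mul_add, ← hκ, inv_mul_cancel₀ h0.ne']
          set v : ℝ := (κ⁻¹ • f) (P (T u)) with hv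
          have hv1 : 1 < v := by
            rw [hv, _root_.smul_apply, smul_eq_mul, lt_inv_mul_iff₀ h0, mul_one]
            exact hcon
          set ε : ℝ := (v - 1) / 3 with hε
          have hε0 : 0 < ε := by
            rw [hε]; linarith
          have hcont : Continuous fun x => (κ⁻¹ • f) (P x) := (κ⁻¹ • f).continuous.comp P.continuous
          obtain ⟨η₁, hη₁, hη₁c⟩ := Metric.continuous_iff.1 hcont (T u) ε hε0
          set η : ℝ := min η₁ (ε / ((n : ℝ) + 1)) with hη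
          have hη0 : 0 < η := lt_min hη₁ (by positivity)
          obtain ⟨x, hx, hxd⟩ := Metric.dense_iff.1 hΔ (T u) η hη0
          have hxd' : dist x (T u) < η := hx
          obtain ⟨y, hy, z, hz, hyz⟩ := hspan x hxd
          obtain ⟨f', hf', hf'y⟩ := key_ineq hG hS hy hz n hmem hε0
          rw [hyz] at hf'y
          have e1 : P x = y := by rw [← hyz]; exact hPyz y hy z hz
          have e2 : dist ((κ⁻¹ • f) (P x)) ((κ⁻¹ • f) (P (T u))) < ε :=
            hη₁c x (hxd'.trans_le (min_le_left _ _))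
          rw [e1, Real.dist_eq, abs_lt] at e2
          have e3 : f' x ≤ 1 + ε := by
            have h1 : f' x = (f'.comp T) u + f' (x - T u) := by
              rw [map_sub]
              show f' x = f' (T u) + (f' x - f' (T u))
              ring
            have h2 : (f'.comp T) u ≤ 1 := by
              calc (f'.comp T) u ≤ ‖(f'.comp T) u‖ := Real.le_norm_self _
                _ ≤ ‖f'.comp T‖ * ‖u‖ := (f'.comp T).le_opNorm u
                _ ≤ 1 * 1 := mul_le_mul (CC_comp hf') hu (norm_nonneg _) zero_le_one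
                _ = 1 := one_mul _
            have h3 : f' (x - T u) ≤ ε := by
              calc f' (x - T u) ≤ ‖f' (x - T u)‖ := Real.le_norm_self _
                _ ≤ ‖f'‖ * ‖x - T u‖ := f'.le_opNorm _
                _ ≤ ((n : ℝ) + 1) * (ε / ((n : ℝ) + 1)) := by
                    refine mul_le_mul (CC_norm hf') ?_ (norm_nonneg _) (by positivity)
                    rw [← dist_eq_norm]
                    exact (hxd'.trans_le (min_le_right _ _)).le
                _ = ε := by field_simp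
            linarith
          have e4 : v = 1 + 3 * ε := by rw [hε]; ring
          rw [← hv] at e2
          linarith [e2.1]
      have hlim : Tendsto (fun n : ℕ => ‖f.comp T‖ + ‖f‖ / ((n : ℝ) + 1)) atTop
          (𝓝 (‖f.comp T‖ + 0)) := by
        refine tendsto_const_nhds.add ?_
        have := tendsto_one_div_add_atTop_nhds_zero_nat (𝕜 := ℝ) |>.const_mul ‖f‖
        rw [mul_zero] at this
        refine this.congr fun n => ?_
        rw [mul_one_div]
      rw [add_zero] at hlim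
      exact ge_of_tendsto' hlim hn
    refine ContinuousLinearMap.opNorm_le_of_unit_norm (norm_nonneg _) fun u hu => ?_
    rw [Real.norm_eq_abs, abs_le]
    constructor
    · have := hone (-u) (by rw [norm_neg]; exact hu.le)
      rw [map_neg, map_neg, map_neg] at this
      show -‖f.comp T‖ ≤ f (P (T u))
      linarith
    · exact hone u hu.le

end Pool.Agent.Helper176.WG
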