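import Mathlib
import Pool.Agent.Helper176.WGFrag
import Pool.Agent.Helper176.WGProj

set_option autoImplicit false

namespace Pool.Agent.Helper176.WG

open Set Topology Filter

variable {X : Type} [NormedAddCommGroup X] [NormedSpace ℝ X]
variable {Y : Type*} [NormedAddCommGroup Y] [NormedSpace ℝ Y]

lemma ext_dense {Δ : Set X} (hΔ : Dense (Submodule.span ℝ Δ : Set X)) {φ ψ : X →L[ℝ] ℝ}
    (h : ∀ x ∈ Δ, φ x = ψ x) : φ = ψ := by
  have h1 : ∀ x ∈ Submodule.span ℝ Δ, φ x = ψ x := by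
    intro x hx
    induction hx using Submodule.span_induction with
    | mem x hx => exact h x hx
    | zero => rw [map_zero, map_zero]
    | add x y _ _ hx hy => rw [map_add, map_add, hx, hy]
    | smul a x _ hx => rw [map_smul, map_smul, hx]
  ext x
  have hcl : IsClosed {x : X | φ x = ψ x} := isClosed_eq φ.continuous ψ.continuous
  exact closure_minimal (fun x hx => h1 x hx) hcl (hΔ x)

lemma exists_near_max (T : Y →L[ℝ] X) (y : X) (n k : ℕ) :
    ∃ f ∈ CC T n, ∀ h ∈ CC T n, h y - 1 / ((k : ℝ) + 1) < f y := by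
  set S : Set ℝ := (fun h : X →L[ℝ] ℝ => h y) '' CC T n with hS
  have hne : S.Nonempty := ⟨_, 0, CC_zero T n, rfl⟩
  have hbdd : BddAbove S := by
    refine ⟨((n : ℝ) + 1) * ‖y‖, ?_⟩
    rintro _ ⟨h, hh, rfl⟩
    calc h y ≤ ‖h y‖ := Real.le_norm_self _
      _ ≤ ‖h‖ * ‖y‖ := h.le_opNorm y
      _ ≤ ((n : ℝ) + 1) * ‖y‖ := mul_le_mul_of_nonneg_right (CC_norm hh) (norm_nonneg _)
  have hpos : (0 : ℝ) < 1 / ((k : ℝ) + 1) := by positivity
  obtain ⟨_, ⟨f, hf, rfl⟩, hlt⟩ := exists_lt_of_lt_csSup hne (sub_lt_self (sSup S) hpos)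
  refine ⟨f, hf, fun h hh => ?_⟩
  have h1 : h y ≤ sSup S := le_csSup hbdd ⟨h, hh, rfl⟩
  have h2 : sSup S - 1 / ((k : ℝ) + 1) < f y := hlt
  linarith

/-- closed rational boxes -/
def box (t : Finset X) (q : t → ℚ) (s : ℚ) : Set (DBall X) :=
  {h | ∀ x : t, |h.fn (x : X) - (q x : ℝ)| ≤ (s : ℝ)}

lemma isClosed_box (t : Finset X) (q : t → ℚ) (s : ℚ) : IsClosed (box t q s) := by
  have : box t q s = ⋂ x : t, {h : DBall X | |h.fn (x : X) - (q x : ℝ)| ≤ (s : ℝ)} := by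
    ext h
    simp [box]
  rw [this]
  exact isClosed_iInter fun x =>
    isClosed_le ((continuous_eval _).sub continuous_const).abs continuous_const

/-- the countable family of functionals attached to finite sets -/
lemma exists_family (hY : ∀ S : Submodule ℝ Y, TopologicalSpace.IsSeparable (S : Set Y) →
    TopologicalSpace.SeparableSpace (S →L[ℝ] ℝ)) (T : Y →L[ℝ] X) :
    ∃ G : Finset X → Set (X →L[ℝ] ℝ), (∀ t, (G t).Countable) ∧ Rich T G ∧
      ∀ m : ℕ, ∃ r : DBall X → Ordinal.{0}, (∀ ξ, IsOpen {x | r x ≤ ξ}) ∧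
        (∀ f g : DBall X, r f = r g → ‖(f.fn - g.fn).comp T‖ ≤ 1 / ((m : ℝ) + 1)) ∧
        ∀ (t : Finset X) (q : t → ℚ) (s : ℚ), (box t q s).Nonempty →
          ∃ g ∈ box t q s, g.fn ∈ G t ∧ ∀ h ∈ box t q s, r h ≤ r g := by
  classical
  choose nm hnm1 hnm2 using fun (y : X) (n k : ℕ) => exists_near_max T y n k
  choose r hr1 hr2 using fun m : ℕ =>
    exists_rank_ball hY T (ε := 1 / ((m : ℝ) + 1)) (by positivity)
  have hmax : ∀ (m : ℕ) (t : Finset X) (q : t → ℚ) (s : ℚ), ∃ g : DBall X,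
      (box t q s).Nonempty → g ∈ box t q s ∧ ∀ h ∈ box t q s, r m h ≤ r m g := by
    intro m t q s
    by_cases hne : (box t q s).Nonempty
    · obtain ⟨g, hg, hg2⟩ := exists_max_rank (hr1 m) (isClosed_box t q s).isCompact hne
      exact ⟨g, fun _ => ⟨hg, hg2⟩⟩
    · exact ⟨DBall.mk' 0 (by simp), fun h => absurd h hne⟩
  choose mx hmx using hmax
  refine ⟨fun t => range (fun p : (t → ℚ) × ℕ × ℕ =>
      nm (∑ x : t, (p.1 x : ℝ) • (x : X)) p.2.1 p.2.2) ∪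
      range (fun p : ℕ × (t → ℚ) × ℚ => (mx p.1 t p.2.1 p.2.2).fn), ?_, ?_, ?_⟩
  · intro t
    exact (countable_range _).union (countable_range _)
  · intro t c n h hh ε hε
    obtain ⟨k, hk⟩ := exists_nat_one_div_lt hε
    have hcomb : comb t c = ∑ x : t, (c x : ℝ) • (x : X) := by
      unfold comb
      rw [← Finset.sum_coe_sort]
    refine ⟨nm (comb t c) n k, Or.inl ⟨(fun x => c x, n, k), ?_⟩, hnm1 _ _ _, ?_⟩
    · simp only [hcomb]
    · have := hnm2 (comb t c) n k h hh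
      linarith
  · intro m
    refine ⟨r m, hr1 m, hr2 m, fun t q s hne => ⟨mx m t q s, (hmx m t q s hne).1, ?_,
      (hmx m t q s hne).2⟩⟩
    exact Or.inr ⟨(m, q, s), rfl⟩

/-- a projection attached to a good set -/
structure IsProj (T : Y →L[ℝ] X) (Δ S : Set X) (P : X →L[ℝ] X) : Prop where
  fix : ∀ x ∈ S, P x = x
  kill : ∀ x ∈ Δ, x ∉ S → P x = 0
  contr : ∀ f : X →L[ℝ] ℝ, ‖(f.comp P).comp T‖ ≤ ‖f.comp T‖

/-- density of the attached functionals -/
lemma approx {T : Y →L[ℝ] X} {G : Finset X → Set (X →L[ℝ] ℝ)} {Δ : Set X}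
    (hΔ : Dense (Submodule.span ℝ Δ : Set X)) {m : ℕ} {r : DBall X → Ordinal.{0}}
    (hr1 : ∀ ξ, IsOpen {x | r x ≤ ξ})
    (hr2 : ∀ f g : DBall X, r f = r g → ‖(f.fn - g.fn).comp T‖ ≤ 1 / ((m : ℝ) + 1))
    (hr3 : ∀ (t : Finset X) (q : t → ℚ) (s : ℚ), (box t q s).Nonempty →
          ∃ g ∈ box t q s, g.fn ∈ G t ∧ ∀ h ∈ box t q s, r h ≤ r g)
    {S : Set X} (hS : IsGood G Δ S) (hne : S.Nonempty) {P : X →L[ℝ] X} (hP : IsProj T Δ S P)
    (f : DBall X) : ∃ t : Finset X, t.Nonempty ∧ (t : Set X) ⊆ S ∧ ∃ g ∈ G t,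
      ‖(f.fn.comp P - g).comp T‖ ≤ 1 / ((m : ℝ) + 1) := by
  classical
  obtain ⟨x₀, hx₀⟩ := hne
  set F : Set (DBall X) := {f' | ∀ x ∈ S, f'.fn x = f.fn x} with hF
  have hFcl : IsClosed F := by
    have : F = ⋂ x ∈ S, {f' : DBall X | f'.fn x = f.fn x} := by
      ext f'
      simp [hF]
    rw [this]
    exact isClosed_biInter fun x _ => isClosed_eq (continuous_eval _) continuous_const
  obtain ⟨f', hf', hf'max⟩ := exists_max_rank hr1 hFcl.isCompact ⟨f, fun _ _ => rfl⟩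
  set O : Set (DBall X) := {h | r h ≤ r f'} with hO
  have hcomp : IsCompact Oᶜ := (hr1 (r f')).isClosed_compl.isCompact
  -- cover
  have hcov : Oᶜ ⊆ ⋃ p : S × ℕ, {h : DBall X | 1 / ((p.2 : ℝ) + 1) < |h.fn p.1 - f.fn p.1|} := by
    intro h hh
    have h1 : h ∉ F := fun hc => hh (hf'max h hc)
    rw [hF, mem_ofPred_eq] at h1
    push Not at h1
    obtain ⟨x, hx, hne⟩ := h1
    obtain ⟨k, hk⟩ := exists_nat_one_div_lt (abs_pos.2 (sub_ne_zero.2 hne))
    exact mem_iUnion.2 ⟨(⟨x, hx⟩, k), hk⟩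
  obtain ⟨τ, hτ⟩ := hcomp.elim_finite_subcover _ (fun p =>
    isOpen_lt continuous_const ((continuous_eval _).sub continuous_const).abs) hcov
  set t : Finset X := insert x₀ (τ.image fun p => (p.1 : X)) with ht
  have htne : t.Nonempty := ⟨x₀, Finset.mem_insert_self _ _⟩
  have htS : (t : Set X) ⊆ S := by
    intro x hx
    rw [ht, Finset.coe_insert, Finset.coe_image] at hx
    rcases hx with rfl | ⟨p, _, rfl⟩
    · exact hx₀
    · exact p.1.2
  obtain ⟨K, hK⟩ : ∃ K : ℕ, ∀ p ∈ τ, p.2 ≤ K := ⟨τ.sup fun p => p.2, fun p hp =>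
    Finset.le_sup (f := fun p : S × ℕ => p.2) hp⟩
  have hδ : (0 : ℝ) < 1 / ((K : ℝ) + 1) / 2 := by positivity
  obtain ⟨s, hs0, hs⟩ := exists_rat_btwn hδ
  have hs0' : (0 : ℝ) < s := hs0
  choose q hq using fun x : t => exists_rat_near (f.fn (x : X)) hs0'
  have hbox : ∀ h ∈ box t q s, ∀ x ∈ t, |h.fn x - f.fn x| ≤ 1 / ((K : ℝ) + 1) := by
    intro h hh x hx
    have h1 := hh ⟨x, hx⟩
    have h2 := hq ⟨x, hx⟩
    have h3 : h.fn x - f.fn x = (h.fn x - q ⟨x, hx⟩) - (f.fn x - q ⟨x, hx⟩) := by ring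
    rw [h3]
    refine (abs_sub _ _).trans ?_
    linarith
  have hFbox : F ⊆ box t q s := by
    intro h hh x
    rw [hh x (htS x.2)]
    exact (hq x).le
  have hboxO : box t q s ⊆ O := by
    intro h hh
    by_contra hc
    obtain ⟨p, hp, hlt⟩ := mem_iUnion₂.1 (hτ hc)
    have h1 := hbox h hh (p.1 : X) (by
      rw [ht]
      exact Finset.mem_insert_of_mem (Finset.mem_image_of_mem (fun p : S × ℕ => (p.1 : X)) hp))
    have h2 : 1 / ((K : ℝ) + 1) ≤ 1 / ((p.2 : ℝ) + 1) := by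
      have : (p.2 : ℝ) ≤ K := by exact_mod_cast hK p hp
      exact one_div_le_one_div_of_le (by positivity) (by linarith)
    have h3 : 1 / ((p.2 : ℝ) + 1) < |h.fn p.1 - f.fn p.1| := hlt
    linarith
  obtain ⟨g, hg1, hg2, hg3⟩ := hr3 t q s ⟨f', hFbox hf'⟩
  have hrank : r f' = r g := le_antisymm (hg3 f' (hFbox hf')) (hboxO hg1)
  refine ⟨t, htne, htS, g.fn, hg2, ?_⟩
  have e1 : f.fn.comp P = f'.fn.comp P := by
    refine ext_dense hΔ fun x hx => ?_
    show f.fn (P x) = f'.fn (P x)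
    by_cases hxS : x ∈ S
    · rw [hP.fix x hxS, hf' x hxS]
    · rw [hP.kill x hx hxS, map_zero, map_zero]
  have e2 : g.fn = g.fn.comp P := by
    refine ext_dense hΔ fun x hx => ?_
    show g.fn x = g.fn (P x)
    by_cases hxS : x ∈ S
    · rw [hP.fix x hxS]
    · rw [hP.kill x hx hxS, map_zero]
      by_contra hne
      exact hxS (hS.2 t htne htS g.fn hg2 x hx hne)
  have e3 : f.fn.comp P - g.fn = (f'.fn - g.fn).comp P := by
    rw [e1]
    conv_lhs => rw [e2]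
    rfl
  rw [e3]
  exact (hP.contr _).trans (hr2 f' g hrank)

end Pool.Agent.Helper176.WG
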