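import Mathlib
import Pool.Agent.Helper176.WGGood

set_option autoImplicit false

namespace Pool.Agent.Helper176.WG

open Set Topology Filter Cardinal

variable {X : Type} [NormedAddCommGroup X] [NormedSpace ℝ X]
variable {Y : Type*} [NormedAddCommGroup Y] [NormedSpace ℝ Y]

section Closure

variable (G : Finset X → Set (X →L[ℝ] ℝ)) (Δ : Set X)

/-- one step of the closing-off -/
def stp (R : Set X) : Set X :=
  R ∪ {x | x ∈ Δ ∧ ∃ t : Finset X, t.Nonempty ∧ (t : Set X) ⊆ R ∧ ∃ g ∈ G t, g x ≠ 0}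

/-- iterated closing-off -/
def itr (R : Set X) : ℕ → Set X
  | 0 => R
  | n + 1 => stp G Δ (itr R n)

/-- the closure -/
def cl (R : Set X) : Set X := ⋃ n, itr G Δ R n

variable {G Δ}

lemma itr_mono (R : Set X) : Monotone (itr G Δ R) :=
  monotone_nat_of_le_succ fun _ => subset_union_left

lemma subset_cl (R : Set X) : R ⊆ cl G Δ R := fun _ hx => mem_iUnion.2 ⟨0, hx⟩

omit [NormedAddCommGroup X] [NormedSpace ℝ X] in
lemma finset_subset_iUnion {V : ℕ → Set X} (hV : Monotone V) {t : Finset X}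
    (ht : (t : Set X) ⊆ ⋃ n, V n) : ∃ n, (t : Set X) ⊆ V n := by
  classical
  have h1 : ∀ x : X, ∃ n, x ∈ t → x ∈ V n := by
    intro x
    by_cases hx : x ∈ t
    · obtain ⟨n, hn⟩ := mem_iUnion.1 (ht hx)
      exact ⟨n, fun _ => hn⟩
    · exact ⟨0, fun h => absurd h hx⟩
  choose n hn using h1
  exact ⟨t.sup n, fun x hx => hV (Finset.le_sup (f := n) hx) (hn x hx)⟩

lemma isGood_cl {R : Set X} (hR : R ⊆ Δ) : IsGood G Δ (cl G Δ R) := by
  refine ⟨?_, ?_⟩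
  · refine iUnion_subset fun n => ?_
    induction n with
    | zero => exact hR
    | succ n ih => exact union_subset ih fun x hx => hx.1
  · intro t hne ht g hg x hx hgx
    obtain ⟨n, hn⟩ := finset_subset_iUnion (itr_mono R) ht
    exact mem_iUnion.2 ⟨n + 1, Or.inr ⟨hx, t, hne, hn, g, hg, hgx⟩⟩

lemma cl_min {R S : Set X} (hRS : R ⊆ S) (hS : IsGood G Δ S) : cl G Δ R ⊆ S := by
  refine iUnion_subset fun n => ?_
  induction n with
  | zero => exact hRS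
  | succ n ih =>
    refine union_subset ih ?_
    rintro x ⟨hx, t, hne, ht, g, hg, hgx⟩
    exact hS.2 t hne (ht.trans ih) g hg x hx hgx

lemma cl_mono {R R' : Set X} (h : R ⊆ R') (hR' : R' ⊆ Δ) : cl G Δ R ⊆ cl G Δ R' :=
  cl_min (h.trans (subset_cl R')) (isGood_cl hR')

/-- unions of chains of good sets are good -/
lemma isGood_iUnion {I : Type*} [LinearOrder I] {V : I → Set X} (hV : Monotone V)
    (hg : ∀ i, IsGood G Δ (V i)) : IsGood G Δ (⋃ i, V i) := by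
  classical
  refine ⟨iUnion_subset fun i => (hg i).1, ?_⟩
  intro t hne ht g hgt x hx hgx
  have hne' : Nonempty I := by
    obtain ⟨y, hy⟩ := hne
    obtain ⟨i, _⟩ := mem_iUnion.1 (ht hy)
    exact ⟨i⟩
  have h1 : ∀ x : X, ∃ i, x ∈ t → x ∈ V i := by
    intro x
    by_cases hx : x ∈ t
    · obtain ⟨i, hi⟩ := mem_iUnion.1 (ht hx)
      exact ⟨i, fun _ => hi⟩
    · exact ⟨hne'.some, fun h => absurd h hx⟩
  choose i hi using h1
  obtain ⟨z, _, hz⟩ := t.exists_max_image i hne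
  refine mem_iUnion.2 ⟨i z, (hg (i z)).2 t hne (fun y hy => hV (hz y hy) (hi y hy)) g hgt x hx hgx⟩

lemma card_stp {c : Cardinal.{0}} (hc : ℵ₀ ≤ c) (hG : ∀ t, (G t).Countable)
    (hΔc : ∀ f : X →L[ℝ] ℝ, {x ∈ Δ | f x ≠ 0}.Countable) {R : Set X} (hR : #R ≤ c) :
    #(stp G Δ R) ≤ c := by
  classical
  have hsub : {x | x ∈ Δ ∧ ∃ t : Finset X, t.Nonempty ∧ (t : Set X) ⊆ R ∧ ∃ g ∈ G t, g x ≠ 0} ⊆
      ⋃ l : List R, ⋃ g ∈ G ((l.map (fun x : R => (x : X))).toFinset), {x ∈ Δ | g x ≠ 0} := by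
    rintro x ⟨hx, t, _, ht, g, hg, hgx⟩
    have h1 : ∃ l : List R, (l.map (fun x : R => (x : X))).toFinset = t := by
      refine ⟨t.toList.pmap (fun y hy => (⟨y, hy⟩ : R)) fun y hy => ht (Finset.mem_toList.1 hy), ?_⟩
      rw [List.map_pmap]
      simp
    obtain ⟨l, hl⟩ := h1
    refine mem_iUnion.2 ⟨l, mem_iUnion₂.2 ⟨g, ?_, hx, hgx⟩⟩
    rw [hl]
    exact hg
  have hcount : ∀ l : List R,
      (⋃ g ∈ G ((l.map (fun x : R => (x : X))).toFinset), {x ∈ Δ | g x ≠ 0}).Countable :=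
    fun l => (hG _).biUnion fun g _ => hΔc g
  have h2 : #(⋃ l : List R, ⋃ g ∈ G ((l.map (fun x : R => (x : X))).toFinset),
      {x ∈ Δ | g x ≠ 0} : Set X) ≤ c := by
    refine (Cardinal.mk_iUnion_le_sum_mk).trans ?_
    refine (Cardinal.sum_le_sum _ (fun _ => ℵ₀) fun l =>
      Cardinal.le_aleph0_iff_set_countable.2 (hcount l)).trans ?_
    rw [Cardinal.sum_const', ]
    have h3 : #(List R) ≤ c := (Cardinal.mk_list_le_max R).trans (max_le hc hR)
    calc #(List R) * ℵ₀ ≤ c * c := mul_le_mul' h3 hc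
      _ = c := Cardinal.mul_eq_self hc
  refine (Cardinal.mk_union_le _ _).trans ?_
  calc #R + #{x | x ∈ Δ ∧ ∃ t : Finset X, t.Nonempty ∧ (t : Set X) ⊆ R ∧ ∃ g ∈ G t, g x ≠ 0}
      ≤ c + c := add_le_add hR ((Cardinal.mk_le_mk_of_subset hsub).trans h2)
    _ = c := Cardinal.add_eq_self hc

lemma card_cl {c : Cardinal.{0}} (hc : ℵ₀ ≤ c) (hG : ∀ t, (G t).Countable)
    (hΔc : ∀ f : X →L[ℝ] ℝ, {x ∈ Δ | f x ≠ 0}.Countable) {R : Set X} (hR : #R ≤ c) :
    #(cl G Δ R) ≤ c := by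
  have h1 : ∀ n, #(itr G Δ R n) ≤ c := by
    intro n
    induction n with
    | zero => exact hR
    | succ n ih => exact card_stp hc hG hΔc ih
  refine (Cardinal.mk_iUnion_le_sum_mk).trans ?_
  refine (Cardinal.sum_le_sum _ (fun _ => c) h1).trans ?_
  rw [Cardinal.sum_const', Cardinal.mk_nat]
  calc ℵ₀ * c ≤ c * c := mul_le_mul' hc le_rfl
    _ = c := Cardinal.mul_eq_self hc

end Closure

section Chain

variable {T : Y →L[ℝ] X} {G : Finset X → Set (X →L[ℝ] ℝ)} {Δ : Set X}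

/-- the approximation property of the family -/
def Apx (T : Y →L[ℝ] X) (G : Finset X → Set (X →L[ℝ] ℝ)) : Prop :=
  ∀ m : ℕ, ∃ r : DBall X → Ordinal.{0}, (∀ ξ, IsOpen {x | r x ≤ ξ}) ∧
        (∀ f g : DBall X, r f = r g → ‖(f.fn - g.fn).comp T‖ ≤ 1 / ((m : ℝ) + 1)) ∧
        ∀ (t : Finset X) (q : t → ℚ) (s : ℚ), (box t q s).Nonempty →
          ∃ g ∈ box t q s, g.fn ∈ G t ∧ ∀ h ∈ box t q s, r h ≤ r g

lemma chain_conv_ball (hΔ : Dense (Submodule.span ℝ Δ : Set X)) (hA : Apx T G)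
    {V : ℕ → Set X} (hV : Monotone V) (hg : ∀ n, IsGood G Δ (V n)) {P : ℕ → X →L[ℝ] X}
    (hP : ∀ n, IsProj T Δ (V n) (P n)) {P' : X →L[ℝ] X} (hP' : IsProj T Δ (⋃ n, V n) P')
    (f : DBall X) {ε : ℝ} (hε : 0 < ε) :
    ∃ n₀, ∀ n ≥ n₀, ‖(f.fn.comp (P n) - f.fn.comp P').comp T‖ ≤ ε := by
  rcases (⋃ n, V n).eq_empty_or_nonempty with h0 | hne
  · refine ⟨0, fun n _ => ?_⟩
    have : f.fn.comp (P n) = f.fn.comp P' := by
      refine ext_dense hΔ fun x hx => ?_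
      show f.fn (P n x) = f.fn (P' x)
      have h1 : x ∉ ⋃ n, V n := by rw [h0]; exact notMem_empty x
      rw [hP'.kill x hx h1, (hP n).kill x hx fun hc => h1 (mem_iUnion.2 ⟨n, hc⟩)]
    rw [this, sub_self]
    simpa using hε.le
  · obtain ⟨m, hm⟩ := exists_nat_one_div_lt (half_pos hε)
    obtain ⟨r, hr1, hr2, hr3⟩ := hA m
    obtain ⟨t, htne, htV, g, hg1, hg2⟩ := approx hΔ hr1 hr2 hr3 (isGood_iUnion hV hg) hne hP' f
    obtain ⟨n₀, hn₀⟩ := finset_subset_iUnion hV htV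
    refine ⟨n₀, fun n hn => ?_⟩
    have htn : (t : Set X) ⊆ V n := hn₀.trans (hV hn)
    have e1 : g = g.comp (P n) := by
      refine ext_dense hΔ fun x hx => ?_
      show g x = g (P n x)
      by_cases hxS : x ∈ V n
      · rw [(hP n).fix x hxS]
      · rw [(hP n).kill x hx hxS, map_zero]
        by_contra hne'
        exact hxS ((hg n).2 t htne htn g hg1 x hx hne')
    have e2 : f.fn.comp (P n) = (f.fn.comp P').comp (P n) := by
      refine ext_dense hΔ fun x hx => ?_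
      show f.fn (P n x) = f.fn (P' (P n x))
      by_cases hxS : x ∈ V n
      · rw [(hP n).fix x hxS, hP'.fix x (mem_iUnion.2 ⟨n, hxS⟩)]
      · rw [(hP n).kill x hx hxS, map_zero, map_zero, map_zero]
    have e3 : f.fn.comp (P n) - g = (f.fn.comp P' - g).comp (P n) := by
      rw [e2]
      conv_lhs => rw [e1]
      rfl
    have h1 : ‖(f.fn.comp (P n) - g).comp T‖ ≤ 1 / ((m : ℝ) + 1) := by
      rw [e3]
      exact ((hP n).contr _).trans hg2
    have e4 : (f.fn.comp (P n) - f.fn.comp P').comp T =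
        (f.fn.comp (P n) - g).comp T - (f.fn.comp P' - g).comp T := by
      ext y
      simp
    rw [e4]
    refine (norm_sub_le _ _).trans ?_
    linarith

lemma chain_conv (hΔ : Dense (Submodule.span ℝ Δ : Set X)) (hA : Apx T G)
    {V : ℕ → Set X} (hV : Monotone V) (hg : ∀ n, IsGood G Δ (V n)) {P : ℕ → X →L[ℝ] X}
    (hP : ∀ n, IsProj T Δ (V n) (P n)) {P' : X →L[ℝ] X} (hP' : IsProj T Δ (⋃ n, V n) P')
    (f : X →L[ℝ] ℝ) {ε : ℝ} (hε : 0 < ε) :
    ∃ n₀, ∀ n ≥ n₀, ‖(f.comp (P n) - f.comp P').comp T‖ ≤ ε := by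
  set c : ℝ := ‖f‖ + 1 with hc
  have hc0 : 0 < c := by positivity
  have hf1 : ‖c⁻¹ • f‖ ≤ 1 := by
    rw [norm_smul, Real.norm_eq_abs, abs_of_pos (inv_pos.2 hc0), inv_mul_le_iff₀ hc0]
    linarith
  obtain ⟨n₀, hn₀⟩ := chain_conv_ball hΔ hA hV hg hP hP' (DBall.mk' (c⁻¹ • f) hf1)
    (ε := ε / c) (by positivity)
  refine ⟨n₀, fun n hn => ?_⟩
  have h1 := hn₀ n hn
  rw [DBall.fn_mk'] at h1
  have e1 : ((c⁻¹ • f).comp (P n) - (c⁻¹ • f).comp P').comp T =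
      c⁻¹ • (f.comp (P n) - f.comp P').comp T := by
    ext y
    simp [mul_sub]
  rw [e1, norm_smul, Real.norm_eq_abs, abs_of_pos (inv_pos.2 hc0), inv_mul_le_iff₀ hc0] at h1
  calc ‖(f.comp (P n) - f.comp P').comp T‖ ≤ c * (ε / c) := h1
    _ = ε := by field_simp

end Chain

end Pool.Agent.Helper176.WG
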