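import Mathlib
import Pool.Agent.Helper176.WGChain

set_option autoImplicit false

namespace Pool.Agent.Helper176.WG

open Set Topology Filter Cardinal

variable {Y : Type*} [NormedAddCommGroup Y] [NormedSpace ℝ Y]

/-- a null generating system dominated by the operator -/
def Concl {X : Type} [NormedAddCommGroup X] [NormedSpace ℝ X] (T : Y →L[ℝ] X) : Prop :=
  ∃ W : Set X, Dense (Submodule.span ℝ W : Set X) ∧
    (∀ w ∈ W, ∀ f : X →L[ℝ] ℝ, |f w| ≤ ‖f.comp T‖) ∧
    ∀ f : X →L[ℝ] ℝ, ∀ ε : ℝ, 0 < ε → {w | w ∈ W ∧ ε < |f w|}.Finite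

section Decomp

variable {X : Type} [NormedAddCommGroup X] [NormedSpace ℝ X] [CompleteSpace X]

lemma exists_strictMono_of_infinite {I : Type} [LinearOrder I] [WellFoundedLT I] {s : Set I}
    (hs : s.Infinite) : ∃ a : ℕ → I, StrictMono a ∧ ∀ n, a n ∈ s := by
  obtain ⟨g, hg⟩ := exists_increasing_or_nonincreasing_subseq (fun x y : I => x < y)
    (fun n => ((hs.natEmbedding s n : s) : I))
  rcases hg with h | h
  · exact ⟨fun n => (hs.natEmbedding s (g n) : s), strictMono_nat_of_lt_succ fun n =>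
      h n (n + 1) (Nat.lt_succ_self n), fun n => (hs.natEmbedding s (g n)).2⟩
  · exfalso
    have hinj : ∀ m n : ℕ, m < n → ((hs.natEmbedding s (g n) : s) : I) <
        ((hs.natEmbedding s (g m) : s) : I) := by
      intro m n hmn
      refine lt_of_le_of_ne (not_lt.1 (h m n hmn)) fun heq => ?_
      have h1 := (hs.natEmbedding s).injective (Subtype.ext heq)
      have h2 := g.injective h1
      omega
    obtain ⟨_, ⟨n, rfl⟩, hmin⟩ := WellFounded.has_min (wellFounded_lt (α := I))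
      (range fun n => ((hs.natEmbedding s (g n) : s) : I)) (range_nonempty _)
    exact hmin _ ⟨n + 1, rfl⟩ (hinj n (n + 1) (Nat.lt_succ_self n))

theorem decomp (hY : ∀ S : Submodule ℝ Y, TopologicalSpace.IsSeparable (S : Set Y) →
    TopologicalSpace.SeparableSpace (S →L[ℝ] ℝ)) (T : Y →L[ℝ] X) {Δ : Set X}
    (hΔ : Dense (Submodule.span ℝ Δ : Set X))
    (hΔc : ∀ f : X →L[ℝ] ℝ, {x ∈ Δ | f x ≠ 0}.Countable) (hbig : ℵ₀ < #Δ) :
    ∃ (I : Type) (Q : I → X →L[ℝ] X) (D : I → Set X), (∀ i, #(D i) < #Δ) ∧ (⋃ i, D i) = Δ ∧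
      (∀ i, ∀ x ∈ D i, Q i x = x) ∧ (∀ i, ∀ x ∈ Δ, x ∉ D i → Q i x = 0) ∧
      (∀ i, ∀ f : X →L[ℝ] ℝ, ‖(f.comp (Q i)).comp T‖ ≤ 2 * ‖f.comp T‖) ∧
      ∀ f : X →L[ℝ] ℝ, ∀ ε : ℝ, 0 < ε → {i | ε < ‖(f.comp (Q i)).comp T‖}.Finite := by
  classical
  obtain ⟨G, hG1, hG2, hG3⟩ := exists_family hY T
  have hA : Apx T G := hG3
  set I := (#Δ).ord.ToType with hI
  have hcard : #Δ = #I := (Cardinal.mk_ord_toType _).symm
  obtain ⟨e⟩ := Cardinal.eq.1 hcard
  set Rm : I → Set X := fun α => {x | ∃ h : x ∈ Δ, e ⟨x, h⟩ < α} with hRm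
  set Rp : I → Set X := fun α => {x | ∃ h : x ∈ Δ, e ⟨x, h⟩ ≤ α} with hRp
  have hRmΔ : ∀ α, Rm α ⊆ Δ := fun α x hx => hx.1
  have hRpΔ : ∀ α, Rp α ⊆ Δ := fun α x hx => hx.1
  set Sm : I → Set X := fun α => cl G Δ (Rm α) with hSm
  set Sp : I → Set X := fun α => cl G Δ (Rp α) with hSp
  have hSmG : ∀ α, IsGood G Δ (Sm α) := fun α => isGood_cl (hRmΔ α)
  have hSpG : ∀ α, IsGood G Δ (Sp α) := fun α => isGood_cl (hRpΔ α)
  have hmp : ∀ α, Sm α ⊆ Sp α := fun α => cl_mono (fun x hx => ⟨hx.1, hx.2.le⟩) (hRpΔ α)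
  have hpm : ∀ α β, α < β → Sp α ⊆ Sm β := fun α β h =>
    cl_mono (fun x hx => ⟨hx.1, hx.2.trans_lt h⟩) (hRmΔ β)
  have hSpmono : Monotone Sp := fun α β h =>
    cl_mono (fun x hx => ⟨hx.1, hx.2.trans h⟩) (hRpΔ β)
  have hSmmono : Monotone Sm := fun α β h =>
    cl_mono (fun x hx => ⟨hx.1, hx.2.trans_le h⟩) (hRmΔ β)
  have hRpcard : ∀ α, #(Rp α) < #Δ := by
    intro α
    have h1 : #(Rp α) ≤ #(Set.Iic α) := by
      refine Cardinal.mk_le_of_injective (f := fun x : Rp α => (⟨e ⟨x.1, x.2.1⟩, x.2.2⟩ : Set.Iic α)) ?_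
      intro x y hxy
      have h2 := congrArg Subtype.val hxy
      have h3 := congrArg Subtype.val (e.injective h2)
      exact Subtype.ext h3
    have h2 : Set.Iic α = insert α (Set.Iio α) := by
      ext x
      simp [le_iff_lt_or_eq, or_comm]
    have h3 : #(Set.Iio α) < #Δ := by
      have h4 := Cardinal.mk_Iio_lt α (by rw [← hcard]; exact (Ordinal.type_toType _).symm)
      rwa [← hcard] at h4
    rw [h2] at h1
    refine (h1.trans Cardinal.mk_insert_le).trans_lt ?_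
    exact Cardinal.add_lt_of_lt hbig.le h3 (Cardinal.one_lt_aleph0.trans hbig)
  have hSpcard : ∀ α, #(Sp α) < #Δ := by
    intro α
    refine (card_cl (le_max_right (#(Rp α)) ℵ₀) hG1 hΔc (le_max_left _ _)).trans_lt ?_
    exact max_lt (hRpcard α) hbig
  choose Pm hPm1 hPm2 hPm3 using fun α => exists_proj hG2 hΔ (hSmG α)
  choose Pp hPp1 hPp2 hPp3 using fun α => exists_proj hG2 hΔ (hSpG α)
  have hPm : ∀ α, IsProj T Δ (Sm α) (Pm α) := fun α => ⟨hPm1 α, hPm2 α, hPm3 α⟩
  have hPp : ∀ α, IsProj T Δ (Sp α) (Pp α) := fun α => ⟨hPp1 α, hPp2 α, hPp3 α⟩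
  refine ⟨I, fun α => Pp α - Pm α, fun α => Sp α \ Sm α, ?_, ?_, ?_, ?_, ?_, ?_⟩
  · intro α
    exact (Cardinal.mk_le_mk_of_subset sdiff_subset).trans_lt (hSpcard α)
  · refine Subset.antisymm (iUnion_subset fun α => sdiff_subset.trans (hSpG α).1) ?_
    intro x hx
    have hne : {α | x ∈ Sp α}.Nonempty := ⟨e ⟨x, hx⟩, subset_cl _ ⟨hx, le_rfl⟩⟩
    obtain ⟨α, hα, hmin⟩ := WellFounded.has_min (wellFounded_lt (α := I)) _ hne
    refine mem_iUnion.2 ⟨α, hα, fun hc => ?_⟩
    have h1 : Sm α ⊆ ⋃ β : Set.Iio α, Sp β := by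
      refine cl_min ?_ (isGood_iUnion (fun β γ h => hSpmono h) fun β => hSpG β)
      rintro y ⟨hy, hlt⟩
      exact mem_iUnion.2 ⟨⟨e ⟨y, hy⟩, hlt⟩, subset_cl _ ⟨hy, le_rfl⟩⟩
    obtain ⟨β, hβ⟩ := mem_iUnion.1 (h1 hc)
    exact hmin β hβ β.2
  · rintro α x ⟨hx1, hx2⟩
    show Pp α x - Pm α x = x
    rw [hPp1 α x hx1, hPm2 α x ((hSpG α).1 hx1) hx2, sub_zero]
  · intro α x hx hxD
    show Pp α x - Pm α x = 0
    by_cases h1 : x ∈ Sm α
    · rw [hPp1 α x (hmp α h1), hPm1 α x h1, sub_self]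
    · have h2 : x ∉ Sp α := fun hc => hxD ⟨hc, h1⟩
      rw [hPp2 α x hx h2, hPm2 α x hx h1, sub_self]
  · intro α f
    have e1 : (f.comp (Pp α - Pm α)).comp T = (f.comp (Pp α)).comp T - (f.comp (Pm α)).comp T := by
      ext y
      simp
    rw [e1]
    refine (norm_sub_le _ _).trans ?_
    linarith [hPp3 α f, hPm3 α f]
  · intro f ε hε
    by_contra hinf
    obtain ⟨a, ha, has⟩ := exists_strictMono_of_infinite hinf
    have hVm : Monotone fun n => Sm (a n) := fun m n h => hSmmono (ha.monotone h)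
    have hVp : Monotone fun n => Sp (a n) := fun m n h => hSpmono (ha.monotone h)
    have hun : (⋃ n, Sp (a n)) = ⋃ n, Sm (a n) := by
      refine Subset.antisymm (iUnion_subset fun n => ?_) (iUnion_mono fun n => hmp _)
      exact (hpm _ _ (ha (Nat.lt_succ_self n))).trans (subset_iUnion (fun n => Sm (a n)) (n + 1))
    have hgood := isGood_iUnion hVm fun n => hSmG (a n)
    obtain ⟨P', h1, h2, h3⟩ := exists_proj hG2 hΔ hgood
    have hP' : IsProj T Δ (⋃ n, Sm (a n)) P' := ⟨h1, h2, h3⟩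
    have hP'' : IsProj T Δ (⋃ n, Sp (a n)) P' := by rw [hun]; exact hP'
    obtain ⟨n₁, hn₁⟩ := chain_conv hΔ hA hVm (fun n => hSmG (a n)) (fun n => hPm (a n)) hP' f
      (half_pos hε)
    obtain ⟨n₂, hn₂⟩ := chain_conv hΔ hA hVp (fun n => hSpG (a n)) (fun n => hPp (a n)) hP'' f
      (half_pos hε)
    have h4 := hn₁ (max n₁ n₂) (le_max_left _ _)
    have h5 := hn₂ (max n₁ n₂) (le_max_right _ _)
    have h6 : ε < ‖(f.comp (Pp (a (max n₁ n₂)) - Pm (a (max n₁ n₂)))).comp T‖ := has _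
    have e1 : (f.comp (Pp (a (max n₁ n₂)) - Pm (a (max n₁ n₂)))).comp T =
        (f.comp (Pp (a (max n₁ n₂))) - f.comp P').comp T -
        (f.comp (Pm (a (max n₁ n₂))) - f.comp P').comp T := by
      ext y
      simp
    rw [e1] at h6
    have h7 := norm_sub_le ((f.comp (Pp (a (max n₁ n₂))) - f.comp P').comp T)
      ((f.comp (Pm (a (max n₁ n₂))) - f.comp P').comp T)
    linarith

end Decomp

section Base

variable {X : Type} [NormedAddCommGroup X] [NormedSpace ℝ X]

theorem concl_of_separable [TopologicalSpace.SeparableSpace X] (T : Y →L[ℝ] X)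
    (hT : DenseRange T) : Concl T := by
  classical
  have : SecondCountableTopology X := UniformSpace.secondCountable_of_separable X
  have hne : Nonempty (range T) := ⟨⟨T 0, 0, rfl⟩⟩
  have hex : ∀ n : ℕ, ∃ y : Y, T y = TopologicalSpace.denseSeq (range T) n :=
    fun n => (TopologicalSpace.denseSeq (range T) n).2
  choose y hy using hex
  set c : ℕ → ℝ := fun n => (((n : ℝ) + 1) * (‖y n‖ + 1)) with hc
  have hc0 : ∀ n, 0 < c n := fun n => by positivity
  have hbd : ∀ n, ∀ f : X →L[ℝ] ℝ, |f ((c n)⁻¹ • T (y n))| ≤ ‖f.comp T‖ * (1 / ((n : ℝ) + 1)) := by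
    intro n f
    rw [map_smul, smul_eq_mul, abs_mul, abs_of_pos (inv_pos.2 (hc0 n)), inv_mul_le_iff₀ (hc0 n)]
    calc |f (T (y n))| = ‖(f.comp T) (y n)‖ := rfl
      _ ≤ ‖f.comp T‖ * ‖y n‖ := (f.comp T).le_opNorm _
      _ ≤ ‖f.comp T‖ * (‖y n‖ + 1) :=
          mul_le_mul_of_nonneg_left (by linarith) (norm_nonneg _)
      _ = c n * (‖f.comp T‖ * (1 / ((n : ℝ) + 1))) := by
          rw [hc]
          field_simp
  refine ⟨range fun n => (c n)⁻¹ • T (y n), ?_, ?_, ?_⟩
  · have h1 : Dense (range fun n => T (y n)) := by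
      intro x
      rw [Metric.mem_closure_iff]
      intro ε hε
      obtain ⟨u, hu⟩ := hT.exists_dist_lt x (half_pos hε)
      obtain ⟨n, hn⟩ := (TopologicalSpace.denseRange_denseSeq (range T)).exists_dist_lt
        (⟨T u, u, rfl⟩ : range T) (half_pos hε)
      refine ⟨T (y n), ⟨n, rfl⟩, ?_⟩
      rw [hy n]
      have h2 : dist (T u) (TopologicalSpace.denseSeq (range T) n : X) < ε / 2 := hn
      linarith [dist_triangle x (T u) (TopologicalSpace.denseSeq (range T) n : X)]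
    refine h1.mono ?_
    rintro _ ⟨n, rfl⟩
    have h2 : T (y n) = c n • ((c n)⁻¹ • T (y n)) := by
      rw [smul_smul, mul_inv_cancel₀ (hc0 n).ne', one_smul]
    show T (y n) ∈ Submodule.span ℝ (range fun n => (c n)⁻¹ • T (y n))
    rw [h2]
    exact Submodule.smul_mem _ _ (Submodule.subset_span ⟨n, rfl⟩)
  · rintro _ ⟨n, rfl⟩ f
    refine (hbd n f).trans ?_
    have : 1 / ((n : ℝ) + 1) ≤ 1 := by
      rw [div_le_one (by positivity)]
      have : (0 : ℝ) ≤ n := Nat.cast_nonneg n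
      linarith
    exact mul_le_of_le_one_right (norm_nonneg _) this
  · intro f ε hε
    have hlim : Tendsto (fun n : ℕ => ‖f.comp T‖ * (1 / ((n : ℝ) + 1))) atTop (𝓝 0) := by
      have := tendsto_one_div_add_atTop_nhds_zero_nat (𝕜 := ℝ) |>.const_mul ‖f.comp T‖
      rwa [mul_zero] at this
    obtain ⟨N, hN⟩ := eventually_atTop.1 (hlim.eventually (gt_mem_nhds hε))
    refine ((Set.finite_lt_nat N).image fun n => (c n)⁻¹ • T (y n)).subset ?_
    rintro _ ⟨⟨n, rfl⟩, hn⟩
    refine ⟨n, ?_, rfl⟩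
    by_contra hc'
    have h1 := hN n (not_lt.1 hc')
    have h2 := hbd n f
    linarith

end Base

section Main

theorem main_ind (hY : ∀ S : Submodule ℝ Y, TopologicalSpace.IsSeparable (S : Set Y) →
    TopologicalSpace.SeparableSpace (S →L[ℝ] ℝ)) (κ : Cardinal.{0}) :
    ∀ (X : Type) [NormedAddCommGroup X] [NormedSpace ℝ X] [CompleteSpace X] (T : Y →L[ℝ] X)
      (_ : DenseRange T) (Δ : Set X) (_ : Dense (Submodule.span ℝ Δ : Set X))
      (_ : ∀ f : X →L[ℝ] ℝ, {x ∈ Δ | f x ≠ 0}.Countable), #Δ = κ → Concl T := by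
  induction κ using WellFoundedLT.induction with
  | ind κ ih =>
  intro X _ _ _ T hT Δ hΔ hΔc hκ
  rcases le_or_gt (#Δ) ℵ₀ with hsm | hbig
  · have hcount : Δ.Countable := Cardinal.le_aleph0_iff_set_countable.1 hsm
    have hsep : TopologicalSpace.SeparableSpace X := by
      rw [← TopologicalSpace.isSeparable_univ_iff, ← hΔ.closure_eq]
      exact (hcount.isSeparable.span (R := ℝ)).closure
    exact concl_of_separable T hT
  obtain ⟨I, Q, D, hD1, hD2, hQ1, hQ2, hQ3, hQ4⟩ := decomp hY T hΔ hΔc hbig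
  have hDΔ : ∀ i, D i ⊆ Δ := fun i => hD2 ▸ subset_iUnion D i
  set Z : I → Submodule ℝ X := fun i => (Submodule.span ℝ (D i)).topologicalClosure with hZ
  have hDZ : ∀ i, D i ⊆ Z i := fun i =>
    Submodule.subset_span.trans (Submodule.le_topologicalClosure _)
  have hQZ : ∀ i x, Q i x ∈ Z i := by
    intro i x
    have h1 : ∀ x ∈ Submodule.span ℝ Δ, Q i x ∈ Z i := by
      intro x hx
      induction hx using Submodule.span_induction with
      | mem x hx =>
        by_cases h : x ∈ D i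
        · rw [hQ1 i x h]; exact hDZ i h
        · rw [hQ2 i x hx h]; exact Submodule.zero_mem _
      | zero => rw [map_zero]; exact Submodule.zero_mem _
      | add x y _ _ hx hy => rw [map_add]; exact Submodule.add_mem _ hx hy
      | smul a x _ hx => rw [map_smul]; exact Submodule.smul_mem _ _ hx
    have hcl : IsClosed {x : X | Q i x ∈ Z i} :=
      (Submodule.isClosed_topologicalClosure (Submodule.span ℝ (D i))).preimage (Q i).continuous
    exact closure_minimal (fun x hx => h1 x hx) hcl (hΔ x)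
  have hQid : ∀ i, ∀ x ∈ Z i, Q i x = x := by
    intro i
    have h1 : ∀ x ∈ Submodule.span ℝ (D i), Q i x = x := by
      intro x hx
      induction hx using Submodule.span_induction with
      | mem x hx => exact hQ1 i x hx
      | zero => rw [map_zero]
      | add x y _ _ hx hy => rw [map_add, hx, hy]
      | smul a x _ hx => rw [map_smul, hx]
    have hcl : IsClosed {x : X | Q i x = x} := isClosed_eq (Q i).continuous continuous_id
    exact fun x hx => closure_minimal (fun x hx => h1 x hx) hcl hx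
  set Q' : ∀ i, X →L[ℝ] Z i := fun i => (Q i).codRestrict (Z i) (hQZ i) with hQ'
  have hQ'app : ∀ i x, ((Q' i x : Z i) : X) = Q i x := fun i x => rfl
  set T' : ∀ i, Y →L[ℝ] Z i := fun i => (1 / 2 : ℝ) • ((Q' i).comp T) with hT'
  have hcomp : ∀ i, CompleteSpace (Z i) := fun i =>
    (Submodule.isClosed_topologicalClosure _).completeSpace_coe
  have hT'd : ∀ i, DenseRange (T' i) := by
    intro i
    have h1 : Function.Surjective fun x : X => (1 / 2 : ℝ) • Q' i x := by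
      intro z
      refine ⟨(2 : ℝ) • (z : X), ?_⟩
      apply Subtype.ext
      show (1 / 2 : ℝ) • Q i ((2 : ℝ) • (z : X)) = z
      rw [map_smul, hQid i z z.2, smul_smul]
      norm_num
    have h2 : Continuous fun x : X => (1 / 2 : ℝ) • Q' i x :=
      ((1 / 2 : ℝ) • Q' i).continuous
    exact h1.denseRange.comp hT h2
  set Δ' : ∀ i, Set (Z i) := fun i => {z | (z : X) ∈ D i} with hΔ'
  have himage : ∀ i, Subtype.val '' (Δ' i) = D i := by
    intro i
    ext x
    constructor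
    · rintro ⟨z, hz, rfl⟩
      exact hz
    · intro hx
      exact ⟨⟨x, hDZ i hx⟩, hx, rfl⟩
  have hΔ'd : ∀ i, Dense (Submodule.span ℝ (Δ' i) : Set (Z i)) := by
    intro i z
    rw [closure_subtype]
    have h1 : Subtype.val '' (Submodule.span ℝ (Δ' i) : Set (Z i)) =
        (Submodule.span ℝ (D i) : Set X) := by
      rw [← himage i]
      have h2 := Submodule.map_span (Z i).subtype (Δ' i)
      have h3 := congrArg (fun M : Submodule ℝ X => (M : Set X)) h2
      exact h3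
    rw [h1]
    exact z.2
  have hΔ'c : ∀ i, ∀ f : Z i →L[ℝ] ℝ, {z ∈ Δ' i | f z ≠ 0}.Countable := by
    intro i f
    have h1 := hΔc (f.comp (Q' i))
    refine MapsTo.countable_of_injOn (f := Subtype.val) ?_ Subtype.val_injective.injOn h1
    rintro z ⟨hz, hfz⟩
    refine ⟨hDΔ i hz, ?_⟩
    show f (Q' i z) ≠ 0
    have h2 : Q' i z = z := Subtype.ext (hQid i z z.2)
    rw [h2]
    exact hfz
  have hΔ'card : ∀ i, #(Δ' i) < κ := by
    intro i
    rw [← hκ]
    refine lt_of_le_of_lt ?_ (hD1 i)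
    exact Cardinal.mk_le_of_injective (f := fun z : Δ' i => (⟨(z.1 : X), z.2⟩ : D i))
      fun a b hab => Subtype.ext (Subtype.ext (congrArg (fun z : D i => (z : X)) hab))
  have hW : ∀ i, Concl (T' i) := fun i =>
    ih _ (hΔ'card i) (Z i) (T' i) (hT'd i) (Δ' i) (hΔ'd i) (hΔ'c i) rfl
  choose W hW1 hW2 hW3 using hW
  have hnorm : ∀ i, ∀ f : X →L[ℝ] ℝ,
      ‖(f.comp (Z i).subtypeL).comp (T' i)‖ = 1 / 2 * ‖(f.comp (Q i)).comp T‖ := by
    intro i f
    have h1 : (f.comp (Z i).subtypeL).comp (T' i) = (1 / 2 : ℝ) • ((f.comp (Q i)).comp T) := by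
      ext y
      show f ((1 / 2 : ℝ) • Q i (T y)) = (1 / 2 : ℝ) • f (Q i (T y))
      rw [map_smul]
    rw [h1, norm_smul]
    norm_num
  refine ⟨⋃ i, Subtype.val '' (W i), ?_, ?_, ?_⟩
  · have h1 : ∀ i, (Z i : Set X) ⊆
        closure (Submodule.span ℝ (⋃ i, Subtype.val '' (W i)) : Set X) := by
      intro i x hx
      have h2 := hW1 i ⟨x, hx⟩
      rw [closure_subtype] at h2
      refine closure_mono ?_ h2
      have h3 : Subtype.val '' (Submodule.span ℝ (W i) : Set (Z i)) =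
          (Submodule.span ℝ (Subtype.val '' (W i)) : Set X) := by
        have h2 := Submodule.map_span (Z i).subtype (W i)
        exact congrArg (fun M : Submodule ℝ X => (M : Set X)) h2
      rw [h3]
      exact Submodule.span_mono (subset_iUnion (fun i => (Subtype.val '' (W i) : Set X)) i)
    have h2 : Δ ⊆ ((Submodule.span ℝ (⋃ i, Subtype.val '' (W i))).topologicalClosure : Set X) := by
      rw [← hD2]
      exact iUnion_subset fun i => (hDZ i).trans (h1 i)
    have h3 : (Submodule.span ℝ Δ : Set X) ⊆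
        ((Submodule.span ℝ (⋃ i, Subtype.val '' (W i))).topologicalClosure : Set X) :=
      Submodule.span_le.2 h2
    intro x
    have h4 := closure_mono h3 (hΔ x)
    rw [(Submodule.isClosed_topologicalClosure _).closure_eq] at h4
    exact h4
  · rintro w hw f
    obtain ⟨i, z, hz, rfl⟩ := mem_iUnion.1 hw
    have h1 := hW2 i z hz (f.comp (Z i).subtypeL)
    rw [hnorm] at h1
    have h2 := hQ3 i f
    calc |f (z : X)| ≤ 1 / 2 * ‖(f.comp (Q i)).comp T‖ := h1
      _ ≤ ‖f.comp T‖ := by linarith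
  · intro f ε hε
    have hfin : {i | ε < ‖(f.comp (Q i)).comp T‖}.Finite := hQ4 f ε hε
    have h1 : (⋃ i ∈ {i | ε < ‖(f.comp (Q i)).comp T‖},
        Subtype.val '' {w | w ∈ W i ∧ ε < |(f.comp (Z i).subtypeL) w|}).Finite :=
      hfin.biUnion fun i _ => (hW3 i (f.comp (Z i).subtypeL) ε hε).image _
    refine h1.subset ?_
    rintro w ⟨hw, hlt⟩
    obtain ⟨i, z, hz, rfl⟩ := mem_iUnion.1 hw
    refine mem_iUnion₂.2 ⟨i, ?_, ⟨z, ⟨hz, hlt⟩, rfl⟩⟩
    have h2 := hW2 i z hz (f.comp (Z i).subtypeL)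
    rw [hnorm] at h2
    have h3 : ε < 1 / 2 * ‖(f.comp (Q i)).comp T‖ := lt_of_lt_of_le hlt h2
    show ε < ‖(f.comp (Q i)).comp T‖
    have := norm_nonneg ((f.comp (Q i)).comp T)
    linarith

end Main

end Pool.Agent.Helper176.WG
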